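import Mathlib

set_option autoImplicit false

/-!
# Maier's phenomenon for prime pairs at almost all distances: arithmetic of the error terms
-/

namespace Pool.Agent.K9h54.MP

open Finset

/-- the main term -/
theorem arith1 {B V y k S s b η : ℝ} (hB : 1 / 2 ≤ B) (hB1 : B ≤ 1) (hV0 : 0 ≤ V) (hV : V ≤ y) (hη0 : 0 ≤ η)
    (hη : η ≤ 1 / 100) (hk : |k - V * B| ≤ η * y) (hS : 1 ≤ S) (hs : |s - S| ≤ η * S) (hb : |b - 1| ≤ η) :
    |k * s * b / B ^ 2 - S * V / B| ≤ 16 * η * y * S := by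
  have hB0 : 0 < B := by linarith
  have hy : 0 ≤ y := hV0.trans hV
  have hsS : |s| ≤ 101 / 100 * S := by
    have := abs_add_le (s - S) S
    rw [sub_add_cancel, abs_of_nonneg (by linarith : (0 : ℝ) ≤ S)] at this
    nlinarith
  have hbb : |b| ≤ 101 / 100 := by
    have := abs_add_le (b - 1) 1
    rw [sub_add_cancel, abs_one] at this
    linarith
  have e1 : k * s * b / B ^ 2 - S * V / B = ((k - V * B) * s * b + V * B * (s - S) * b + V * B * S * (b - 1)) / B ^ 2 := by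
    field_simp
    ring
  rw [e1, abs_div, abs_of_pos (by positivity : 0 < B ^ 2), div_le_iff₀ (by positivity)]
  have h1 : |(k - V * B) * s * b| ≤ (η * y) * (101 / 100 * S) * (101 / 100) := by
    rw [abs_mul, abs_mul]
    gcongr
  have h2 : |V * B * (s - S) * b| ≤ (y * 1) * (η * S) * (101 / 100) := by
    rw [abs_mul, abs_mul, abs_mul, abs_of_nonneg hV0, abs_of_pos hB0]
    gcongr
  have h3 : |V * B * S * (b - 1)| ≤ (y * 1) * S * η := by
    rw [abs_mul, abs_mul, abs_mul, abs_of_nonneg hV0, abs_of_pos hB0, abs_of_nonneg (by linarith : (0 : ℝ) ≤ S)]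
    gcongr
  have h4 := abs_add_le ((k - V * B) * s * b + V * B * (s - S) * b) (V * B * S * (b - 1))
  have h5 := abs_add_le ((k - V * B) * s * b) (V * B * (s - S) * b)
  have h6 : (1 : ℝ) / 4 ≤ B ^ 2 := by nlinarith
  have h7 : 0 ≤ η * y * S := by positivity
  calc |(k - V * B) * s * b + V * B * (s - S) * b + V * B * S * (b - 1)| ≤ 4 * (η * y * S) := by nlinarith
    _ ≤ 16 * η * y * S * B ^ 2 := by nlinarith

/-- from the weighted sum to the number of the pairs -/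
theorem arith3 {T Sg y S rel ℓ L Xq err η : ℝ} (hη0 : 0 ≤ η) (hη : η ≤ 1 / 100) (hy : 0 ≤ y) (hS : 1 ≤ S)
    (hXq : 0 ≤ Xq) (hrel0 : 0 ≤ rel) (hrel : rel ≤ 2) (hℓ : 0 < ℓ) (hSg : 0 ≤ Sg)
    (hT : |T - 6 * Xq * y * S * rel| ≤ 17 * η * (6 * Xq * y * S)) (h1 : ℓ ^ 2 * Sg ≤ T)
    (h2 : T ≤ L ^ 2 * Sg + err) (herr : err ≤ η * (6 * Xq * y * S)) (hL : (1 - η) * L ^ 2 ≤ ℓ ^ 2) (hL0 : 0 < L) :
    |Sg - Xq * (6 * S * y / ℓ ^ 2) * rel| ≤ 20 * η * (Xq * (6 * S * y / ℓ ^ 2)) := by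
  have hM : 0 ≤ 6 * Xq * y * S := by positivity
  have hℓ2 : 0 < ℓ ^ 2 := by positivity
  have e1 : Xq * (6 * S * y / ℓ ^ 2) = 6 * Xq * y * S / ℓ ^ 2 := by ring
  rw [e1]
  obtain ⟨M, hMd⟩ : ∃ M, M = 6 * Xq * y * S := ⟨_, rfl⟩
  rw [← hMd] at hM hT herr ⊢
  rw [abs_le] at hT ⊢
  have e2 : M / ℓ ^ 2 * rel = M * rel / ℓ ^ 2 := by ring
  have e3 : 20 * η * (M / ℓ ^ 2) = 20 * η * M / ℓ ^ 2 := by ring
  rw [e2, e3]
  constructor
  · -- lower bound
    have k1 : M * rel - 18 * η * M ≤ L ^ 2 * Sg := by linarith [hT.1]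
    have k2 : (1 - η) * (M * rel - 18 * η * M) ≤ ℓ ^ 2 * Sg := by
      have k3 : (1 - η) * (M * rel - 18 * η * M) ≤ (1 - η) * (L ^ 2 * Sg) :=
        mul_le_mul_of_nonneg_left k1 (by linarith)
      have k4 : (1 - η) * (L ^ 2 * Sg) ≤ ℓ ^ 2 * Sg := by
        calc (1 - η) * (L ^ 2 * Sg) = ((1 - η) * L ^ 2) * Sg := by ring
          _ ≤ ℓ ^ 2 * Sg := mul_le_mul_of_nonneg_right hL hSg
      linarith
    have k5 : M * rel - 20 * η * M ≤ (1 - η) * (M * rel - 18 * η * M) := by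
      have k6 : η * (M * rel) ≤ 2 * η * M := by
        have : M * rel ≤ M * 2 := mul_le_mul_of_nonneg_left hrel hM
        nlinarith
      have k7 : 0 ≤ η * (18 * η * M) := by positivity
      nlinarith
    have k8 : (M * rel - 20 * η * M) / ℓ ^ 2 ≤ Sg := by
      rw [div_le_iff₀ hℓ2]
      linarith
    have k9 : (M * rel - 20 * η * M) / ℓ ^ 2 = M * rel / ℓ ^ 2 - 20 * η * M / ℓ ^ 2 := by ring
    rw [k9] at k8
    linarith
  · -- upper bound
    have k1 : Sg ≤ (M * rel + 17 * η * M) / ℓ ^ 2 := by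
      rw [le_div_iff₀ hℓ2]
      linarith [hT.2]
    have k2 : (M * rel + 17 * η * M) / ℓ ^ 2 = M * rel / ℓ ^ 2 + 17 * η * M / ℓ ^ 2 := by ring
    rw [k2] at k1
    have k3 : 17 * η * M / ℓ ^ 2 ≤ 20 * η * M / ℓ ^ 2 := by
      apply div_le_div_of_nonneg_right _ hℓ2.le
      have : 0 ≤ η * M := by positivity
      linarith
    linarith

open Classical in
/-- many windows with a deviation -/
theorem pigeon {U : Finset ℕ} {f : ℕ → ℝ} {y H ℓ Xq rel δ η σ : ℝ} (hσ : σ = 1 ∨ σ = -1) (hδ : 0 < δ) (hδ1 : δ ≤ 1)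
    (hη : 20 * η ≤ δ / 8) (hη0 : 0 ≤ η) (hy : 0 < y) (hH : 6 * y / ℓ ^ 2 ≤ H) (hℓ : 2 ≤ ℓ) (hf0 : ∀ u ∈ U, 0 ≤ f u)
    (hfy : ∀ u ∈ U, f u ≤ y) (hU1 : Xq - 1 ≤ U.card) (hU2 : (U.card : ℝ) ≤ Xq + 1) (hXq : 16 / δ ≤ Xq)
    (hrel : 2 * δ ≤ σ * (rel - 1)) (hsum : |∑ u ∈ U, f u - Xq * H * rel| ≤ 20 * η * (Xq * H)) :
    Xq * (δ / 2) / ℓ ^ 2 ≤ ((U.filter (fun u => δ * H ≤ σ * (f u - H))).card : ℝ) := by
  have hH0 : 0 < H := lt_of_lt_of_le (by positivity) hH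
  have hXq0 : 0 < Xq := lt_of_lt_of_le (by positivity) hXq
  set F := U.filter (fun u => δ * H ≤ σ * (f u - H)) with hF
  have hσa : |σ| = 1 := by rcases hσ with h | h <;> rw [h] <;> norm_num
  -- lower bound
  have e1 : ∑ u ∈ U, σ * (f u - H) = σ * (∑ u ∈ U, f u - Xq * H * rel) + σ * (Xq * H * rel) - σ * (U.card * H) := by
    rw [← mul_sum, sum_sub_distrib, sum_const, nsmul_eq_mul]
    ring
  have e2 : -(20 * η * (Xq * H)) ≤ σ * (∑ u ∈ U, f u - Xq * H * rel) := by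
    have : |σ * (∑ u ∈ U, f u - Xq * H * rel)| ≤ 20 * η * (Xq * H) := by
      rw [abs_mul, hσa, one_mul]
      exact hsum
    exact (abs_le.1 this).1
  have e3 : σ * (U.card * H) ≤ σ * (Xq * H) + H := by
    have k1 : σ * ((U.card : ℝ) - Xq) ≤ 1 := by
      rcases hσ with h | h <;> rw [h] <;> linarith
    have k2 := mul_le_mul_of_nonneg_right k1 hH0.le
    nlinarith
  have e4 : 2 * δ * (Xq * H) ≤ σ * (rel - 1) * (Xq * H) := mul_le_mul_of_nonneg_right hrel (by positivity)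
  have low : 15 / 8 * δ * (Xq * H) - H ≤ ∑ u ∈ U, σ * (f u - H) := by
    rw [e1]
    have k1 : 20 * η * (Xq * H) ≤ δ / 8 * (Xq * H) := mul_le_mul_of_nonneg_right hη (by positivity)
    nlinarith
  -- upper bound
  have up : ∑ u ∈ U, σ * (f u - H) ≤ F.card * (y + H) + (Xq + 1) * (δ * H) := by
    have k1 : ∀ u ∈ U, σ * (f u - H) ≤ (if δ * H ≤ σ * (f u - H) then (y + H) else 0) + δ * H := by
      intro u hu
      have k2 := hf0 u hu
      have k3 := hfy u hu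
      split_ifs with h
      · have : 0 < δ * H := by positivity
        rcases hσ with h' | h' <;> rw [h'] <;> linarith
      · push Not at h
        linarith
    refine (sum_le_sum k1).trans ?_
    rw [sum_add_distrib, ← sum_filter, sum_const, sum_const, nsmul_eq_mul, nsmul_eq_mul]
    have : (U.card : ℝ) * (δ * H) ≤ (Xq + 1) * (δ * H) := mul_le_mul_of_nonneg_right hU2 (by positivity)
    linarith
  have key : Xq * (δ / 2) * H ≤ F.card * (y + H) := by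
    have k1 : 15 / 8 * δ * (Xq * H) - H ≤ F.card * (y + H) + (Xq + 1) * (δ * H) := low.trans up
    have k2 : 16 ≤ Xq * δ := by
      rw [div_le_iff₀ hδ] at hXq
      exact hXq
    have k3 : 16 * H ≤ Xq * δ * H := mul_le_mul_of_nonneg_right k2 hH0.le
    have k4 : δ * H ≤ H := by nlinarith
    nlinarith
  have hyH : 0 < y + H := by positivity
  have e5 : 1 / ℓ ^ 2 ≤ H / (y + H) := by
    rw [div_le_div_iff₀ (by positivity) hyH, one_mul]
    have k1 : 6 * y ≤ H * ℓ ^ 2 := by rwa [div_le_iff₀ (by positivity)] at hH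
    have k2 : 4 ≤ ℓ ^ 2 := by nlinarith
    nlinarith
  calc Xq * (δ / 2) / ℓ ^ 2 = Xq * (δ / 2) * (1 / ℓ ^ 2) := by ring
    _ ≤ Xq * (δ / 2) * (H / (y + H)) := by gcongr
    _ = Xq * (δ / 2) * H / (y + H) := by ring
    _ ≤ F.card := by
        rw [div_le_iff₀ hyH]
        exact key

end Pool.Agent.K9h54.MP
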