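import Pool.Agent.K9h54.MP.Row
import Pool.Agent.N610.MS.CNT

set_option autoImplicit false

/-!
# Maier's phenomenon for prime pairs at almost all distances: auxiliary estimates
-/

namespace Pool.Agent.K9h54.MP

open Finset Filter Topology

open scoped ArithmeticFunction.vonMangoldt

/-- the local factors of the modulus are harmless -/
theorem PI_bounds (P : Finset ℕ) (hP : ∀ p ∈ P, p.Prime ∧ 5 ≤ p) (w : ℝ) (hw : 0 < w) (hPw : ∀ p ∈ P, w ≤ (p : ℝ))
    (hs : ∑ p ∈ P, 1 / (p : ℝ) ≤ 1) (h : ℕ) :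
    (∏ p ∈ P, (1 - 1 / (p : ℝ))) / PI P h ≤ Real.exp (2 / w) ∧
      1 - ((P.filter (fun p => p ∣ h)).card : ℝ) / w ≤ (∏ p ∈ P, (1 - 1 / (p : ℝ))) / PI P h := by
  have e0 : (∏ p ∈ P, (1 - 1 / (p : ℝ))) / PI P h = ∏ p ∈ P, ((1 - 1 / (p : ℝ)) / (1 - gh h p)) := by
    unfold PI
    rw [prod_div_distrib]
  have hloc : ∀ p ∈ P, 0 ≤ (1 - 1 / (p : ℝ)) / (1 - gh h p) ∧
      (1 - 1 / (p : ℝ)) / (1 - gh h p) ≤ Real.exp (2 / w * (1 / p)) ∧
      1 - (if p ∣ h then 1 / (p : ℝ) else 0) ≤ (1 - 1 / (p : ℝ)) / (1 - gh h p) := by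
    intro p hp
    have h5 : (5 : ℝ) ≤ p := by exact_mod_cast (hP p hp).2
    have hpw := hPw p hp
    have he : 1 + 2 / w * (1 / (p : ℝ)) ≤ Real.exp (2 / w * (1 / p)) := by
      have := Real.add_one_le_exp (2 / w * (1 / (p : ℝ)))
      linarith
    have h1p : 1 / (p : ℝ) ≤ 1 := by rw [div_le_one (by linarith)]; linarith
    have hpos : 0 < 2 / w * (1 / (p : ℝ)) := by positivity
    unfold gh
    split_ifs with hd
    · rw [sub_zero, div_one]
      refine ⟨by linarith, ?_, le_rfl⟩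
      have : 0 < 1 / (p : ℝ) := by positivity
      linarith
    · have e1 : (1 - 1 / (p : ℝ)) / (1 - 1 / ((p : ℝ) - 1)) = 1 + 1 / (p * (p - 2)) := by
        have k1 : (p : ℝ) - 1 ≠ 0 := by linarith
        have k2 : (p : ℝ) - 2 ≠ 0 := by linarith
        have k3 : (p : ℝ) ≠ 0 := by linarith
        have k4 : (1 : ℝ) - 1 / ((p : ℝ) - 1) = (p - 2) / (p - 1) := by
          field_simp
          ring
        rw [k4]
        field_simp
        ring
      rw [e1]
      have k5 : 0 < (p : ℝ) * (p - 2) := by nlinarith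
      have k6 : 0 < 1 / ((p : ℝ) * (p - 2)) := by positivity
      refine ⟨by linarith, ?_, by linarith⟩
      refine le_trans ?_ he
      have k7 : 1 / ((p : ℝ) * (p - 2)) ≤ 2 / w * (1 / p) := by
        rw [div_mul_div_comm, mul_one, div_le_div_iff₀ k5 (by positivity)]
        nlinarith
      linarith
  rw [e0]
  constructor
  · calc ∏ p ∈ P, ((1 - 1 / (p : ℝ)) / (1 - gh h p)) ≤ ∏ p ∈ P, Real.exp (2 / w * (1 / p)) :=
          Finset.prod_le_prod (fun p hp => (hloc p hp).1) fun p hp => (hloc p hp).2.1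
      _ = Real.exp (2 / w * ∑ p ∈ P, 1 / (p : ℝ)) := by rw [← Real.exp_sum, mul_sum]
      _ ≤ Real.exp (2 / w) := by
          apply Real.exp_le_exp.2
          have : 0 < 2 / w := by positivity
          nlinarith
  · have h1 := (Pool.Agent.N610.MS.CNTaux.one_sub_sum_le P (fun p => if p ∣ h then 1 / (p : ℝ) else 0) (by
      intro p hp
      have h5 : (5 : ℝ) ≤ p := by exact_mod_cast (hP p hp).2
      split_ifs
      · exact ⟨by positivity, by rw [div_le_one (by linarith)]; linarith⟩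
      · exact ⟨le_rfl, zero_le_one⟩)).1
    have h2 : ∑ p ∈ P, (if p ∣ h then 1 / (p : ℝ) else 0) ≤ ((P.filter (fun p => p ∣ h)).card : ℝ) / w := by
      rw [← sum_filter]
      calc ∑ p ∈ P.filter (fun p => p ∣ h), 1 / (p : ℝ) ≤ ∑ p ∈ P.filter (fun p => p ∣ h), 1 / w := by
            apply sum_le_sum
            intro p hp
            exact one_div_le_one_div_of_le hw (hPw p (mem_filter.1 hp).1)
        _ = _ := by rw [sum_const, nsmul_eq_mul, mul_one_div]
    have h3 : ∏ p ∈ P, (1 - (if p ∣ h then 1 / (p : ℝ) else 0)) ≤ ∏ p ∈ P, ((1 - 1 / (p : ℝ)) / (1 - gh h p)) := by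
      apply Finset.prod_le_prod
      · intro p hp
        have h5 : (5 : ℝ) ≤ p := by exact_mod_cast (hP p hp).2
        split_ifs
        · rw [sub_nonneg, div_le_one (by linarith)]; linarith
        · norm_num
      · exact fun p hp => (hloc p hp).2.2
    linarith

/-- the number of the prime pairs in a window -/
def pr (Y a u : ℕ) : ℕ := ((Icc 1 Y).filter (fun c => (6 * (u + c) - 1).Prime ∧ (6 * (u + c) - 1 + (6 * a + 2)).Prime)).card

/-- prime powers -/
theorem pp_sum (N : ℕ) (hN : 1 ≤ N) :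
    ∑ n ∈ (Icc 1 N).filter (fun n => ¬ n.Prime), Λ n ≤ 2 * √(N : ℝ) * Real.log N := by
  have h1 := Chebyshev.psi_sub_theta_le (show (1 : ℝ) ≤ N by exact_mod_cast hN)
  rw [Chebyshev.psi_sub_theta_eq_sum_not_prime, Nat.floor_natCast] at h1
  have e : Ioc 0 N = Icc 1 N := by
    ext n
    simp only [mem_Ioc, mem_Icc]
    omega
  rw [e] at h1
  exact h1

theorem pp_inj {ι : Type} (s : Finset ι) (f : ι → ℕ) (N : ℕ) (hN : 1 ≤ N) (hf : Set.InjOn f s)
    (hfN : ∀ i ∈ s, 1 ≤ f i ∧ f i ≤ N) :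
    ∑ i ∈ s, (if (f i).Prime then 0 else Λ (f i)) ≤ 2 * √(N : ℝ) * Real.log N := by
  classical
  have h1 : ∑ i ∈ s, (if (f i).Prime then 0 else Λ (f i)) = ∑ n ∈ s.image f, (if n.Prime then 0 else Λ n) := by
    rw [sum_image hf]
  rw [h1]
  refine le_trans ?_ (pp_sum N hN)
  rw [sum_filter]
  have h2 : ∀ n, (if ¬ n.Prime then Λ n else 0) = (if n.Prime then 0 else Λ n) := by
    intro n
    by_cases h : n.Prime
    · rw [if_neg (not_not.2 h), if_pos h]
    · rw [if_pos h, if_neg h]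
  simp only [h2]
  apply sum_le_sum_of_subset_of_nonneg
  · intro n hn
    rw [mem_image] at hn
    obtain ⟨i, hi, rfl⟩ := hn
    rw [mem_Icc]
    exact hfN i hi
  · intro n _ _
    split_ifs
    · exact le_rfl
    · exact ArithmeticFunction.vonMangoldt_nonneg

/-- the sum over the matrix and the number of the prime pairs in the windows -/
theorem tot_pairs (P : Finset ℕ) (hP : ∀ p ∈ P, p.Prime) (X Y N a : ℕ) (hX : 2 ≤ X) (hPX : ∀ p ∈ P, p ≤ X)
    (ha : a ≤ X) (hN : 18 * X + 6 * Y + 2 ≤ N) (U : Finset ℕ)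
    (hU : ∀ u ∈ U, X < u ∧ u ≤ 2 * X ∧ ∀ p ∈ P, 6 * u ≡ 1 [MOD p]) :
    Real.log X ^ 2 * ∑ u ∈ U, (pr Y a u : ℝ) ≤
      ∑ u ∈ U, ∑ c ∈ KK ((Icc 1 Y).filter (fun c => ∀ p ∈ P, ¬ p ∣ c)) P a,
        Λ (6 * (u + c) - 1) * Λ (6 * (u + c) - 1 + (6 * a + 2)) ∧
    ∑ u ∈ U, ∑ c ∈ KK ((Icc 1 Y).filter (fun c => ∀ p ∈ P, ¬ p ∣ c)) P a,
        Λ (6 * (u + c) - 1) * Λ (6 * (u + c) - 1 + (6 * a + 2)) ≤
      Real.log N ^ 2 * ∑ u ∈ U, (pr Y a u : ℝ) + 4 * Y * √(N : ℝ) * Real.log N ^ 2 := by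
  classical
  obtain ⟨K, hK⟩ : ∃ K, K = KK ((Icc 1 Y).filter (fun c => ∀ p ∈ P, ¬ p ∣ c)) P a := ⟨_, rfl⟩
  rw [← hK]
  have hKY : K ⊆ Icc 1 Y := by
    rw [hK]
    exact (filter_subset _ _).trans (filter_subset _ _)
  have hXr : (2 : ℝ) ≤ X := by exact_mod_cast hX
  have hlX : 0 ≤ Real.log X := Real.log_natCast_nonneg _
  have hN1 : 1 ≤ N := by omega
  have hlN : 0 ≤ Real.log N := Real.log_natCast_nonneg _
  constructor
  · rw [mul_sum]
    apply sum_le_sum
    intro u hu
    obtain ⟨hu1, hu2, hu3⟩ := hU u hu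
    unfold pr
    set S := (Icc 1 Y).filter (fun c => (6 * (u + c) - 1).Prime ∧ (6 * (u + c) - 1 + (6 * a + 2)).Prime) with hS
    have hSK : S ⊆ K := by
      intro c hc
      rw [hS, mem_filter] at hc
      obtain ⟨hc1, hc2, hc3⟩ := hc
      rw [hK]
      unfold KK
      rw [mem_filter, mem_filter]
      refine ⟨⟨hc1, ?_⟩, ?_⟩
      · intro p hp hd
        have k1 : 6 * (u + c) - 1 + 1 ≡ 0 + 1 [MOD p] := by
          rw [Nat.sub_add_cancel (by omega), mul_add, zero_add]
          have k2 : 6 * c ≡ 0 [MOD p] := Nat.modEq_zero_iff_dvd.2 (Dvd.dvd.mul_left hd 6)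
          have k3 := (hu3 p hp).add k2
          rwa [add_zero] at k3
        have k2 : p ∣ 6 * (u + c) - 1 := Nat.modEq_zero_iff_dvd.1 (Nat.ModEq.add_right_cancel' 1 k1)
        have k3 := (Nat.prime_dvd_prime_iff_eq (hP p hp) hc2).1 k2
        have k4 := hPX p hp
        omega
      · intro p hp hd
        have k1 : 6 * (u + c) - 1 + (6 * a + 2) + 1 ≡ 0 + 1 [MOD p] := by
          have k0 : 6 * (u + c) - 1 + (6 * a + 2) + 1 = 6 * u + (6 * c + 6 * a + 2) := by omega
          rw [k0, zero_add]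
          have k2 : 6 * c + 6 * a + 2 ≡ 0 [MOD p] := Nat.modEq_zero_iff_dvd.2 hd
          have k3 := (hu3 p hp).add k2
          rwa [add_zero] at k3
        have k2 : p ∣ 6 * (u + c) - 1 + (6 * a + 2) := Nat.modEq_zero_iff_dvd.1 (Nat.ModEq.add_right_cancel' 1 k1)
        have k3 := (Nat.prime_dvd_prime_iff_eq (hP p hp) hc3).1 k2
        have k4 := hPX p hp
        omega
    calc Real.log X ^ 2 * (S.card : ℝ) = ∑ c ∈ S, Real.log X ^ 2 := by rw [sum_const, nsmul_eq_mul, mul_comm]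
      _ ≤ ∑ c ∈ S, Λ (6 * (u + c) - 1) * Λ (6 * (u + c) - 1 + (6 * a + 2)) := by
          apply sum_le_sum
          intro c hc
          rw [hS, mem_filter] at hc
          obtain ⟨hc1, hc2, hc3⟩ := hc
          rw [ArithmeticFunction.vonMangoldt_apply_prime hc2, ArithmeticFunction.vonMangoldt_apply_prime hc3, sq]
          have k1 : Real.log X ≤ Real.log ((6 * (u + c) - 1 : ℕ) : ℝ) := by
            apply Real.log_le_log (by linarith)
            have : X ≤ 6 * (u + c) - 1 := by omega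
            exact_mod_cast this
          have k2 : Real.log X ≤ Real.log ((6 * (u + c) - 1 + (6 * a + 2) : ℕ) : ℝ) := by
            apply Real.log_le_log (by linarith)
            have : X ≤ 6 * (u + c) - 1 + (6 * a + 2) := by omega
            exact_mod_cast this
          exact mul_le_mul k1 k2 hlX (hlX.trans k1)
      _ ≤ _ := by
          apply sum_le_sum_of_subset_of_nonneg hSK
          intro _ _ _
          exact mul_nonneg ArithmeticFunction.vonMangoldt_nonneg ArithmeticFunction.vonMangoldt_nonneg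
  · have hle : ∀ n : ℕ, 1 ≤ n → n ≤ N → Λ n ≤ Real.log N := by
      intro n hn1 hn2
      exact ArithmeticFunction.vonMangoldt_le_log.trans
        (Real.log_le_log (by exact_mod_cast hn1) (by exact_mod_cast hn2))
    have hpt : ∀ u ∈ U, ∀ c ∈ Icc 1 Y, Λ (6 * (u + c) - 1) * Λ (6 * (u + c) - 1 + (6 * a + 2)) ≤
        (if (6 * (u + c) - 1).Prime ∧ (6 * (u + c) - 1 + (6 * a + 2)).Prime then Real.log N ^ 2 else 0) +
        (Real.log N * (if (6 * (u + c) - 1).Prime then 0 else Λ (6 * (u + c) - 1)) +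
          Real.log N * (if (6 * (u + c) - 1 + (6 * a + 2)).Prime then 0 else Λ (6 * (u + c) - 1 + (6 * a + 2)))) := by
      intro u hu c hc
      obtain ⟨hu1, hu2, -⟩ := hU u hu
      rw [mem_Icc] at hc
      have a1 := hle (6 * (u + c) - 1) (by omega) (by omega)
      have a2 := hle (6 * (u + c) - 1 + (6 * a + 2)) (by omega) (by omega)
      have a3 : (0 : ℝ) ≤ Λ (6 * (u + c) - 1) := ArithmeticFunction.vonMangoldt_nonneg
      have a4 : (0 : ℝ) ≤ Λ (6 * (u + c) - 1 + (6 * a + 2)) := ArithmeticFunction.vonMangoldt_nonneg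
      by_cases c1 : (6 * (u + c) - 1).Prime
      · by_cases c2 : (6 * (u + c) - 1 + (6 * a + 2)).Prime
        · rw [if_pos ⟨c1, c2⟩, if_pos c1, if_pos c2]
          nlinarith
        · rw [if_neg (fun h => c2 h.2), if_pos c1, if_neg c2]
          nlinarith
      · rw [if_neg (fun h => c1 h.1), if_neg c1]
        have : 0 ≤ Real.log N * (if (6 * (u + c) - 1 + (6 * a + 2)).Prime then 0 else Λ (6 * (u + c) - 1 + (6 * a + 2))) := by
          apply mul_nonneg hlN
          split_ifs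
          · exact le_rfl
          · exact a4
        nlinarith
    have hcol : ∀ c ∈ Icc 1 Y, ∑ u ∈ U, ((Real.log N * (if (6 * (u + c) - 1).Prime then 0 else Λ (6 * (u + c) - 1)) +
          Real.log N * (if (6 * (u + c) - 1 + (6 * a + 2)).Prime then 0 else Λ (6 * (u + c) - 1 + (6 * a + 2))))) ≤
          4 * √(N : ℝ) * Real.log N ^ 2 := by
      intro c hc
      rw [mem_Icc] at hc
      rw [sum_add_distrib, ← mul_sum, ← mul_sum]
      have k1 := pp_inj U (fun u => 6 * (u + c) - 1) N hN1 (by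
        intro u _ u' _ h
        simp only at h
        omega) (by
        intro u hu
        obtain ⟨hu1, hu2, -⟩ := hU u hu
        omega)
      have k2 := pp_inj U (fun u => 6 * (u + c) - 1 + (6 * a + 2)) N hN1 (by
        intro u _ u' _ h
        simp only at h
        omega) (by
        intro u hu
        obtain ⟨hu1, hu2, -⟩ := hU u hu
        omega)
      have k3 := mul_le_mul_of_nonneg_left k1 hlN
      have k4 := mul_le_mul_of_nonneg_left k2 hlN
      have e : Real.log N * (2 * √(N : ℝ) * Real.log N) + Real.log N * (2 * √(N : ℝ) * Real.log N) =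
          4 * √(N : ℝ) * Real.log N ^ 2 := by ring
      linarith
    calc ∑ u ∈ U, ∑ c ∈ K, Λ (6 * (u + c) - 1) * Λ (6 * (u + c) - 1 + (6 * a + 2))
        ≤ ∑ u ∈ U, ∑ c ∈ Icc 1 Y, Λ (6 * (u + c) - 1) * Λ (6 * (u + c) - 1 + (6 * a + 2)) := by
          apply sum_le_sum
          intro u _
          apply sum_le_sum_of_subset_of_nonneg hKY
          intro _ _ _
          exact mul_nonneg ArithmeticFunction.vonMangoldt_nonneg ArithmeticFunction.vonMangoldt_nonneg
      _ ≤ ∑ u ∈ U, ∑ c ∈ Icc 1 Y, ((if (6 * (u + c) - 1).Prime ∧ (6 * (u + c) - 1 + (6 * a + 2)).Prime then Real.log N ^ 2 else 0) +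
        (Real.log N * (if (6 * (u + c) - 1).Prime then 0 else Λ (6 * (u + c) - 1)) +
          Real.log N * (if (6 * (u + c) - 1 + (6 * a + 2)).Prime then 0 else Λ (6 * (u + c) - 1 + (6 * a + 2))))) :=
          sum_le_sum fun u hu => sum_le_sum fun c hc => hpt u hu c hc
      _ = ∑ u ∈ U, ∑ c ∈ Icc 1 Y, (if (6 * (u + c) - 1).Prime ∧ (6 * (u + c) - 1 + (6 * a + 2)).Prime then Real.log N ^ 2 else 0) +
          ∑ c ∈ Icc 1 Y, ∑ u ∈ U, ((Real.log N * (if (6 * (u + c) - 1).Prime then 0 else Λ (6 * (u + c) - 1)) +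
          Real.log N * (if (6 * (u + c) - 1 + (6 * a + 2)).Prime then 0 else Λ (6 * (u + c) - 1 + (6 * a + 2))))) := by
          simp only [sum_add_distrib]
          rw [sum_comm (s := U) (t := Icc 1 Y) (f := fun u c => Real.log N * (if (6 * (u + c) - 1).Prime then 0 else Λ (6 * (u + c) - 1))),
            sum_comm (s := U) (t := Icc 1 Y) (f := fun u c => Real.log N * (if (6 * (u + c) - 1 + (6 * a + 2)).Prime then 0 else Λ (6 * (u + c) - 1 + (6 * a + 2))))]
      _ ≤ Real.log N ^ 2 * ∑ u ∈ U, (pr Y a u : ℝ) + ∑ c ∈ Icc 1 Y, 4 * √(N : ℝ) * Real.log N ^ 2 := by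
          apply add_le_add _ (sum_le_sum hcol)
          rw [mul_sum]
          apply sum_le_sum
          intro u _
          unfold pr
          rw [← sum_filter, sum_const, nsmul_eq_mul, mul_comm]
      _ = _ := by
          rw [sum_const, Nat.card_Icc, Nat.add_sub_cancel, nsmul_eq_mul]
          ring

end Pool.Agent.K9h54.MP
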