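import Pool.Agent.K9h54.MP.Exc
import Pool.Agent.K9h54.MP.Ax
import Pool.Agent.K9h54.MP.Ar
import Pool.Agent.K9h54.MP.Cnt
import Pool.Agent.W93.GB3

set_option autoImplicit false

/-!
# Maier's phenomenon for prime pairs at almost all distances: one side of the phenomenon
-/

namespace Pool.Agent.K9h54.MP

open Finset Filter Topology
open Pool.Agent.H373R2.T7 (singZ)
open Pool.Agent.W93.GB (sh singZ_near one_le_sing)
open Pool.Agent.H560R3.GB (sing)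
open Pool.Agent.N610.MS (V rel)

open scoped ArithmeticFunction.vonMangoldt

theorem main_term {T k W B PIh s S y η X q err : ℝ} (hB : 1 / 2 ≤ B) (hB1 : B ≤ 1) (hPI : 0 < PIh) (hV0 : 0 ≤ W)
    (hV : W ≤ y) (hη0 : 0 ≤ η) (hη : η ≤ 1 / 100) (hk : |k - W * B| ≤ η * y) (hS : 1 ≤ S) (hs : |s - S| ≤ η * S)
    (hb : |B / PIh - 1| ≤ η) (hy : 0 < y) (hX : 0 ≤ X) (hq : 0 < q)
    (hrow : |T - k * ((6 * X) / (q * B) * (s / PIh))| ≤ err) (herr : err ≤ η * (6 * (X / q) * y * S)) :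
    |T - 6 * (X / q) * y * S * (W / (y * B))| ≤ 17 * η * (6 * (X / q) * y * S) := by
  have h1 := arith1 hB hB1 hV0 hV hη0 hη hk hS hs hb
  have hB0 : 0 < B := by linarith
  have e1 : T - 6 * (X / q) * y * S * (W / (y * B)) = (T - k * ((6 * X) / (q * B) * (s / PIh))) +
      6 * (X / q) * (k * s * (B / PIh) / B ^ 2 - S * W / B) := by
    field_simp
    ring
  have h2 : |6 * (X / q) * (k * s * (B / PIh) / B ^ 2 - S * W / B)| ≤ 6 * (X / q) * (16 * η * y * S) := by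
    rw [abs_mul, abs_of_nonneg (by positivity : 0 ≤ 6 * (X / q))]
    exact mul_le_mul_of_nonneg_left h1 (by positivity)
  rw [e1]
  have h3 := abs_add_le (T - k * ((6 * X) / (q * B) * (s / PIh)))
    (6 * (X / q) * (k * s * (B / PIh) / B ^ 2 - S * W / B))
  have h4 : 6 * (X / q) * (16 * η * y * S) = 16 * (η * (6 * (X / q) * y * S)) := by ring
  have h5 : 17 * η * (6 * (X / q) * y * S) = 17 * (η * (6 * (X / q) * y * S)) := by ring
  rw [h5]
  linarith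

/-- the number of the rows of the matrix -/
theorem rows_card (X q u₀ : ℕ) (hq : 0 < q) :
    (X : ℝ) / q - 1 ≤ ((Ioc X (2 * X)).filter (fun u => u ≡ u₀ [MOD q])).card ∧
      ((((Ioc X (2 * X)).filter (fun u => u ≡ u₀ [MOD q])).card : ℕ) : ℝ) ≤ (X : ℝ) / q + 1 := by
  have h1 := Nat.Ioc_filter_modEq_card X (2 * X) hq u₀
  obtain ⟨n, hn⟩ : ∃ n, n = ((Ioc X (2 * X)).filter (fun u => u ≡ u₀ [MOD q])).card := ⟨_, rfl⟩
  rw [← hn] at h1 ⊢
  set α : ℚ := (((2 * X : ℕ) : ℚ) - u₀) / q with hα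
  set β : ℚ := ((X : ℚ) - u₀) / q with hβ
  have e1 : α - β = (X : ℚ) / q := by
    rw [hα, hβ]
    push_cast
    ring
  have a1 := Int.floor_le α
  have a2 := Int.lt_floor_add_one α
  have b1 := Int.floor_le β
  have b2 := Int.lt_floor_add_one β
  have hXq : (0 : ℚ) ≤ (X : ℚ) / q := by positivity
  have h2 : ((n : ℤ) : ℚ) = ((max (⌊α⌋ - ⌊β⌋) 0 : ℤ) : ℚ) := by rw [h1]
  push_cast at h2
  have h3 : (X : ℚ) / q - 1 ≤ n := by
    rw [h2]
    refine le_trans ?_ (le_max_left _ _)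
    linarith
  have h4 : (n : ℚ) ≤ (X : ℚ) / q + 1 := by
    rw [h2]
    apply max_le
    · linarith
    · linarith
  constructor
  · have : (((X : ℚ) / q - 1 : ℚ) : ℝ) ≤ ((n : ℚ) : ℝ) := by exact_mod_cast h3
    push_cast at this
    exact this
  · have : ((n : ℚ) : ℝ) ≤ (((X : ℚ) / q + 1 : ℚ) : ℝ) := by exact_mod_cast h4
    push_cast at this
    exact this

theorem inv6 (q : ℕ) (h : Nat.Coprime 6 q) : ∃ u₀ : ℕ, 6 * u₀ ≡ 1 [MOD q] := by
  obtain ⟨k, hk1, hk2⟩ := Nat.chineseRemainder h 0 1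
  obtain ⟨u, hu⟩ := Nat.modEq_zero_iff_dvd.1 hk1
  exact ⟨u, by rw [← hu]; exact hk2⟩

theorem pr_le (Y a u : ℕ) : pr Y a u ≤ Y := by
  unfold pr
  refine (card_filter_le _ _).trans ?_
  rw [Nat.card_Icc]
  omega

/-- one side of the phenomenon at one distance -/
theorem core {P : Finset ℕ} {X Y N a z u₀ U : ℕ} {y η δ σ w err S : ℝ} (hσ : σ = 1 ∨ σ = -1) (hδ : 0 < δ) (hδ1 : δ ≤ 1)
    (hηδ : η = δ / 160) (hP : ∀ p ∈ P, p.Prime ∧ 5 ≤ p) (hPX : ∀ p ∈ P, p ≤ X) (hX : 2 ≤ X) (ha : a ≤ X)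
    (hN : 18 * X + 6 * Y + 2 ≤ N) (hY : Y = ⌊y⌋₊) (hy : 1 ≤ y) (hu₀ : 6 * u₀ ≡ 1 [MOD ∏ p ∈ P, p])
    (hB : 1 / 2 ≤ ∏ p ∈ P, (1 - 1 / (p : ℝ)))
    (hrel : 2 * δ ≤ σ * (rel P y - 1)) (hrel2 : rel P y ≤ 2)
    (hk : |((KK ((Icc 1 Y).filter (fun c => ∀ p ∈ P, ¬ p ∣ c)) P a).card : ℝ) -
      ((Icc 1 Y).filter (fun c => ∀ p ∈ P, ¬ p ∣ c)).card * ∏ p ∈ P, (1 - 1 / (p : ℝ))| ≤ η * y)
    (hS : 1 ≤ S) (hs : |singZ (sh (6 * a + 2)) z - S| ≤ η * S)
    (hb : |(∏ p ∈ P, (1 - 1 / (p : ℝ))) / PI P (6 * a + 2) - 1| ≤ η)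
    (hrow : |∑ u ∈ (Ioc X (2 * X)).filter (fun u => u ≡ u₀ [MOD ∏ p ∈ P, p]),
        ∑ c ∈ KK ((Icc 1 Y).filter (fun c => ∀ p ∈ P, ¬ p ∣ c)) P a,
            Λ (6 * (u + c) - 1) * Λ (6 * (u + c) - 1 + (6 * a + 2)) -
            (KK ((Icc 1 Y).filter (fun c => ∀ p ∈ P, ¬ p ∣ c)) P a).card *
              ((6 * X : ℝ) / (((∏ p ∈ P, p : ℕ) : ℝ) * ∏ p ∈ P, (1 - 1 / (p : ℝ))) *
              (singZ (sh (6 * a + 2)) z / PI P (6 * a + 2)))| ≤ err)
    (herr : err ≤ η * (6 * ((X : ℝ) / (∏ p ∈ P, p : ℕ)) * y))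
    (herr2 : 4 * y * √(N : ℝ) * Real.log N ^ 2 ≤ η * (6 * ((X : ℝ) / (∏ p ∈ P, p : ℕ)) * y))
    (hlog : (1 - η) * Real.log N ^ 2 ≤ Real.log X ^ 2) (hlog0 : 2 ≤ Real.log X)
    (hXq : 16 / δ ≤ (X : ℝ) / (∏ p ∈ P, p : ℕ)) :
    (X : ℝ) / (∏ p ∈ P, p : ℕ) * (δ / 2) / Real.log X ^ 2 ≤
      (((Ioc X (2 * X)).filter (fun u => δ * (6 * S * y / Real.log X ^ 2) ≤
        σ * ((pr Y a u : ℝ) - 6 * S * y / Real.log X ^ 2))).card : ℝ) := by
  obtain ⟨q, hq⟩ : ∃ q, q = ∏ p ∈ P, p := ⟨_, rfl⟩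
  rw [← hq] at hu₀ hrow herr herr2 hXq ⊢
  have hq0 : 0 < q := by
    rw [hq]
    exact prod_pos fun p hp => (hP p hp).1.pos
  have hqr : (0 : ℝ) < q := by exact_mod_cast hq0
  obtain ⟨B, hBd⟩ : ∃ B, B = ∏ p ∈ P, (1 - 1 / (p : ℝ)) := ⟨_, rfl⟩
  have hB1 : B ≤ 1 := by
    rw [hBd]
    apply prod_le_one
    · intro p hp
      have h5 : (5 : ℝ) ≤ p := by exact_mod_cast (hP p hp).2
      rw [sub_nonneg, div_le_one (by linarith)]
      linarith
    · intro p hp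
      have : (0 : ℝ) ≤ 1 / p := by positivity
      linarith
  have hreld : rel P y = ((((Icc 1 Y).filter (fun c => ∀ p ∈ P, ¬ p ∣ c)).card : ℕ) : ℝ) / (y * B) := by
    unfold rel V
    rw [hBd, hY]
  rw [← hBd] at hB hk hb hrow
  obtain ⟨C, hC⟩ : ∃ C, C = (Icc 1 Y).filter (fun c => ∀ p ∈ P, ¬ p ∣ c) := ⟨_, rfl⟩
  have hCcard : (C.card : ℝ) ≤ y := by
    have k1 : C.card ≤ Y := by
      rw [hC]
      refine (card_filter_le _ _).trans ?_
      rw [Nat.card_Icc]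
      omega
    have k2 : (C.card : ℝ) ≤ (Y : ℝ) := by exact_mod_cast k1
    refine k2.trans ?_
    rw [hY]
    exact Nat.floor_le (by linarith)
  have hPI := PI_pos P hP (6 * a + 2)
  have hη0 : 0 ≤ η := by rw [hηδ]; positivity
  have hη : η ≤ 1 / 100 := by rw [hηδ]; linarith
  have hX0 : (0 : ℝ) < X := by exact_mod_cast (by omega : 0 < X)
  set UU := (Ioc X (2 * X)).filter (fun u => u ≡ u₀ [MOD q]) with hUU
  have hUmem : ∀ u ∈ UU, X < u ∧ u ≤ 2 * X ∧ ∀ p ∈ P, 6 * u ≡ 1 [MOD p] := by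
    intro u hu
    rw [hUU, mem_filter, mem_Ioc] at hu
    refine ⟨hu.1.1, hu.1.2, fun p hp => ?_⟩
    have k1 : 6 * u ≡ 6 * u₀ [MOD q] := hu.2.mul_left 6
    exact (k1.trans hu₀).of_dvd (by rw [hq]; exact dvd_prod_of_mem _ hp)
  obtain ⟨tp1, tp2⟩ := tot_pairs P (fun p hp => (hP p hp).1) X Y N a hX hPX ha hN UU hUmem
  rw [← hC] at hk hrow hreld tp1 tp2
  obtain ⟨T, hT⟩ : ∃ T, T = ∑ u ∈ UU, ∑ c ∈ KK C P a, Λ (6 * (u + c) - 1) * Λ (6 * (u + c) - 1 + (6 * a + 2)) := ⟨_, rfl⟩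
  rw [← hT] at hrow tp1 tp2
  have hM : 0 ≤ 6 * ((X : ℝ) / q) * y := by positivity
  have hSM : 6 * ((X : ℝ) / q) * y ≤ 6 * ((X : ℝ) / q) * y * S := le_mul_of_one_le_right hM hS
  have hSM2 : η * (6 * ((X : ℝ) / q) * y) ≤ η * (6 * ((X : ℝ) / q) * y * S) := mul_le_mul_of_nonneg_left hSM hη0
  have hmt := main_term hB hB1 hPI (Nat.cast_nonneg C.card) hCcard hη0 hη hk hS hs hb (by linarith) hX0.le hqr hrow
    (herr.trans hSM2)
  rw [← hreld] at hmt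
  have hℓ : 0 < Real.log X := by linarith
  have hN0 : (X : ℝ) ≤ N := by
    have : X ≤ N := by omega
    exact_mod_cast this
  have hL0 : 0 < Real.log N := lt_of_lt_of_le hℓ (Real.log_le_log hX0 hN0)
  have hYy : (Y : ℝ) ≤ y := by
    rw [hY]
    exact Nat.floor_le (by linarith)
  have hSg : 0 ≤ ∑ u ∈ UU, (pr Y a u : ℝ) := sum_nonneg fun _ _ => Nat.cast_nonneg _
  have herr3 : 4 * (Y : ℝ) * √(N : ℝ) * Real.log N ^ 2 ≤ η * (6 * ((X : ℝ) / q) * y * S) := by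
    refine le_trans ?_ (herr2.trans hSM2)
    gcongr
  have hrel0 : 0 ≤ rel P y := by
    rw [hreld]
    have : 0 < B := by linarith
    positivity
  have hA3 := arith3 hη0 hη (by linarith : 0 ≤ y) hS (by positivity : 0 ≤ (X : ℝ) / q) hrel0 hrel2 hℓ hSg hmt tp1 tp2 herr3
    hlog hL0
  obtain ⟨c1, c2⟩ := rows_card X q u₀ hq0
  have hHy : 6 * y / Real.log X ^ 2 ≤ 6 * S * y / Real.log X ^ 2 := by
    apply div_le_div_of_nonneg_right _ (by positivity)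
    nlinarith
  have hpg := pigeon (U := UU) (f := fun u => (pr Y a u : ℝ)) hσ hδ hδ1 (by rw [hηδ]; linarith) hη0 (by linarith : 0 < y) hHy
    hlog0 (fun u _ => Nat.cast_nonneg _) (fun u _ => le_trans (by exact_mod_cast pr_le Y a u) hYy) c1 c2 hXq hrel hA3
  refine hpg.trans ?_
  have hsub : UU.filter (fun u => δ * (6 * S * y / Real.log X ^ 2) ≤ σ * ((pr Y a u : ℝ) - 6 * S * y / Real.log X ^ 2)) ⊆
      (Ioc X (2 * X)).filter (fun u => δ * (6 * S * y / Real.log X ^ 2) ≤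
        σ * ((pr Y a u : ℝ) - 6 * S * y / Real.log X ^ 2)) := by
    apply filter_subset_filter
    exact filter_subset _ _
  convert (Nat.cast_le (α := ℝ)).2 (card_le_card hsub)

/-- the window count compared with the prediction -/
noncomputable def HH (lam l : ℝ) (a : ℕ) : ℝ := 6 * sing (6 * a + 2) * yl lam l / Real.log (XX l) ^ 2

open Classical in
/-- the number of the windows with a deviation -/
noncomputable def cntW (lam σ δ l : ℝ) (a : ℕ) : ℕ :=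
  ((Ioc (XX l) (2 * XX l)).filter (fun u => δ * HH lam l a ≤ σ * ((pr ⌊yl lam l⌋₊ a u : ℝ) - HH lam l a))).card

/-- sizes for the modulus -/
theorem size3 (δ η ε : ℝ) (hδ : 0 < δ) (hη : 0 < η) (hε : 0 < ε) : ∀ᶠ l : ℝ in atTop, ∀ q : ℕ, 1 ≤ q →
    (q : ℝ) ≤ Real.exp (l / 300) →
      4 * √(NN l : ℝ) * Real.log (NN l) ^ 2 ≤ η * (6 * ((XX l : ℝ) / q)) ∧
      (1 - η) * Real.log (NN l) ^ 2 ≤ Real.log (XX l) ^ 2 ∧ 2 ≤ Real.log (XX l) ∧ 16 / δ ≤ (XX l : ℝ) / q ∧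
      (XX l : ℝ) ^ (1 - ε) ≤ (XX l : ℝ) / q * (δ / 2) / Real.log (XX l) ^ 2 ∧ q ≤ XX l := by
  filter_upwards [size0, NN_bd, eventually_ge_atTop (100 : ℝ), pow_le_exp (28 / η) 1 80 one_pos,
    exp_beats (2 / δ) (ε / 2) 40 80 (by positivity) (by norm_num), eventually_ge_atTop (16 / δ),
    eventually_ge_atTop (32 / η), eventually_ge_atTop (1 / ε)] with l h0 h1 h2 h3 h4 h5 h6 h7 q hq1 hq
  obtain ⟨a1, a2, a3, a4, a5, a6⟩ := h0
  obtain ⟨b1, b2, b3, b4⟩ := h1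
  have hqr : (0 : ℝ) < q := by exact_mod_cast hq1
  have hX0 : (0 : ℝ) < XX l := by exact_mod_cast (by omega : 0 < XX l)
  have hN0 : (0 : ℝ) < NN l := by linarith [Real.exp_pos (l ^ 40 / 2)]
  have hl40 : 100 ^ 39 * l ≤ l ^ 40 := by
    have d4 : (100 : ℝ) ^ 39 ≤ l ^ 39 := by gcongr
    have d5 : l ^ 40 = l ^ 39 * l := by ring
    rw [d5]
    gcongr
  have hl2 : 50 ^ 39 * (l / 2) ≤ (l / 2) ^ 40 := by
    have d3 : 50 ≤ l / 2 := by linarith
    have d4 : (50 : ℝ) ^ 39 ≤ (l / 2) ^ 39 := by gcongr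
    have d5 : (l / 2) ^ 40 = (l / 2) ^ 39 * (l / 2) := by ring
    rw [d5]
    gcongr
  have hLl : l ≤ Real.log (NN l) := by
    have d7 : (4 : ℝ) ≤ 100 ^ 39 := by norm_num
    nlinarith
  have hXl : 2 * l ≤ Real.log (XX l) := by
    have d7 : (4 : ℝ) ≤ 50 ^ 39 := by norm_num
    nlinarith
  have hXe : Real.exp (2 * l) ≤ XX l := by
    rw [← Real.le_log_iff_exp_le hX0]
    exact hXl
  refine ⟨?_, ?_, by linarith, ?_, ?_, ?_⟩
  · -- prime powers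
    have k1 : Real.exp (l ^ 40 / 4) / 2 ≤ √(NN l : ℝ) := by
      apply Real.le_sqrt_of_sq_le
      rw [div_pow, ← Real.exp_nat_mul]
      have : ((2 : ℕ) : ℝ) * (l ^ 40 / 4) = l ^ 40 / 2 := by push_cast; ring
      rw [this]
      have := Real.exp_pos (l ^ 40 / 2)
      linarith
    have k2 : Real.log (NN l) ^ 2 ≤ l ^ 80 := by
      have : Real.log (NN l) ≤ l ^ 40 := by
        have : 0 ≤ l ^ 40 := by positivity
        linarith
      calc Real.log (NN l) ^ 2 ≤ (l ^ 40) ^ 2 := by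
            have : 0 ≤ Real.log (NN l) := by linarith
            gcongr
        _ = l ^ 80 := by ring
    have k3 : 28 * (q : ℝ) * l ^ 80 ≤ η * Real.exp (l ^ 40 / 4) := by
      have k4 : 28 * l ^ 80 ≤ η * Real.exp (1 * l) := by
        have := mul_le_mul_of_nonneg_left h3 hη.le
        calc 28 * l ^ 80 = η * (28 / η * l ^ 80) := by field_simp
          _ ≤ _ := this
      calc 28 * (q : ℝ) * l ^ 80 = q * (28 * l ^ 80) := by ring
        _ ≤ Real.exp (l / 300) * (η * Real.exp (1 * l)) := by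
            apply mul_le_mul hq k4 (by positivity) (Real.exp_pos _).le
        _ = η * Real.exp (l / 300 + 1 * l) := by rw [Real.exp_add]; ring
        _ ≤ η * Real.exp (l ^ 40 / 4) := by
            apply mul_le_mul_of_nonneg_left _ hη.le
            apply Real.exp_le_exp.2
            have d7 : (8 : ℝ) ≤ 100 ^ 39 := by norm_num
            nlinarith
    have k5 : 14 * (q : ℝ) * Real.log (NN l) ^ 2 ≤ η * √(NN l : ℝ) := by
      have k6 : 14 * (q : ℝ) * Real.log (NN l) ^ 2 ≤ 14 * q * l ^ 80 := by gcongr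
      have k7 := mul_le_mul_of_nonneg_left k1 hη.le
      linarith
    have k8 : √(NN l : ℝ) * √(NN l : ℝ) = NN l := Real.mul_self_sqrt hN0.le
    have k9 : 6 * ((XX l : ℝ) / q) * (21 * q) = 6 * (21 * XX l) := by
      field_simp
    have k10 : (4 * √(NN l : ℝ) * Real.log (NN l) ^ 2) * (21 * q) ≤ (η * (6 * ((XX l : ℝ) / q))) * (21 * q) := by
      calc (4 * √(NN l : ℝ) * Real.log (NN l) ^ 2) * (21 * q) = 6 * √(NN l : ℝ) * (14 * (q : ℝ) * Real.log (NN l) ^ 2) := by ring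
        _ ≤ 6 * √(NN l : ℝ) * (η * √(NN l : ℝ)) := by gcongr
        _ = 6 * η * (√(NN l : ℝ) * √(NN l : ℝ)) := by ring
        _ = 6 * η * NN l := by rw [k8]
        _ ≤ 6 * η * (21 * XX l) := by gcongr
        _ = (η * (6 * ((XX l : ℝ) / q))) * (21 * q) := by
            rw [mul_assoc η, k9]
            ring
    exact le_of_mul_le_mul_right k10 (by positivity)
  · have k1 : 32 / η ≤ Real.log (NN l) := h6.trans hLl
    rw [div_le_iff₀ hη] at k1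
    have k2 : (Real.log (NN l) - 4) ^ 2 ≤ Real.log (XX l) ^ 2 := by
      have : 0 ≤ Real.log (NN l) - 4 := by linarith
      gcongr
    nlinarith
  · rw [le_div_iff₀ hqr]
    have k1 : Real.exp (l / 300) ≤ Real.exp l := Real.exp_le_exp.2 (by linarith)
    have k2 : 16 / δ ≤ Real.exp l := by
      have := Real.add_one_le_exp l
      linarith
    calc 16 / δ * q ≤ Real.exp l * Real.exp l := by
          apply mul_le_mul k2 (hq.trans k1) hqr.le (Real.exp_pos _).le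
      _ = Real.exp (2 * l) := by rw [← Real.exp_add]; congr 1; ring
      _ ≤ XX l := hXe
  · have hl0 : 0 < Real.log (XX l) := by linarith
    rw [Real.rpow_sub hX0, Real.rpow_one]
    have k0 : (XX l : ℝ) ^ ε = Real.exp (ε * Real.log (XX l)) := by
      rw [Real.rpow_def_of_pos hX0, mul_comm]
    have k1 : Real.exp (ε * (l / 2) ^ 40) ≤ (XX l : ℝ) ^ ε := by
      rw [k0]
      apply Real.exp_le_exp.2
      gcongr
    have k2 : Real.log (XX l) ^ 2 ≤ l ^ 80 := by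
      calc Real.log (XX l) ^ 2 ≤ (l ^ 40) ^ 2 := by gcongr
        _ = l ^ 80 := by ring
    have e40 : (l / 2) ^ (40 : ℝ) = (l / 2) ^ 40 := by
      rw [← Real.rpow_natCast]
      norm_num
    rw [e40] at h4
    have k3 : l / 300 ≤ ε / 2 * (l / 2) ^ 40 := by
      have m1 : 1 ≤ l * ε := by rwa [div_le_iff₀ hε] at h7
      have m2 : (l / 2) ^ 2 ≤ (l / 2) ^ 40 := pow_le_pow_right₀ (by linarith) (by norm_num)
      have m3 : ε / 2 * (l / 2) ^ 2 ≤ ε / 2 * (l / 2) ^ 40 := by gcongr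
      nlinarith
    have k4 : q * (2 / δ * Real.log (XX l) ^ 2) ≤ (XX l : ℝ) ^ ε := by
      refine le_trans ?_ k1
      calc q * (2 / δ * Real.log (XX l) ^ 2) ≤ Real.exp (l / 300) * (2 / δ * l ^ 80) := by gcongr
        _ ≤ Real.exp (ε / 2 * (l / 2) ^ 40) * Real.exp (ε / 2 * (l / 2) ^ 40) := by
            apply mul_le_mul (Real.exp_le_exp.2 k3) h4 (by positivity) (Real.exp_pos _).le
        _ = _ := by rw [← Real.exp_add]; congr 1; ring
    have k5 : (0 : ℝ) < (XX l : ℝ) ^ ε := Real.rpow_pos_of_pos hX0 _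
    rw [div_le_iff₀ k5]
    have k6 : (XX l : ℝ) / q * (δ / 2) / Real.log (XX l) ^ 2 * (q * (2 / δ * Real.log (XX l) ^ 2)) = XX l := by
      field_simp
    calc (XX l : ℝ) = (XX l : ℝ) / q * (δ / 2) / Real.log (XX l) ^ 2 * (q * (2 / δ * Real.log (XX l) ^ 2)) := k6.symm
      _ ≤ _ := mul_le_mul_of_nonneg_left k4 (by positivity)
  · have : (q : ℝ) ≤ XX l := hq.trans ((Real.exp_le_exp.2 (by linarith)).trans hXe)
    exact_mod_cast this


/-- further sizes -/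
theorem size4 (w η : ℝ) (B' U : ℕ) (hw : 0 < w) (hη : 0 < η) (hB' : 3 ≤ B') (hU : 3 ≤ U) : ∀ᶠ l : ℝ in atTop,
    5 ≤ (l / 2) ^ w ∧ Real.exp (2 / (l / 2) ^ w) ≤ 1 + η ∧ 6 * Real.exp (1 / 300 * (l / 2)) ≤ Real.exp (l / 300) ∧
      l / 2 ≤ Real.log (NN l) ^ B' ∧ ((⌈Real.log (NN l) ^ B'⌉₊ : ℕ) : ℝ) ≤ Real.log (NN l) ^ (B' + 1) ∧
      Real.log (NN l) ^ 2 ≤ Real.log (NN l) ^ B' ∧ 63 / Real.log (NN l) ^ U ≤ 36 * η ∧ 3 ≤ Real.log (NN l) ^ B' := by
  have t1 : Tendsto (fun l : ℝ => (l / 2) ^ w) atTop atTop :=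
    (tendsto_rpow_atTop hw).comp (tendsto_id.atTop_div_const (by norm_num))
  have t2 : Tendsto (fun l : ℝ => Real.exp (2 / (l / 2) ^ w)) atTop (𝓝 1) := by
    have : Tendsto (fun l : ℝ => 2 / (l / 2) ^ w) atTop (𝓝 0) := t1.const_div_atTop 2
    have h := (Real.continuous_exp.tendsto 0).comp this
    rwa [Real.exp_zero] at h
  filter_upwards [t1.eventually_ge_atTop 5, t2.eventually_le_const (show (1 : ℝ) < 1 + η by linarith), NN_bd,
    eventually_ge_atTop (6000 : ℝ), eventually_ge_atTop (2 / η)] with l h1 h2 h3 h4 h5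
  obtain ⟨b1, b2, b3, b4⟩ := h3
  have hLl : l ≤ Real.log (NN l) := by
    have d4 : (100 : ℝ) ^ 39 ≤ l ^ 39 := by
      have : (100 : ℝ) ≤ l := by linarith
      gcongr
    have d5 : l ^ 40 = l ^ 39 * l := by ring
    have d7 : (4 : ℝ) ≤ 100 ^ 39 := by norm_num
    rw [d5] at b3
    nlinarith
  have hL1 : 1 ≤ Real.log (NN l) := by linarith
  have hpow : Real.log (NN l) ≤ Real.log (NN l) ^ B' := le_self_pow₀ hL1 (by omega)
  refine ⟨h1, h2, ?_, ?_, ?_, ?_, ?_, ?_⟩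
  · have e : l / 300 = l / 600 + 1 / 300 * (l / 2) := by ring
    rw [e, Real.exp_add]
    have k1 : (6 : ℝ) ≤ Real.exp (l / 600) := by
      have := Real.add_one_le_exp (l / 600)
      linarith
    gcongr
  · linarith
  · have k1 : ((⌈Real.log (NN l) ^ B'⌉₊ : ℕ) : ℝ) < Real.log (NN l) ^ B' + 1 := Nat.ceil_lt_add_one (by positivity)
    have k2 : Real.log (NN l) ^ (B' + 1) = Real.log (NN l) ^ B' * Real.log (NN l) := pow_succ _ _
    rw [k2]
    nlinarith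
  · exact pow_le_pow_right₀ hL1 (by omega)
  · have k1 : Real.log (NN l) ≤ Real.log (NN l) ^ U := le_self_pow₀ hL1 (by omega)
    rw [div_le_iff₀ (by positivity)]
    rw [div_le_iff₀ hη] at h5
    nlinarith
  · linarith

theorem rel_le_two {P : Finset ℕ} {y : ℝ} (hy : 1 ≤ y) (hB : 1 / 2 ≤ ∏ p ∈ P, (1 - 1 / (p : ℝ))) : rel P y ≤ 2 := by
  unfold rel V
  rw [div_le_iff₀ (by positivity)]
  have k1 : ((((Icc 1 ⌊y⌋₊).filter (fun h => ∀ p ∈ P, ¬ p ∣ h)).card : ℕ) : ℝ) ≤ y := by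
    have k2 : ((Icc 1 ⌊y⌋₊).filter (fun h => ∀ p ∈ P, ¬ p ∣ h)).card ≤ ⌊y⌋₊ := by
      refine (card_filter_le _ _).trans ?_
      rw [Nat.card_Icc]
      omega
    have k3 : ((((Icc 1 ⌊y⌋₊).filter (fun h => ∀ p ∈ P, ¬ p ∣ h)).card : ℕ) : ℝ) ≤ ((⌊y⌋₊ : ℕ) : ℝ) := by exact_mod_cast k2
    exact k3.trans (Nat.floor_le (by linarith))
  nlinarith

open Classical in
/-- one side of the phenomenon at almost all distances -/
theorem side (lam σ : ℝ) (hlam : 0 < lam) (hσ : σ = 1 ∨ σ = -1) : ∃ δ : ℝ, 0 < δ ∧ δ ≤ 1 ∧ ∀ (A : ℕ) (ε : ℝ), 0 < ε →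
    ∀ᶠ l : ℝ in atTop, APl l →
      (((Icc 1 (XX l)).filter (fun a => ¬ (XX l : ℝ) ^ (1 - ε) ≤ cntW lam σ δ l a)).card : ℝ) ≤
        XX l / Real.log (XX l) ^ A := by
  obtain ⟨κ, w, δ, hκ, hw, hwa, hδ, hδ1, hcnt⟩ := cnt (40 * lam) σ (by positivity) hσ
  refine ⟨δ, hδ, hδ1, fun A ε hε => ?_⟩
  obtain ⟨η, hη⟩ : ∃ η, η = δ / 160 := ⟨_, rfl⟩
  have hη0 : 0 < η := by rw [hη]; positivity
  obtain ⟨B, hB⟩ := exc3 lam A hlam
  obtain ⟨B', hB'⟩ : ∃ B', B' = max B 3 := ⟨_, rfl⟩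
  have hB'3 : 3 ≤ B' := by rw [hB']; exact le_max_right _ _
  have hBB' : B ≤ B' := by rw [hB']; exact le_max_left _ _
  obtain ⟨n₀, hn₀⟩ := singZ_near η hη0
  filter_upwards [size0, size1 lam κ hlam hκ, size2 lam hlam, size3 δ η ε hδ hη0 hε,
    size4 w η B' (A + ⌈lam⌉₊ + 3) hw hη0 hB'3 (by omega), exc1 w η lam A hw hη0 hlam, exc2 w η A hw hη0,
    hB (B' + 1), exc4 n₀ A, (tendsto_id.atTop_div_const (show (0 : ℝ) < 2 by norm_num)).eventually
      (hcnt (1 / 300) (by norm_num)), row_sum (B' + 1) (A + ⌈lam⌉₊ + 3), eventually_ge_atTop (100 : ℝ)] with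
    l s0 s1 s2 s3 s4 e1 e2 e3 e4 hP0 hrow hl100 hAP
  obtain ⟨a1, a2, a3, a4, a5, a6⟩ := s0
  obtain ⟨b1, b2, b3, b4, b5⟩ := s1
  obtain ⟨c1, c2, c3, c4, c5, c6, c7, c8⟩ := s4
  obtain ⟨P, hP, hPe, hPs, hPB, hPrel⟩ := hP0
  simp only [id] at hP hPe hPrel
  have hl2 : 1 ≤ l / 2 := by linarith
  have hP5 : ∀ p ∈ P, p.Prime ∧ 5 ≤ p := by
    intro p hp
    obtain ⟨h1, h2, h3, h4⟩ := hP p hp
    refine ⟨h1, ?_⟩
    have : (5 : ℝ) ≤ p := c1.trans h2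
    exact_mod_cast this
  obtain ⟨z, hz⟩ : ∃ z, z = ⌈Real.log (NN l) ^ B'⌉₊ := ⟨_, rfl⟩
  rw [← hz] at c5
  have hzB : Real.log (NN l) ^ B' ≤ z := by rw [hz]; exact Nat.le_ceil _
  have hL1 : 1 ≤ Real.log (NN l) := by
    have h0 : 0 ≤ Real.log (NN l) := Real.log_natCast_nonneg _
    by_contra hcon
    push Not at hcon
    have : Real.log (NN l) ^ B' ≤ 1 := pow_le_one₀ h0 hcon.le
    linarith
  have hzB2 : Real.log (NN l) ^ B ≤ z := (pow_le_pow_right₀ hL1 hBB').trans hzB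
  have hz3 : 3 ≤ z := by
    have : (3 : ℝ) ≤ z := c8.trans hzB
    exact_mod_cast this
  have hPz : ∀ p ∈ P, p ≤ z := by
    intro p hp
    obtain ⟨h1, h2, h3, h4⟩ := hP p hp
    have : (p : ℝ) ≤ z := h4.trans (c4.trans hzB)
    exact_mod_cast this
  obtain ⟨q, hq⟩ : ∃ q, q = ∏ p ∈ P, p := ⟨_, rfl⟩
  have hq1 : 1 ≤ q := by
    rw [hq]
    exact prod_pos fun p hp => (hP5 p hp).1.pos
  have hqE : ((6 * q : ℕ) : ℝ) ≤ Real.exp (l / 300) := by
    push_cast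
    rw [← hq] at hPe
    calc (6 : ℝ) * q ≤ 6 * Real.exp (1 / 300 * (l / 2)) := by gcongr
      _ ≤ _ := c3
  have hqE1 : (q : ℝ) ≤ Real.exp (l / 300) := by
    refine le_trans ?_ hqE
    push_cast
    have : (0 : ℝ) ≤ q := Nat.cast_nonneg _
    linarith
  obtain ⟨f1, f2, f3, f4, f5, f6⟩ := s3 q hq1 hqE1
  have hcop : Nat.Coprime 6 q := by
    rw [hq, Nat.coprime_prod_right_iff]
    intro p hp
    rw [Nat.coprime_comm, (hP5 p hp).1.coprime_iff_not_dvd]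
    intro hd
    have h5 := (hP5 p hp).2
    have h6 := Nat.le_of_dvd (by norm_num) hd
    have hpp := (hP5 p hp).1
    interval_cases p
    · omega
    · exact absurd hpp (by norm_num)
  obtain ⟨u₀, hu₀⟩ := inv6 q hcop
  have hq6 : ∀ p, p.Prime → p ∣ 6 * q → p ≤ z := by
    intro p hp hd
    rcases (Nat.Prime.dvd_mul hp).1 hd with h1 | h1
    · have h6 : p ∣ 2 * 3 := h1
      rcases (Nat.Prime.dvd_mul hp).1 h6 with h7 | h7
      · have := Nat.le_of_dvd (by norm_num) h7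
        omega
      · have := Nat.le_of_dvd (by norm_num) h7
        omega
    · rw [hq] at h1
      obtain ⟨p', hp', hd'⟩ := (Prime.dvd_finset_prod_iff hp.prime _).1 h1
      rw [(Nat.prime_dvd_prime_iff_eq hp (hP5 p' hp').1).1 hd']
      exact hPz p' hp'
  obtain ⟨Y, hY⟩ : ∃ Y, Y = ⌊yl lam l⌋₊ := ⟨_, rfl⟩
  obtain ⟨C, hC⟩ : ∃ C, C = (Icc 1 Y).filter (fun c => ∀ p ∈ P, ¬ p ∣ c) := ⟨_, rfl⟩
  have hCY : C ⊆ Icc 1 Y := by rw [hC]; exact filter_subset _ _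
  have hPXX : ∀ p ∈ P, p ≤ XX l := by
    intro p hp
    have k1 : p ≤ q := Nat.le_of_dvd (by omega) (by rw [hq]; exact dvd_prod_of_mem _ hp)
    exact k1.trans f6
  have g1 := e1 P hP5 (fun p hp => (hP p hp).2.1) (fun p hp => (hP p hp).2.2.1.trans b1) hPs (by rw [← hq]; exact f6) C
    (by rw [← hY]; exact hCY)
  have g2 := e2 P hP5 hPs (by rw [← hq]; exact f6)
  have g3 := e3 hAP z hzB2 c5 q hq1 hqE hq6 u₀
  have hrow' := hrow hAP z hz3 c5 P hP5 hPz (by rw [← hq]; exact hqE) (XX l) Y u₀ (by rw [hY]; exact s2) (by rw [← hq]; exact hu₀)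
  rw [← hq] at hrow'
  -- the exceptional distances
  have hsub : (Icc 1 (XX l)).filter (fun a => ¬ (XX l : ℝ) ^ (1 - ε) ≤ cntW lam σ δ l a) ⊆
      ((Icc 1 (XX l)).filter (fun a => η * yl lam l ≤
          |((KK C P a).card : ℝ) - C.card * ∏ p ∈ P, (1 - 1 / (p : ℝ))|) ∪
        (Icc 1 (XX l)).filter (fun a => ⌈η * (l / 2) ^ w⌉₊ ≤ (P.filter (fun p => p ∣ 6 * a + 2)).card)) ∪
      ((Icc 1 (XX l)).filter (fun a => Bad l z (A + ⌈lam⌉₊ + 3) (XX l) ⌊yl lam l⌋₊ u₀ q a) ∪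
        (Icc 1 (XX l)).filter (fun a => 6 * a + 2 < n₀)) := by
    intro a ha
    rw [mem_filter] at ha
    obtain ⟨haI, hab⟩ := ha
    by_contra hcon
    apply hab
    rw [mem_union, mem_union, mem_union, mem_filter, mem_filter, mem_filter, mem_filter] at hcon
    push Not at hcon
    obtain ⟨⟨h1, h2⟩, h3, h4⟩ := hcon
    have h1 := h1 haI
    have h2 := h2 haI
    have h3 := h3 haI
    have h4 := h4 haI
    rw [← hY] at h3
    have haI' := mem_Icc.1 haI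
    have hr := hrow' a haI h3 C hCY (fun c hc => by rw [hC] at hc; exact (mem_filter.1 hc).2)
    -- the singular series
    have hsz := hn₀ (6 * a + 2) h4 (by omega) z (by
      refine le_trans ?_ (c6.trans hzB)
      have k1 : Real.log ((6 * a + 2 : ℕ) : ℝ) ≤ Real.log (NN l) := by
        apply Real.log_le_log
        · exact_mod_cast (by omega : 0 < 6 * a + 2)
        · exact_mod_cast (by omega : 6 * a + 2 ≤ NN l)
      have k0 : 0 ≤ Real.log ((6 * a + 2 : ℕ) : ℝ) := Real.log_natCast_nonneg _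
      gcongr)
    -- the local factors of the modulus
    have hW0 : 0 < (l / 2) ^ w := by linarith
    obtain ⟨p1, p2⟩ := PI_bounds P hP5 ((l / 2) ^ w) hW0 (fun p hp => (hP p hp).2.1) hPs (6 * a + 2)
    have hb : |(∏ p ∈ P, (1 - 1 / (p : ℝ))) / PI P (6 * a + 2) - 1| ≤ η := by
      rw [abs_le]
      constructor
      · have k1 : ((P.filter (fun p => p ∣ 6 * a + 2)).card : ℝ) < η * (l / 2) ^ w := Nat.lt_ceil.1 h2
        have k2 : ((P.filter (fun p => p ∣ 6 * a + 2)).card : ℝ) / (l / 2) ^ w ≤ η := by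
          rw [div_le_iff₀ hW0]
          exact k1.le
        linarith
      · linarith
    have hc := core (P := P) (X := XX l) (Y := Y) (N := NN l) (a := a) (z := z) (u₀ := u₀) (U := 0) (y := yl lam l)
      (S := sing (6 * a + 2)) (w := 0)
      (err := (Y : ℝ) * (3 * (NN l : ℝ) / (((6 * q : ℕ) : ℝ) * Real.log (NN l) ^ (A + ⌈lam⌉₊ + 3)))) hσ hδ hδ1 hη hP5 hPXX
      a1 haI'.2 (by rw [hY]; exact s2) hY b5 (by rw [← hq]; exact hu₀) hPB (hPrel _ b1 b2)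
      (rel_le_two b5 hPB) (by rw [← hC]; exact h1.le) (one_le_sing _) hsz hb (by rw [← hC, ← hq]; exact hr) ?_ ?_ f2 f3
      (by rw [← hq]; exact f4)
    · rw [← hq] at hc
      refine (f5.trans hc).trans (le_of_eq ?_)
      unfold cntW HH
      rw [← hY]
    · rw [← hq]
      have k1 : (Y : ℝ) ≤ yl lam l := by rw [hY]; exact Nat.floor_le (by linarith)
      have hX0 : (0 : ℝ) < XX l := by exact_mod_cast (by omega : 0 < XX l)
      have hqr : (0 : ℝ) < q := by exact_mod_cast hq1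
      have k2 : (NN l : ℝ) / (((6 * q : ℕ) : ℝ) * Real.log (NN l) ^ (A + ⌈lam⌉₊ + 3)) ≤
          (21 * XX l) / (((6 * q : ℕ) : ℝ) * Real.log (NN l) ^ (A + ⌈lam⌉₊ + 3)) := by
        gcongr
      calc (Y : ℝ) * (3 * (NN l : ℝ) / (((6 * q : ℕ) : ℝ) * Real.log (NN l) ^ (A + ⌈lam⌉₊ + 3)))
          = Y * (3 * ((NN l : ℝ) / (((6 * q : ℕ) : ℝ) * Real.log (NN l) ^ (A + ⌈lam⌉₊ + 3)))) := by ring
        _ ≤ yl lam l * (3 * ((21 * XX l) / (((6 * q : ℕ) : ℝ) * Real.log (NN l) ^ (A + ⌈lam⌉₊ + 3)))) := by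
            gcongr
        _ = (63 / Real.log (NN l) ^ (A + ⌈lam⌉₊ + 3)) * ((XX l : ℝ) / q * yl lam l / 6) := by
            push_cast
            field_simp
            norm_num
        _ ≤ (36 * η) * ((XX l : ℝ) / q * yl lam l / 6) := by
            apply mul_le_mul_of_nonneg_right c7 (by positivity)
        _ = _ := by ring
    · rw [← hq]
      have := mul_le_mul_of_nonneg_right f1 (show 0 ≤ yl lam l by linarith)
      calc 4 * yl lam l * √(NN l : ℝ) * Real.log (NN l) ^ 2 = 4 * √(NN l : ℝ) * Real.log (NN l) ^ 2 * yl lam l := by ring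
        _ ≤ _ := this
        _ = _ := by ring
  have hcard := card_le_card hsub
  have hU1 := card_union_le ((Icc 1 (XX l)).filter (fun a => η * yl lam l ≤
          |((KK C P a).card : ℝ) - C.card * ∏ p ∈ P, (1 - 1 / (p : ℝ))|) ∪
        (Icc 1 (XX l)).filter (fun a => ⌈η * (l / 2) ^ w⌉₊ ≤ (P.filter (fun p => p ∣ 6 * a + 2)).card))
      ((Icc 1 (XX l)).filter (fun a => Bad l z (A + ⌈lam⌉₊ + 3) (XX l) ⌊yl lam l⌋₊ u₀ q a) ∪
        (Icc 1 (XX l)).filter (fun a => 6 * a + 2 < n₀))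
  have hU2 := card_union_le ((Icc 1 (XX l)).filter (fun a => η * yl lam l ≤
          |((KK C P a).card : ℝ) - C.card * ∏ p ∈ P, (1 - 1 / (p : ℝ))|))
        ((Icc 1 (XX l)).filter (fun a => ⌈η * (l / 2) ^ w⌉₊ ≤ (P.filter (fun p => p ∣ 6 * a + 2)).card))
  have hU3 := card_union_le ((Icc 1 (XX l)).filter (fun a => Bad l z (A + ⌈lam⌉₊ + 3) (XX l) ⌊yl lam l⌋₊ u₀ q a))
        ((Icc 1 (XX l)).filter (fun a => 6 * a + 2 < n₀))
  have hall : (((Icc 1 (XX l)).filter (fun a => ¬ (XX l : ℝ) ^ (1 - ε) ≤ cntW lam σ δ l a)).card : ℝ) ≤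
      ((((Icc 1 (XX l)).filter (fun a => η * yl lam l ≤
          |((KK C P a).card : ℝ) - C.card * ∏ p ∈ P, (1 - 1 / (p : ℝ))|)).card : ℕ) : ℝ) +
      ((((Icc 1 (XX l)).filter (fun a => ⌈η * (l / 2) ^ w⌉₊ ≤ (P.filter (fun p => p ∣ 6 * a + 2)).card)).card : ℕ) : ℝ) +
      (((((Icc 1 (XX l)).filter (fun a => Bad l z (A + ⌈lam⌉₊ + 3) (XX l) ⌊yl lam l⌋₊ u₀ q a)).card : ℕ) : ℝ) +
      ((((Icc 1 (XX l)).filter (fun a => 6 * a + 2 < n₀)).card : ℕ) : ℝ)) := by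
    exact_mod_cast (hcard.trans hU1).trans (add_le_add hU2 hU3)
  have hfour : (XX l : ℝ) / Real.log (XX l) ^ A = 4 * (XX l / (4 * Real.log (XX l) ^ A)) := by
    have : 0 < Real.log (XX l) := by linarith
    field_simp
  rw [hfour]
  linarith

end Pool.Agent.K9h54.MP
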