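import Mathlib
import Pool.Agent.N610.MS.BON
import Pool.Agent.H373R2.T7.Cnt

set_option autoImplicit false

/-!
# Maier's phenomenon for prime pairs at almost all distances: concentration
-/

namespace Pool.Agent.K9h54.MP

open Finset

/-- the sum over the residues modulo `m n` -/
theorem crt_sum {m n : ℕ} (hm : 0 < m) (hn : 0 < n) (h : m.Coprime n) (f : ℕ → ℕ → ℝ) :
    ∑ a ∈ range (m * n), f (a % m) (a % n) = ∑ j ∈ range m, ∑ i ∈ range n, f j i := by
  rw [← sum_product']
  refine sum_nbij' (fun a => (a % m, a % n)) (fun x => (Nat.chineseRemainder h x.1 x.2 : ℕ)) ?_ ?_ ?_ ?_ ?_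
  · intro a _
    simp only [mem_product, mem_range]
    exact ⟨Nat.mod_lt _ hm, Nat.mod_lt _ hn⟩
  · intro x hx
    simp only [mem_range]
    exact Nat.chineseRemainder_lt_mul h x.1 x.2 hm.ne' hn.ne'
  · intro a ha
    simp only [mem_range] at ha
    have h1 := (Nat.chineseRemainder h (a % m) (a % n)).2
    have h2 : (Nat.chineseRemainder h (a % m) (a % n) : ℕ) ≡ a [MOD m * n] := by
      rw [← Nat.modEq_and_modEq_iff_modEq_mul h]
      exact ⟨h1.1.trans (Nat.mod_modEq a m), h1.2.trans (Nat.mod_modEq a n)⟩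
    exact Nat.ModEq.eq_of_lt_of_lt h2 (Nat.chineseRemainder_lt_mul h _ _ hm.ne' hn.ne') ha
  · intro x hx
    simp only [mem_product, mem_range] at hx
    have h1 := (Nat.chineseRemainder h x.1 x.2).2
    have h2 : (Nat.chineseRemainder h x.1 x.2 : ℕ) % m = x.1 := by
      have := h1.1
      unfold Nat.ModEq at this
      rw [this, Nat.mod_eq_of_lt hx.1]
    have h3 : (Nat.chineseRemainder h x.1 x.2 : ℕ) % n = x.2 := by
      have := h1.2
      unfold Nat.ModEq at this
      rw [this, Nat.mod_eq_of_lt hx.2]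
    exact Prod.ext h2 h3
  · intro a _
    rfl

/-- convexity -/
theorem exp_conv {b x t : ℝ} (hb : 0 < b) (hx : |x| ≤ b) :
    Real.exp (t * x) ≤ Real.cosh (t * b) + x / b * Real.sinh (t * b) := by
  rw [abs_le] at hx
  have h1 := convexOn_exp.2 (Set.mem_univ (t * -b)) (Set.mem_univ (t * b))
    (show 0 ≤ (b - x) / (2 * b) from div_nonneg (by linarith) (by linarith))
    (show 0 ≤ (b + x) / (2 * b) from div_nonneg (by linarith) (by linarith))
    (by field_simp; ring)
  simp only [smul_eq_mul] at h1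
  have e1 : (b - x) / (2 * b) * (t * -b) + (b + x) / (2 * b) * (t * b) = t * x := by
    field_simp
    ring
  rw [e1] at h1
  refine h1.trans (le_of_eq ?_)
  rw [Real.cosh_eq, Real.sinh_eq, mul_neg]
  field_simp
  ring

theorem hoeff {ι : Type} (s : Finset ι) (x : ι → ℝ) (b t : ℝ) (hb : 0 < b) (hx : ∀ i ∈ s, |x i| ≤ b)
    (h0 : ∑ i ∈ s, x i = 0) : ∑ i ∈ s, Real.exp (t * x i) ≤ s.card * Real.exp ((t * b) ^ 2 / 2) := by
  calc ∑ i ∈ s, Real.exp (t * x i) ≤ ∑ i ∈ s, (Real.cosh (t * b) + x i / b * Real.sinh (t * b)) :=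
        sum_le_sum fun i hi => exp_conv hb (hx i hi)
    _ = s.card * Real.cosh (t * b) := by
        rw [sum_add_distrib, ← sum_mul, ← sum_div, h0, zero_div, zero_mul, add_zero, sum_const,
          nsmul_eq_mul]
    _ ≤ _ := mul_le_mul_of_nonneg_left (Real.cosh_le_exp_half_sq _) (Nat.cast_nonneg _)

/-- the surviving columns -/
def KK (C P : Finset ℕ) (a : ℕ) : Finset ℕ := C.filter (fun c => ∀ p ∈ P, ¬ p ∣ 6 * c + 6 * a + 2)

theorem dvd_mod {p q a c : ℕ} (h : p ∣ q) : p ∣ 6 * c + 6 * (a % q) + 2 ↔ p ∣ 6 * c + 6 * a + 2 := by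
  have h1 : 6 * c + 6 * (a % q) + 2 ≡ 6 * c + 6 * a + 2 [MOD p] := by
    have h2 : a % q ≡ a [MOD p] := (Nat.mod_modEq a q).of_dvd h
    exact ((h2.mul_left 6).add_left (6 * c)).add_right 2
  exact h1.dvd_iff dvd_rfl

theorem KK_mod (C P : Finset ℕ) (a q : ℕ) (h : ∀ p ∈ P, p ∣ q) : KK C P (a % q) = KK C P a := by
  unfold KK
  apply filter_congr
  intro c _
  refine forall₂_congr fun p hp => ?_
  rw [dvd_mod (h p hp)]

/-- each column dies for exactly one residue -/
theorem one_res {p : ℕ} (hp : p.Prime) (h5 : 5 ≤ p) (c : ℕ) :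
    ((range p).filter (fun j => p ∣ 6 * c + 6 * j + 2)).card = 1 := by
  have hcop : Nat.Coprime 6 p := by
    rw [Nat.coprime_comm, hp.coprime_iff_not_dvd]
    intro h
    have := Nat.le_of_dvd (by norm_num) h
    interval_cases p
    · omega
    · exact absurd hp (by norm_num)
  obtain ⟨u, hu⟩ : ∃ u : ℕ, 6 * u ≡ 6 * c * (p - 1) + 2 * (p - 1) [MOD p] := by
    obtain ⟨v, hv⟩ := Nat.exists_mul_mod_eq_one_of_coprime hcop hp.one_lt
    refine ⟨v * (6 * c * (p - 1) + 2 * (p - 1)), ?_⟩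
    have h1 : 6 * v ≡ 1 [MOD p] := by
      unfold Nat.ModEq
      rw [hv.2, Nat.mod_eq_of_lt hp.one_lt]
    have h2 := h1.mul_right (6 * c * (p - 1) + 2 * (p - 1))
    rw [one_mul, mul_assoc] at h2
    exact h2
  have key : ∀ j, p ∣ 6 * c + 6 * j + 2 ↔ j ≡ u [MOD p] := by
    intro j
    have h1 : 6 * c + 6 * u + 2 ≡ 0 [MOD p] := by
      have h2 := (hu.add_left (6 * c)).add_right 2
      refine h2.trans ?_
      have h3 : 6 * c + (6 * c * (p - 1) + 2 * (p - 1)) + 2 = p * (6 * c + 2) := by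
        obtain ⟨k, hk⟩ : ∃ k, p = k + 1 := ⟨p - 1, by omega⟩
        rw [hk, Nat.add_sub_cancel]
        ring
      rw [h3]
      exact (Nat.modEq_zero_iff_dvd.2 (dvd_mul_right p _))
    constructor
    · intro h
      have h2 : 6 * c + 6 * j + 2 ≡ 6 * c + 6 * u + 2 [MOD p] :=
        (Nat.modEq_zero_iff_dvd.2 h).trans h1.symm
      have h3 : 6 * j ≡ 6 * u [MOD p] := by
        have h4 := Nat.ModEq.add_right_cancel' 2 h2
        exact Nat.ModEq.add_left_cancel' (6 * c) h4
      exact Nat.ModEq.cancel_left_of_coprime (by rw [Nat.gcd_comm]; exact hcop) h3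
    · intro h
      have h2 : 6 * c + 6 * j + 2 ≡ 6 * c + 6 * u + 2 [MOD p] := ((h.mul_left 6).add_left (6 * c)).add_right 2
      exact Nat.modEq_zero_iff_dvd.1 (h2.trans h1)
  have h1 : (range p).filter (fun j => p ∣ 6 * c + 6 * j + 2) = {u % p} := by
    ext j
    rw [mem_filter, mem_range, mem_singleton, key]
    constructor
    · rintro ⟨h1, h2⟩
      unfold Nat.ModEq at h2
      rw [← h2, Nat.mod_eq_of_lt h1]
    · rintro rfl
      exact ⟨Nat.mod_lt _ hp.pos, Nat.mod_modEq _ _⟩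
  rw [h1, card_singleton]

/-- few columns in a residue class -/
theorem class_card {p Y : ℕ} (hp : p.Prime) (h5 : 5 ≤ p) (S : Finset ℕ) (hS : S ⊆ Icc 1 Y) (j : ℕ) :
    ((S.filter (fun c => p ∣ 6 * c + 6 * j + 2)).card : ℝ) ≤ (Y : ℝ) / p + 1 := by
  rcases (S.filter (fun c => p ∣ 6 * c + 6 * j + 2)).eq_empty_or_nonempty with h | ⟨c0, hc0⟩
  · rw [h, card_empty, Nat.cast_zero]
    positivity
  · rw [mem_filter] at hc0
    have hcop : Nat.Coprime 6 p := by
      rw [Nat.coprime_comm, hp.coprime_iff_not_dvd]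
      intro h
      have := Nat.le_of_dvd (by norm_num) h
      interval_cases p
      · omega
      · exact absurd hp (by norm_num)
    have h1 : S.filter (fun c => p ∣ 6 * c + 6 * j + 2) ⊆ (Icc 1 Y).filter (fun n => n ≡ c0 [MOD p]) := by
      intro c hc
      rw [mem_filter] at hc ⊢
      refine ⟨hS hc.1, ?_⟩
      have h2 : 6 * c + 6 * j + 2 ≡ 6 * c0 + 6 * j + 2 [MOD p] :=
        (Nat.modEq_zero_iff_dvd.2 hc.2).trans (Nat.modEq_zero_iff_dvd.2 hc0.2).symm
      have h3 := Nat.ModEq.add_right_cancel' (6 * j) (Nat.ModEq.add_right_cancel' 2 h2)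
      exact Nat.ModEq.cancel_left_of_coprime (by rw [Nat.gcd_comm]; exact hcop) h3
    have h2 := Pool.Agent.H373R2.T7.count_class Y p c0 hp.one_le
    rw [abs_le] at h2
    have h3 : ((S.filter (fun c => p ∣ 6 * c + 6 * j + 2)).card : ℝ) ≤
        (((Icc 1 Y).filter (fun n => n ≡ c0 [MOD p])).card : ℝ) := by exact_mod_cast card_le_card h1
    linarith [h2.2]

theorem mgf (C : Finset ℕ) (Y : ℕ) (hC : C ⊆ Icc 1 Y) (P : Finset ℕ) : (∀ p ∈ P, p.Prime ∧ 5 ≤ p) → ∀ t : ℝ,
    ∑ a ∈ range (∏ p ∈ P, p), Real.exp (t * ((KK C P a).card - C.card * ∏ p ∈ P, (1 - 1 / (p : ℝ)))) ≤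
      ((∏ p ∈ P, p : ℕ) : ℝ) * Real.exp (t ^ 2 / 2 * ∑ p ∈ P, ((Y : ℝ) / p + 1) ^ 2) := by
  classical
  induction P using Finset.induction_on with
  | empty =>
    intro _ t
    simp [KK]
  | insert p P hp ih =>
    intro hP t
    have hpp := hP p (mem_insert_self _ _)
    have hP' : ∀ p ∈ P, p.Prime ∧ 5 ≤ p := fun p' h => hP p' (mem_insert_of_mem h)
    obtain ⟨q, hq⟩ : ∃ q, q = ∏ p ∈ P, p := ⟨_, rfl⟩
    have hq0 : 0 < q := by
      rw [hq]
      exact prod_pos fun p' h => (hP' p' h).1.pos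
    have hcop : p.Coprime q := by
      rw [hq, Nat.coprime_prod_right_iff]
      intro p' hp'
      rw [Nat.coprime_primes hpp.1 (hP' p' hp').1]
      rintro rfl
      exact hp hp'
    have hdq : ∀ p' ∈ P, p' ∣ q := fun p' h => by rw [hq]; exact dvd_prod_of_mem _ h
    have hp0 : (0 : ℝ) < p := by exact_mod_cast hpp.1.pos
    have hp5 : (5 : ℝ) ≤ p := by exact_mod_cast hpp.2
    rw [prod_insert hp, prod_insert hp, sum_insert hp, ← hq]
    set B : ℝ := ∏ p ∈ P, (1 - 1 / (p : ℝ)) with hB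
    set b : ℝ := (Y : ℝ) / p + 1 with hb
    have hb0 : 0 < b := by positivity
    -- the structure
    have e1 : ∀ a : ℕ, ((KK C (insert p P) a).card : ℝ) =
        ((((KK C P (a % q)).filter (fun c => ¬ p ∣ 6 * c + 6 * (a % p) + 2)).card : ℕ) : ℝ) := by
      intro a
      rw [KK_mod C P a q hdq]
      congr 2
      unfold KK
      rw [filter_filter]
      apply filter_congr
      intro c _
      rw [dvd_mod (dvd_refl p)]
      simp only [mem_insert, forall_eq_or_imp]
      tauto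
    have e2 : ∑ a ∈ range (p * q), Real.exp (t * ((KK C (insert p P) a).card - C.card * ((1 - 1 / (p : ℝ)) * B))) =
        ∑ j ∈ range p, ∑ i ∈ range q, Real.exp (t * (((((KK C P i).filter
          (fun c => ¬ p ∣ 6 * c + 6 * j + 2)).card : ℕ) : ℝ) - C.card * ((1 - 1 / (p : ℝ)) * B))) := by
      rw [← crt_sum hpp.1.pos hq0 hcop (fun j i => Real.exp (t * (((((KK C P i).filter
          (fun c => ¬ p ∣ 6 * c + 6 * j + 2)).card : ℕ) : ℝ) - C.card * ((1 - 1 / (p : ℝ)) * B))))]
      apply sum_congr rfl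
      intro a _
      rw [e1]
    rw [e2, sum_comm]
    have e3 : ∀ i ∈ range q, ∑ j ∈ range p, Real.exp (t * (((((KK C P i).filter
          (fun c => ¬ p ∣ 6 * c + 6 * j + 2)).card : ℕ) : ℝ) - C.card * ((1 - 1 / (p : ℝ)) * B))) ≤
        Real.exp ((t * (1 - 1 / (p : ℝ))) * ((KK C P i).card - C.card * B)) *
          (p * Real.exp ((t * b) ^ 2 / 2)) := by
      intro i _
      set S := KK C P i with hS
      have hSY : S ⊆ Icc 1 Y := (filter_subset _ _).trans hC
      have f1 : ∀ j : ℕ, (((S.filter (fun c => ¬ p ∣ 6 * c + 6 * j + 2)).card : ℕ) : ℝ) =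
          S.card - (((S.filter (fun c => p ∣ 6 * c + 6 * j + 2)).card : ℕ) : ℝ) := by
        intro j
        have := card_filter_add_card_filter_not (s := S) (fun c => p ∣ 6 * c + 6 * j + 2)
        rw [← this]
        push_cast
        ring
      have f2 : ∑ j ∈ range p, (((S.filter (fun c => p ∣ 6 * c + 6 * j + 2)).card : ℕ) : ℝ) = S.card := by
        have g1 : ∑ j ∈ range p, (S.filter (fun c => p ∣ 6 * c + 6 * j + 2)).card = S.card := by
          simp only [card_filter]
          rw [sum_comm]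
          have g2 : ∀ c ∈ S, ∑ j ∈ range p, (if p ∣ 6 * c + 6 * j + 2 then 1 else 0) = 1 := by
            intro c _
            rw [← card_filter]
            exact one_res hpp.1 hpp.2 c
          rw [sum_congr rfl g2, sum_const, smul_eq_mul, mul_one]
        exact_mod_cast g1
      have f3 : ∀ j ∈ range p, |(S.card : ℝ) / p - (((S.filter (fun c => p ∣ 6 * c + 6 * j + 2)).card : ℕ) : ℝ)| ≤ b := by
        intro j _
        have g1 := class_card hpp.1 hpp.2 S hSY j
        have g2 : (S.card : ℝ) / p ≤ b := by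
          have g3 : (S.card : ℝ) ≤ Y := by
            have := card_le_card hSY
            rw [Nat.card_Icc, Nat.add_sub_cancel] at this
            exact_mod_cast this
          rw [hb]
          have : (S.card : ℝ) / p ≤ Y / p := by gcongr
          linarith
        have g3 : (0 : ℝ) ≤ (S.card : ℝ) / p := by positivity
        have g4 : (0 : ℝ) ≤ (((S.filter (fun c => p ∣ 6 * c + 6 * j + 2)).card : ℕ) : ℝ) := Nat.cast_nonneg _
        rw [abs_le]
        constructor <;> linarith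
      have f4 : ∑ j ∈ range p, ((S.card : ℝ) / p - (((S.filter (fun c => p ∣ 6 * c + 6 * j + 2)).card : ℕ) : ℝ)) = 0 := by
        rw [sum_sub_distrib, f2, sum_const, card_range, nsmul_eq_mul]
        field_simp
        ring
      have f5 := hoeff (range p) _ b t hb0 f3 f4
      rw [card_range] at f5
      have f6 : ∀ j ∈ range p, Real.exp (t * (((((S.filter
          (fun c => ¬ p ∣ 6 * c + 6 * j + 2)).card : ℕ) : ℝ)) - C.card * ((1 - 1 / (p : ℝ)) * B))) =
          Real.exp ((t * (1 - 1 / (p : ℝ))) * (S.card - C.card * B)) *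
          Real.exp (t * ((S.card : ℝ) / p - (((S.filter (fun c => p ∣ 6 * c + 6 * j + 2)).card : ℕ) : ℝ))) := by
        intro j _
        rw [f1, ← Real.exp_add]
        congr 1
        field_simp
        ring
      rw [sum_congr rfl f6, ← mul_sum]
      exact mul_le_mul_of_nonneg_left f5 (Real.exp_pos _).le
    refine (sum_le_sum e3).trans ?_
    rw [← sum_mul]
    have e4 := ih hP' (t * (1 - 1 / (p : ℝ)))
    rw [← hq] at e4
    have e5 : (t * (1 - 1 / (p : ℝ))) ^ 2 ≤ t ^ 2 := by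
      rw [mul_pow]
      have g1 : 0 ≤ 1 - 1 / (p : ℝ) := by
        rw [sub_nonneg, div_le_one hp0]
        linarith
      have g2 : 1 - 1 / (p : ℝ) ≤ 1 := by
        have : 0 < 1 / (p : ℝ) := by positivity
        linarith
      have g3 : (1 - 1 / (p : ℝ)) ^ 2 ≤ 1 := pow_le_one₀ g1 g2
      nlinarith [sq_nonneg t]
    set Sg : ℝ := ∑ p ∈ P, ((Y : ℝ) / p + 1) ^ 2 with hSg
    have hSg0 : 0 ≤ Sg := sum_nonneg fun _ _ => sq_nonneg _
    calc (∑ i ∈ range q, Real.exp ((t * (1 - 1 / (p : ℝ))) * ((KK C P i).card - C.card * B))) *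
          (p * Real.exp ((t * b) ^ 2 / 2))
        ≤ ((q : ℝ) * Real.exp ((t * (1 - 1 / (p : ℝ))) ^ 2 / 2 * Sg)) * (p * Real.exp ((t * b) ^ 2 / 2)) :=
          mul_le_mul_of_nonneg_right e4 (by positivity)
      _ ≤ ((q : ℝ) * Real.exp (t ^ 2 / 2 * Sg)) * (p * Real.exp ((t * b) ^ 2 / 2)) := by gcongr
      _ = ((p * q : ℕ) : ℝ) * Real.exp (t ^ 2 / 2 * (b ^ 2 + Sg)) := by
          have : t ^ 2 / 2 * (b ^ 2 + Sg) = t ^ 2 / 2 * Sg + (t * b) ^ 2 / 2 := by ring
          rw [this, Real.exp_add]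
          push_cast
          ring

/-- the tail -/
theorem tail (C : Finset ℕ) (Y : ℕ) (hC : C ⊆ Icc 1 Y) (P : Finset ℕ) (hP : ∀ p ∈ P, p.Prime ∧ 5 ≤ p) (s D : ℝ)
    (hs : 0 < s) :
    (((range (∏ p ∈ P, p)).filter (fun a => D ≤ |((KK C P a).card : ℝ) - C.card * ∏ p ∈ P, (1 - 1 / (p : ℝ))|)).card : ℝ) ≤
      2 * ((∏ p ∈ P, p : ℕ) : ℝ) * Real.exp (s ^ 2 / 2 * ∑ p ∈ P, ((Y : ℝ) / p + 1) ^ 2 - s * D) := by
  classical
  have h1 := mgf C Y hC P hP s
  have h2 := mgf C Y hC P hP (-s)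
  rw [neg_sq] at h2
  set q := ∏ p ∈ P, p with hq
  set B : ℝ := ∏ p ∈ P, (1 - 1 / (p : ℝ)) with hB
  set Sg : ℝ := ∑ p ∈ P, ((Y : ℝ) / p + 1) ^ 2 with hSg
  set F := (range q).filter (fun a => D ≤ |((KK C P a).card : ℝ) - C.card * B|) with hF
  have h3 : (F.card : ℝ) * Real.exp (s * D) ≤ ∑ a ∈ range q, (Real.exp (s * ((KK C P a).card - C.card * B)) +
      Real.exp (-s * ((KK C P a).card - C.card * B))) := by
    calc (F.card : ℝ) * Real.exp (s * D) = ∑ a ∈ F, Real.exp (s * D) := by rw [sum_const, nsmul_eq_mul]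
      _ ≤ ∑ a ∈ F, (Real.exp (s * ((KK C P a).card - C.card * B)) +
            Real.exp (-s * ((KK C P a).card - C.card * B))) := by
          apply sum_le_sum
          intro a ha
          rw [hF, mem_filter] at ha
          rcases le_abs.1 ha.2 with h | h
          · have : Real.exp (s * D) ≤ Real.exp (s * ((KK C P a).card - C.card * B)) := by
              apply Real.exp_le_exp.2
              exact mul_le_mul_of_nonneg_left h hs.le
            linarith [Real.exp_pos (-s * ((KK C P a).card - C.card * B))]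
          · have : Real.exp (s * D) ≤ Real.exp (-s * ((KK C P a).card - C.card * B)) := by
              apply Real.exp_le_exp.2
              have := mul_le_mul_of_nonneg_left h hs.le
              linarith
            linarith [Real.exp_pos (s * ((KK C P a).card - C.card * B))]
      _ ≤ _ := by
          apply sum_le_sum_of_subset_of_nonneg (filter_subset _ _)
          intro _ _ _
          positivity
  rw [sum_add_distrib] at h3
  have h4 : (F.card : ℝ) * Real.exp (s * D) ≤ 2 * (q : ℝ) * Real.exp (s ^ 2 / 2 * Sg) := by linarith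
  rw [Real.exp_sub, ← mul_div_assoc, le_div_iff₀ (Real.exp_pos _)]
  exact h4

/-- periodic properties -/
theorem periodic_card {q X : ℕ} (hq : 0 < q) (R : ℕ → Prop) [DecidablePred R] (hR : ∀ a, R (a % q) ↔ R a) :
    (((Icc 1 X).filter R).card : ℝ) ≤ ((X : ℝ) / q + 1) * ((range q).filter R).card := by
  have h1 : ((Icc 1 X).filter R).card ≤ (range (X / q + 1) ×ˢ (range q).filter R).card := by
    apply card_le_card_of_injOn (fun a => (a / q, a % q))
    · intro a ha
      simp only [coe_filter, mem_Icc, Set.mem_ofPred_eq] at ha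
      simp only [coe_product, Set.mem_prod, coe_range, Set.mem_Iio, coe_filter, mem_range, Set.mem_ofPred_eq]
      refine ⟨?_, Nat.mod_lt _ hq, (hR a).2 ha.2⟩
      have := Nat.div_le_div_right (c := q) ha.1.2
      omega
    · intro a _ b _ hab
      simp only [Prod.mk.injEq] at hab
      rw [← Nat.div_add_mod a q, ← Nat.div_add_mod b q, hab.1, hab.2]
  rw [card_product, card_range] at h1
  have h2 : (((Icc 1 X).filter R).card : ℝ) ≤ ((X / q + 1 : ℕ) : ℝ) * ((range q).filter R).card := by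
    exact_mod_cast h1
  refine h2.trans ?_
  apply mul_le_mul_of_nonneg_right _ (Nat.cast_nonneg _)
  push_cast
  have := @Nat.cast_div_le ℝ _ _ _ X q
  linarith

/-- few numbers have many prime divisors in `P` -/
theorem few_div (P : Finset ℕ) (hP : ∀ p ∈ P, p.Prime ∧ 5 ≤ p) (hs : ∑ p ∈ P, 1 / (p : ℝ) ≤ 1) (X : ℕ)
    (hX : ∏ p ∈ P, p ≤ X) (j : ℕ) :
    (((Icc 1 X).filter (fun a => j ≤ (P.filter (fun p => p ∣ 6 * a + 2)).card)).card : ℝ) ≤ 2 * X / j.factorial := by
  have h1 : ((Icc 1 X).filter (fun a => j ≤ (P.filter (fun p => p ∣ 6 * a + 2)).card)) ⊆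
      (P.powersetCard j).biUnion (fun T => (Icc 1 X).filter (fun a => ∀ p ∈ T, p ∣ 6 * a + 2)) := by
    intro a ha
    rw [mem_filter] at ha
    obtain ⟨T, hT1, hT2⟩ := exists_subset_card_eq ha.2
    rw [mem_biUnion]
    refine ⟨T, mem_powersetCard.2 ⟨hT1.trans (filter_subset _ _), hT2⟩, ?_⟩
    rw [mem_filter]
    refine ⟨ha.1, fun p hp => ?_⟩
    exact (mem_filter.1 (hT1 hp)).2
  have h2 : ∀ T ∈ P.powersetCard j, (((Icc 1 X).filter (fun a => ∀ p ∈ T, p ∣ 6 * a + 2)).card : ℝ) ≤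
      2 * X * ∏ p ∈ T, (1 / (p : ℝ)) := by
    intro T hT
    obtain ⟨hT1, -⟩ := mem_powersetCard.1 hT
    have g := Pool.Agent.H373R2.T7.count_sys (fun p a => p ∣ 6 * a + 2) X T (fun p hp => (hP p (hT1 hp)).1) 1 le_rfl
      (fun p hp => by
        intro hd
        exact (hP p (hT1 hp)).1.one_lt.ne' (Nat.dvd_one.1 hd)) 0
    have g1 : ∀ p ∈ T, (((range p).filter (fun a => p ∣ 6 * a + 2)).card : ℝ) = 1 := by
      intro p hp
      have := one_res (hP p (hT1 hp)).1 (hP p (hT1 hp)).2 0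
      simp only [mul_zero, zero_add] at this
      exact_mod_cast this
    have g2 : (Icc 1 X).filter (fun n => n ≡ 0 [MOD 1] ∧ ∀ p ∈ T, p ∣ 6 * (n % p) + 2) =
        (Icc 1 X).filter (fun a => ∀ p ∈ T, p ∣ 6 * a + 2) := by
      apply filter_congr
      intro n _
      constructor
      · rintro ⟨-, h⟩ p hp
        have := h p hp
        have e := @dvd_mod p p n 0 dvd_rfl
        simp only [mul_zero, zero_add] at e
        exact e.1 this
      · intro h
        refine ⟨Nat.modEq_one, fun p hp => ?_⟩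
        have e := @dvd_mod p p n 0 dvd_rfl
        simp only [mul_zero, zero_add] at e
        exact e.2 (h p hp)
    rw [g2, prod_congr rfl g1, prod_const_one] at g
    have g3 : ∏ p ∈ T, ((((range p).filter (fun a => p ∣ 6 * a + 2)).card : ℝ) / p) = ∏ p ∈ T, (1 / (p : ℝ)) :=
      prod_congr rfl fun p hp => by rw [g1 p hp]
    rw [g3, Nat.cast_one, div_one, abs_le] at g
    have g4 : (1 : ℝ) ≤ X * ∏ p ∈ T, (1 / (p : ℝ)) := by
      have g5 : ∏ p ∈ T, (1 / (p : ℝ)) = 1 / ((∏ p ∈ T, p : ℕ) : ℝ) := by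
        rw [prod_div_distrib, prod_const_one]
        push_cast
        rfl
      have g6 : ∏ p ∈ T, p ≤ X := by
        refine le_trans ?_ hX
        apply prod_le_prod_of_subset_of_one_le' hT1
        intro p hp _
        exact (hP p hp).1.one_le
      have g7 : (0 : ℝ) < ((∏ p ∈ T, p : ℕ) : ℝ) := by
        exact_mod_cast prod_pos fun p hp => (hP p (hT1 hp)).1.pos
      rw [g5, mul_one_div, le_div_iff₀ g7, one_mul]
      exact_mod_cast g6
    linarith [g.2]
  have h3 := (Pool.Agent.N610.MS.t_BON P (fun p => 1 / (p : ℝ)) (fun p hp => by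
    have : (1 : ℝ) ≤ p := by exact_mod_cast (hP p hp).1.one_le
    exact ⟨by positivity, (div_le_one (by linarith)).2 this⟩)).2.1 j
  unfold Pool.Agent.N610.MS.e at h3
  have h4 : (∑ p ∈ P, 1 / (p : ℝ)) ^ j ≤ 1 := pow_le_one₀ (sum_nonneg fun _ _ => by positivity) hs
  calc (((Icc 1 X).filter (fun a => j ≤ (P.filter (fun p => p ∣ 6 * a + 2)).card)).card : ℝ)
      ≤ ((∑ T ∈ P.powersetCard j, ((Icc 1 X).filter (fun a => ∀ p ∈ T, p ∣ 6 * a + 2)).card : ℕ) : ℝ) := by
        exact_mod_cast (card_le_card h1).trans card_biUnion_le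
    _ = ∑ T ∈ P.powersetCard j, (((Icc 1 X).filter (fun a => ∀ p ∈ T, p ∣ 6 * a + 2)).card : ℝ) := by push_cast; rfl
    _ ≤ ∑ T ∈ P.powersetCard j, 2 * X * ∏ p ∈ T, (1 / (p : ℝ)) := sum_le_sum h2
    _ = 2 * X * ∑ T ∈ P.powersetCard j, ∏ p ∈ T, (1 / (p : ℝ)) := by rw [mul_sum]
    _ ≤ 2 * X * ((∑ p ∈ P, 1 / (p : ℝ)) ^ j / j.factorial) := by gcongr
    _ ≤ 2 * X * (1 / j.factorial) := by gcongr
    _ = _ := by ring

end Pool.Agent.K9h54.MP
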