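import Pool.Agent.K9h54.MP.Star
import Pool.Agent.Y697.GJ.LiftC
import Pool.Agent.Y872.GJ.Pars

set_option autoImplicit false

/-!
# Maier's phenomenon for prime pairs at almost all distances: correlations with one class fixed
-/

namespace Pool.Agent.K9h54.MP

open Finset Filter Topology
open Pool.Agent.H807R2.Dav (ee norm_ee)
open Pool.Agent.Y883.GJ

/-- correlations of a sequence in a residue class with a sequence small in mean square over the classes -/
theorem circ {q N : ℕ} [NeZero q] (hN : 1 ≤ N) (F G : ℕ → ℂ) (s : ZMod q)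
    (hG : ∀ n ∈ Icc 1 N, (n : ZMod q) ≠ s → G n = 0) (M : ℝ)
    (hM : ∀ β : ℝ, ∑ b : ZMod q, ‖cl q N F β b‖ ^ 2 ≤ M) :
    ∑ k ∈ Icc (-(N : ℤ)) N, ‖∑ b ∈ Icc 1 N, ∑ c ∈ Icc 1 N,
      if (b : ℤ) - c = k then G b * (starRingEnd ℂ) (F c) else 0‖ ^ 2 ≤ M * ∑ n ∈ Icc 1 N, ‖G n‖ ^ 2 := by
  classical
  have hD0 : (0 : ℝ) < ((2 * N + 1 : ℕ) : ℝ) := by positivity
  have h1 := Pool.Agent.Y697.GJ.parsC q N G F hN
  have h2 := (Pool.Agent.Y872.GJ.pars q N G G hN).2
  have hcl : ∀ (β : ℝ) (l : ZMod q), l ≠ s → cl q N G β l = 0 := by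
    intro β l hl
    unfold cl
    apply sum_eq_zero
    intro n hn
    rw [mem_filter] at hn
    rw [hG n hn.1 (by rw [hn.2]; exact hl), zero_mul]
  have h3 : ∑ k ∈ Icc (-(N : ℤ)) N, ‖∑ b ∈ Icc 1 N, ∑ c ∈ Icc 1 N,
      if (b : ℤ) - c = k then G b * (starRingEnd ℂ) (F c) else 0‖ ^ 2 =
      ∑ a : ZMod q, ∑ k ∈ (Icc (-(N : ℤ)) N).filter (fun k : ℤ => (k : ZMod q) = a),
        ‖∑ b ∈ Icc 1 N, ∑ c ∈ Icc 1 N, if (b : ℤ) - c = k then G b * (starRingEnd ℂ) (F c) else 0‖ ^ 2 :=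
    (sum_fiberwise (Icc (-(N : ℤ)) N) (fun k : ℤ => (k : ZMod q)) _).symm
  have h4 : ((2 * N + 1 : ℕ) : ℝ) * ∑ k ∈ Icc (-(N : ℤ)) N, ‖∑ b ∈ Icc 1 N, ∑ c ∈ Icc 1 N,
      if (b : ℤ) - c = k then G b * (starRingEnd ℂ) (F c) else 0‖ ^ 2 ≤
      ((2 * N + 1 : ℕ) : ℝ) * (M * ∑ n ∈ Icc 1 N, ‖G n‖ ^ 2) := by
    rw [h3, mul_sum, sum_congr rfl fun a _ => h1 a, sum_comm]
    have h5 : ∀ t ∈ range (2 * N + 1), ∑ a : ZMod q, ‖∑ l : ZMod q, cl q N G ((t : ℝ) / (2 * N + 1 : ℕ)) l *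
        (starRingEnd ℂ) (cl q N F ((t : ℝ) / (2 * N + 1 : ℕ)) (l - a))‖ ^ 2 ≤
        M * ∑ l : ZMod q, ‖cl q N G ((t : ℝ) / (2 * N + 1 : ℕ)) l‖ ^ 2 := by
      intro t _
      set β : ℝ := (t : ℝ) / (2 * N + 1 : ℕ) with hβ
      have h6 : ∀ a : ZMod q, ‖∑ l : ZMod q, cl q N G β l * (starRingEnd ℂ) (cl q N F β (l - a))‖ ^ 2 =
          ‖cl q N G β s‖ ^ 2 * ‖cl q N F β (s - a)‖ ^ 2 := by
        intro a
        rw [sum_eq_single s, norm_mul, RCLike.norm_conj, mul_pow]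
        · intro l _ hl
          rw [hcl β l hl, zero_mul]
        · intro hs
          exact absurd (mem_univ _) hs
      rw [sum_congr rfl fun a _ => h6 a, ← mul_sum]
      have h7 : ∑ a : ZMod q, ‖cl q N F β (s - a)‖ ^ 2 = ∑ b : ZMod q, ‖cl q N F β b‖ ^ 2 :=
        Fintype.sum_equiv (Equiv.subLeft s) _ _ fun l => rfl
      have h8 : ‖cl q N G β s‖ ^ 2 ≤ ∑ l : ZMod q, ‖cl q N G β l‖ ^ 2 :=
        single_le_sum (f := fun l => ‖cl q N G β l‖ ^ 2) (fun _ _ => by positivity) (mem_univ s)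
      have hM0 : 0 ≤ M := (sum_nonneg fun _ _ => by positivity).trans (hM β)
      rw [h7]
      calc ‖cl q N G β s‖ ^ 2 * ∑ b : ZMod q, ‖cl q N F β b‖ ^ 2 ≤ ‖cl q N G β s‖ ^ 2 * M := by
            apply mul_le_mul_of_nonneg_left (hM β) (by positivity)
        _ ≤ (∑ l : ZMod q, ‖cl q N G β l‖ ^ 2) * M := mul_le_mul_of_nonneg_right h8 hM0
        _ = _ := mul_comm _ _
    refine (sum_le_sum h5).trans ?_
    rw [← mul_sum, h2]
    exact le_of_eq (by ring)
  exact le_of_mul_le_mul_left h4 hD0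

/-- few distances are exceptional for a class -/
theorem exc (U : ℕ) : ∃ B : ℕ, ∀ E : ℕ, ∀ᶠ l : ℝ in atTop, APl l → ∀ z : ℕ, Real.log (NN l) ^ B ≤ z →
    (z : ℝ) ≤ Real.log (NN l) ^ E → ∀ (q : ℕ) [NeZero q], (q : ℝ) ≤ Real.exp (l / 300) →
      (∀ p, p.Prime → p ∣ q → p ≤ z) → ∀ s M₁ M₂ X : ℕ, M₂ + 6 * X + 2 ≤ NN l →
        (((Icc 1 X).filter (fun a => (NN l : ℝ) / (q * Real.log (NN l) ^ U) <
          |∑ m ∈ (Ioc M₁ M₂).filter (fun m => m ≡ s [MOD q]),
            ArithmeticFunction.vonMangoldt m * GR z (m + (6 * a + 2))|)).card : ℝ) ≤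
          (NN l : ℝ) / Real.log (NN l) ^ U := by
  obtain ⟨B, hB⟩ := star (3 * U + 3)
  refine ⟨B, fun E => ?_⟩
  filter_upwards [NN_bd, hB E, eventually_ge_atTop (10 : ℝ)] with l h1 h2 h3 hAP z hz1 hz2 q _ hqE hqz s M₁ M₂ X hX
  obtain ⟨b1, b2, b3, b4⟩ := h1
  set N := NN l with hN
  set L := Real.log (N : ℝ) with hL
  have hN0 : (0 : ℝ) < N := by linarith [Real.exp_pos (l ^ 40 / 2)]
  have hN1 : 1 ≤ N := by exact_mod_cast hN0
  have hl40 : l ≤ l ^ 40 := le_self_pow₀ (by linarith) (by norm_num)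
  have hL2 : 2 ≤ L := by
    have : l * l ^ 39 = l ^ 40 := by ring
    have h4 : (10 : ℝ) ≤ l ^ 39 := h3.trans (le_self_pow₀ (by linarith) (by norm_num))
    nlinarith
  have hL0 : 0 < L := by linarith
  have hL1 : 1 ≤ L := by linarith
  have hq0 : (0 : ℝ) < q := by exact_mod_cast NeZero.pos q
  have hqN : (q : ℝ) ≤ N := by
    have e1 : Real.exp L = N := Real.exp_log hN0
    rw [← e1]
    refine hqE.trans (Real.exp_le_exp.2 ?_)
    have : l * l ^ 39 = l ^ 40 := by ring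
    have h4 : (10 : ℝ) ≤ l ^ 39 := h3.trans (le_self_pow₀ (by linarith) (by norm_num))
    nlinarith
  set G : ℕ → ℂ := fun m => if M₁ < m ∧ m ≤ M₂ ∧ m ≡ s [MOD q] then ((ArithmeticFunction.vonMangoldt m : ℝ) : ℂ) else 0 with hG
  have hGs : ∀ n ∈ Icc 1 N, (n : ZMod q) ≠ (s : ZMod q) → G n = 0 := by
    intro n _ hn
    rw [hG]
    simp only
    rw [if_neg]
    rintro ⟨-, -, h⟩
    exact hn ((ZMod.natCast_eq_natCast_iff _ _ _).2 h)
  have key := circ hN1 (GG z) G (s : ZMod q) hGs _ (h2 hAP z hz1 hz2 q hqE hqz)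
  -- the mass of `G`
  have hmass : ∑ n ∈ Icc 1 N, ‖G n‖ ^ 2 ≤ 2 * (N / q) * L ^ 2 := by
    have e1 : ∑ n ∈ Icc 1 N, ‖G n‖ ^ 2 ≤ ∑ n ∈ (Icc 1 N).filter (fun n => n ≡ s [MOD q]), L ^ 2 := by
      rw [sum_filter]
      apply sum_le_sum
      intro n hn
      rw [mem_Icc] at hn
      rw [hG]
      simp only
      split_ifs with g1 g2 g2
      · rw [Complex.norm_real, Real.norm_of_nonneg ArithmeticFunction.vonMangoldt_nonneg]
        have g3 : ArithmeticFunction.vonMangoldt n ≤ L := by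
          refine ArithmeticFunction.vonMangoldt_le_log.trans ?_
          exact Real.log_le_log (by exact_mod_cast hn.1) (by exact_mod_cast hn.2)
        have g4 : (0 : ℝ) ≤ ArithmeticFunction.vonMangoldt n := ArithmeticFunction.vonMangoldt_nonneg
        gcongr
      · exact absurd g1.2.2 g2
      · rw [norm_zero, zero_pow (by norm_num)]; positivity
      · rw [norm_zero]; norm_num
    refine e1.trans ?_
    rw [sum_const, nsmul_eq_mul]
    apply mul_le_mul_of_nonneg_right _ (by positivity)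
    have e2 := Pool.Agent.H373R2.T7.count_class N q s (NeZero.pos q)
    rw [abs_le] at e2
    have e3 : (1 : ℝ) ≤ N / q := by
      rw [le_div_iff₀ hq0, one_mul]
      exact hqN
    linarith [e2.2]
  -- the correlations
  set V := N / (q * L ^ U) with hV
  have hV0 : 0 < V := by rw [hV]; positivity
  set S := (Icc 1 X).filter (fun a => V < |∑ m ∈ (Ioc M₁ M₂).filter (fun m => m ≡ s [MOD q]),
            ArithmeticFunction.vonMangoldt m * GR z (m + (6 * a + 2))|) with hS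
  have hcor : ∀ a ∈ Icc 1 X, ‖∑ b ∈ Icc 1 N, ∑ c ∈ Icc 1 N,
      if (b : ℤ) - c = -((6 * a + 2 : ℕ) : ℤ) then G b * (starRingEnd ℂ) (GG z c) else 0‖ =
      |∑ m ∈ (Ioc M₁ M₂).filter (fun m => m ≡ s [MOD q]),
            ArithmeticFunction.vonMangoldt m * GR z (m + (6 * a + 2))| := by
    intro a ha
    rw [mem_Icc] at ha
    have e1 : ∀ b ∈ Icc 1 N, ∑ c ∈ Icc 1 N,
        (if (b : ℤ) - c = -((6 * a + 2 : ℕ) : ℤ) then G b * (starRingEnd ℂ) (GG z c) else 0) =
        if M₁ < b ∧ b ≤ M₂ ∧ b ≡ s [MOD q] then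
          ((ArithmeticFunction.vonMangoldt b * GR z (b + (6 * a + 2)) : ℝ) : ℂ) else 0 := by
      intro b hb
      rw [mem_Icc] at hb
      by_cases hc : M₁ < b ∧ b ≤ M₂ ∧ b ≡ s [MOD q]
      · rw [if_pos hc, sum_eq_single (b + (6 * a + 2))]
        · rw [if_pos (by push_cast; ring), hG]
          simp only
          rw [if_pos hc]
          unfold GG
          rw [Complex.conj_ofReal]
          push_cast
          ring
        · intro c _ hne
          rw [if_neg]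
          intro h
          apply hne
          push_cast at h
          omega
        · intro h
          exfalso
          apply h
          rw [mem_Icc]
          omega
      · rw [if_neg hc]
        apply sum_eq_zero
        intro c _
        rw [hG]
        simp only
        rw [if_neg hc, zero_mul, ite_self]
    rw [sum_congr rfl e1, ← sum_filter]
    have e2 : (Icc 1 N).filter (fun b => M₁ < b ∧ b ≤ M₂ ∧ b ≡ s [MOD q]) =
        (Ioc M₁ M₂).filter (fun m => m ≡ s [MOD q]) := by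
      ext b
      rw [mem_filter, mem_filter, mem_Icc, mem_Ioc]
      constructor
      · rintro ⟨-, g2, g3, g4⟩
        exact ⟨⟨g2, g3⟩, g4⟩
      · rintro ⟨⟨g2, g3⟩, g4⟩
        exact ⟨⟨by omega, by omega⟩, g2, g3, g4⟩
    rw [e2, ← Complex.ofReal_sum, Complex.norm_real, Real.norm_eq_abs]
  have hlow : (S.card : ℝ) * V ^ 2 ≤ ∑ k ∈ Icc (-(N : ℤ)) N, ‖∑ b ∈ Icc 1 N, ∑ c ∈ Icc 1 N,
      if (b : ℤ) - c = k then G b * (starRingEnd ℂ) (GG z c) else 0‖ ^ 2 := by
    calc (S.card : ℝ) * V ^ 2 = ∑ a ∈ S, V ^ 2 := by rw [sum_const, nsmul_eq_mul]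
      _ ≤ ∑ a ∈ S, ‖∑ b ∈ Icc 1 N, ∑ c ∈ Icc 1 N,
            if (b : ℤ) - c = -((6 * a + 2 : ℕ) : ℤ) then G b * (starRingEnd ℂ) (GG z c) else 0‖ ^ 2 := by
          apply sum_le_sum
          intro a ha
          rw [hS, mem_filter] at ha
          rw [hcor a ha.1]
          have := ha.2.le
          gcongr
      _ = ∑ k ∈ S.image (fun a => -((6 * a + 2 : ℕ) : ℤ)), ‖∑ b ∈ Icc 1 N, ∑ c ∈ Icc 1 N,
            if (b : ℤ) - c = k then G b * (starRingEnd ℂ) (GG z c) else 0‖ ^ 2 := by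
          rw [sum_image]
          intro a _ a' _ h
          simp only [neg_inj, Nat.cast_inj] at h
          omega
      _ ≤ _ := by
          apply sum_le_sum_of_subset_of_nonneg
          · intro k hk
            rw [mem_image] at hk
            obtain ⟨a, ha, rfl⟩ := hk
            rw [hS, mem_filter, mem_Icc] at ha
            rw [mem_Icc]
            push_cast
            omega
          · intro _ _ _
            positivity
  have hfin : (S.card : ℝ) * V ^ 2 ≤ N ^ 2 / (q * L ^ (3 * U + 3)) * (2 * (N / q) * L ^ 2) := by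
    refine hlow.trans (key.trans ?_)
    exact mul_le_mul_of_nonneg_left hmass (by positivity)
  have e1 : (N : ℝ) ^ 2 / (q * L ^ (3 * U + 3)) * (2 * (N / q) * L ^ 2) = N / L ^ U * (2 / L) * V ^ 2 := by
    rw [hV, show 3 * U + 3 = U + U + U + 3 by ring, pow_add, pow_add, pow_add]
    field_simp
  rw [e1] at hfin
  have e2 := le_of_mul_le_mul_right hfin (by positivity)
  refine e2.trans ?_
  have e3 : 2 / L ≤ 1 := by
    rw [div_le_one hL0]
    exact hL2
  calc (N : ℝ) / L ^ U * (2 / L) ≤ N / L ^ U * 1 := by gcongr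
    _ = _ := mul_one _

end Pool.Agent.K9h54.MP
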