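import Pool.Agent.K9h54.MP.Sieve
import Pool.Agent.K9h54.MP.Circ
import Pool.Agent.K9h54.MP.Conc

set_option autoImplicit false

/-!
# Maier's phenomenon for prime pairs at almost all distances: the sum over the matrix
-/

namespace Pool.Agent.K9h54.MP

open Finset Filter Topology
open Pool.Agent.H373R2.T7 (lamz Vz pz Vz_pos mem_pz singZ singZ_eq rhoP nuP nuP_eq)
open Pool.Agent.W93.GB (sh nuP_sh)

open scoped ArithmeticFunction.vonMangoldt

/-- columns of the matrix -/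
theorem col_sum (f : ℕ → ℝ) {X c u₀ q : ℕ} (hc : 1 ≤ c) :
    ∑ u ∈ (Ioc X (2 * X)).filter (fun u => u ≡ u₀ [MOD q]), f (6 * (u + c) - 1) =
      ∑ m ∈ (Ioc (6 * X + 6 * c - 1) (12 * X + 6 * c - 1)).filter
        (fun m => m ≡ 6 * (u₀ + c) - 1 [MOD 6 * q]), f m := by
  refine sum_nbij' (fun u => 6 * (u + c) - 1) (fun m => (m + 1) / 6 - c) ?_ ?_ ?_ ?_ ?_
  · intro u hu
    rw [mem_filter, mem_Ioc] at hu ⊢
    refine ⟨⟨by omega, by omega⟩, ?_⟩
    have h1 : 6 * (u + c) ≡ 6 * (u₀ + c) [MOD 6 * q] := (hu.2.add_right c).mul_left' 6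
    have h2 : 6 * (u + c) - 1 + 1 ≡ 6 * (u₀ + c) - 1 + 1 [MOD 6 * q] := by
      rw [Nat.sub_add_cancel (by omega), Nat.sub_add_cancel (by omega)]
      exact h1
    exact Nat.ModEq.add_right_cancel' 1 h2
  · intro m hm
    rw [mem_filter, mem_Ioc] at hm ⊢
    have h1 : m + 1 ≡ 6 * (u₀ + c) [MOD 6 * q] := by
      have := hm.2.add_right 1
      rwa [Nat.sub_add_cancel (by omega)] at this
    have h2 : 6 ∣ m + 1 := by
      have h3 : m + 1 ≡ 6 * (u₀ + c) [MOD 6] := h1.of_dvd (dvd_mul_right 6 q)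
      exact Nat.modEq_zero_iff_dvd.1 (h3.trans (Nat.modEq_zero_iff_dvd.2 (dvd_mul_right 6 _)))
    obtain ⟨k, hk⟩ := h2
    have h4 : (m + 1) / 6 = k := by omega
    rw [h4]
    refine ⟨⟨by omega, by omega⟩, ?_⟩
    rw [hk] at h1
    have h5 : k ≡ u₀ + c [MOD q] := Nat.ModEq.mul_left_cancel' (by norm_num) h1
    have h6 : k - c + c ≡ u₀ + c [MOD q] := by
      rw [Nat.sub_add_cancel (by omega)]
      exact h5
    exact Nat.ModEq.add_right_cancel' c h6
  · intro u _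
    omega
  · intro m hm
    rw [mem_filter, mem_Ioc] at hm
    have h1 : m + 1 ≡ 6 * (u₀ + c) [MOD 6 * q] := by
      have := hm.2.add_right 1
      rwa [Nat.sub_add_cancel (by omega)] at this
    have h2 : 6 ∣ m + 1 := by
      have h3 : m + 1 ≡ 6 * (u₀ + c) [MOD 6] := h1.of_dvd (dvd_mul_right 6 q)
      exact Nat.modEq_zero_iff_dvd.1 (h3.trans (Nat.modEq_zero_iff_dvd.2 (dvd_mul_right 6 _)))
    omega
  · intro _ _
    rfl

/-- the local factors of the modulus -/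
noncomputable def PI (P : Finset ℕ) (h : ℕ) : ℝ := ∏ p ∈ P, (1 - gh h p)

theorem rho_gh (h p : ℕ) (hp : p.Prime) : (1 : ℝ) - (rhoP (sh h) p : ℝ) / ((p : ℝ) - 1) = 1 - gh h p := by
  have h1 := nuP_eq (sh h) p hp
  have h2 := nuP_sh h p hp
  rw [h1] at h2
  unfold gh
  split_ifs at h2 ⊢
  · have : rhoP (sh h) p = 0 := by omega
    rw [this, Nat.cast_zero, zero_div]
  · have : rhoP (sh h) p = 1 := by omega
    rw [this, Nat.cast_one]

theorem W_eq (P : Finset ℕ) (hP : ∀ p ∈ P, p.Prime ∧ 5 ≤ p) (z : ℕ) (hz : 3 ≤ z) (hPz : ∀ p ∈ P, p ≤ z) (a : ℕ) :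
    ((Vz z)⁻¹ * ∏ p ∈ (pz z).filter (fun p => ¬ p ∣ 6 * ∏ p ∈ P, p), (1 - gh (6 * a + 2) p)) *
      (1 / 2 * PI P (6 * a + 2)) = singZ (sh (6 * a + 2)) z := by
  classical
  have e1 : (pz z).filter (fun p => p ∣ 6 * ∏ p ∈ P, p) = insert 2 (insert 3 P) := by
    ext p
    rw [mem_filter, mem_pz, mem_insert, mem_insert]
    constructor
    · rintro ⟨⟨h1, h2⟩, h3⟩
      rcases (Nat.Prime.dvd_mul h2).1 h3 with h4 | h4
      · have h5 : p ≤ 6 := Nat.le_of_dvd (by norm_num) h4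
        interval_cases p <;> first | omega | (exact absurd h2 (by norm_num))
      · right; right
        obtain ⟨p', hp', hd⟩ := (Prime.dvd_finset_prod_iff h2.prime _).1 h4
        rwa [(Nat.prime_dvd_prime_iff_eq h2 (hP p' hp').1).1 hd]
    · rintro (h | h | h)
      · subst h
        exact ⟨⟨by omega, Nat.prime_two⟩, Dvd.dvd.mul_right (by norm_num) _⟩
      · subst h
        exact ⟨⟨hz, Nat.prime_three⟩, Dvd.dvd.mul_right (by norm_num) _⟩
      · exact ⟨⟨hPz p h, (hP p h).1⟩, Dvd.dvd.mul_left (dvd_prod_of_mem _ h) _⟩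
  have h3P : 3 ∉ P := fun h => by have := (hP 3 h).2; omega
  have h2P : 2 ∉ insert 3 P := by
    rw [mem_insert]
    rintro (h | h)
    · norm_num at h
    · have := (hP 2 h).2; omega
  have e2 : ∏ p ∈ (pz z).filter (fun p => p ∣ 6 * ∏ p ∈ P, p), (1 - gh (6 * a + 2) p) =
      1 / 2 * PI P (6 * a + 2) := by
    rw [e1, prod_insert h2P, prod_insert h3P]
    have e3 : gh (6 * a + 2) 2 = 0 := by
      unfold gh
      rw [if_pos (by omega)]
    have e4 : gh (6 * a + 2) 3 = 1 / 2 := by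
      unfold gh
      rw [if_neg (by omega)]
      norm_num
    rw [e3, e4]
    unfold PI
    ring
  have e5 := prod_filter_mul_prod_filter_not (pz z) (fun p => p ∣ 6 * ∏ p ∈ P, p) (fun p => 1 - gh (6 * a + 2) p)
  rw [singZ_eq, pow_one]
  have e6 : ∏ p ∈ pz z, (1 - (rhoP (sh (6 * a + 2)) p : ℝ) / ((p : ℝ) - 1)) = ∏ p ∈ pz z, (1 - gh (6 * a + 2) p) :=
    prod_congr rfl fun p hp => rho_gh _ p (mem_pz.1 hp).2
  rw [e6, ← e5, e2]
  ring

theorem PI_pos (P : Finset ℕ) (hP : ∀ p ∈ P, p.Prime ∧ 5 ≤ p) (h : ℕ) : 0 < PI P h := by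
  unfold PI
  apply prod_pos
  intro p hp
  have h5 : (5 : ℝ) ≤ p := by exact_mod_cast (hP p hp).2
  unfold gh
  split_ifs
  · norm_num
  · rw [sub_pos, div_lt_one (by linarith)]
    linarith

/-- the exceptional distances of the circle method -/
def Bad (l : ℝ) (z U X Y u₀ q a : ℕ) : Prop := ∃ c ∈ Icc 1 Y, (NN l : ℝ) / ((6 * q : ℕ) * Real.log (NN l) ^ U) <
  |∑ m ∈ (Ioc (6 * X + 6 * c - 1) (12 * X + 6 * c - 1)).filter (fun m => m ≡ 6 * (u₀ + c) - 1 [MOD 6 * q]),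
    Λ m * GR z (m + (6 * a + 2))|

/-- the sum over the matrix -/
theorem row_sum (E U : ℕ) : ∀ᶠ l : ℝ in atTop, APl l → ∀ z : ℕ, 3 ≤ z → (z : ℝ) ≤ Real.log (NN l) ^ E →
    ∀ (P : Finset ℕ), (∀ p ∈ P, p.Prime ∧ 5 ≤ p) → (∀ p ∈ P, p ≤ z) →
      ((6 * ∏ p ∈ P, p : ℕ) : ℝ) ≤ Real.exp (l / 300) → ∀ X Y u₀ : ℕ, 18 * X + 6 * Y + 2 ≤ NN l →
        6 * u₀ ≡ 1 [MOD ∏ p ∈ P, p] → ∀ a ∈ Icc 1 X, ¬ Bad l z U X Y u₀ (∏ p ∈ P, p) a →
          ∀ C ⊆ Icc 1 Y, (∀ c ∈ C, ∀ p ∈ P, ¬ p ∣ c) →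
          |∑ u ∈ (Ioc X (2 * X)).filter (fun u => u ≡ u₀ [MOD ∏ p ∈ P, p]), ∑ c ∈ KK C P a,
            Λ (6 * (u + c) - 1) * Λ (6 * (u + c) - 1 + (6 * a + 2)) -
            (KK C P a).card * ((6 * X : ℝ) / (((∏ p ∈ P, p : ℕ) : ℝ) * ∏ p ∈ P, (1 - 1 / (p : ℝ))) *
              (singZ (sh (6 * a + 2)) z / PI P (6 * a + 2)))| ≤
            Y * (3 * (NN l : ℝ) / (((6 * ∏ p ∈ P, p : ℕ) : ℝ) * Real.log (NN l) ^ U)) := by
  filter_upwards [sieve_main E U] with l h1 hAP z hz3 hzE P hP hPz hQE X Y u₀ hX hu₀ a ha hbad C hC hCP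
  rw [mem_Icc] at ha
  obtain ⟨q, hq⟩ : ∃ q, q = ∏ p ∈ P, p := ⟨_, rfl⟩
  rw [← hq] at hQE hu₀ hbad ⊢
  obtain ⟨h, hh⟩ : ∃ h, h = 6 * a + 2 := ⟨_, rfl⟩
  rw [← hh]
  have hq0 : 0 < q := by
    rw [hq]
    exact prod_pos fun p hp => (hP p hp).1.pos
  have hqr : (0 : ℝ) < q := by exact_mod_cast hq0
  set B : ℝ := ∏ p ∈ P, (1 - 1 / (p : ℝ)) with hB
  have hB0 : 0 < B := by
    rw [hB]
    apply prod_pos
    intro p hp
    have h5 : (5 : ℝ) ≤ p := by exact_mod_cast (hP p hp).2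
    rw [sub_pos, div_lt_one (by linarith)]
    linarith
  have hφq : ((Nat.totient q : ℕ) : ℝ) = q * B := by
    rw [hq, tot_prod P fun p hp => (hP p hp).1, hB]
    push_cast
    rw [← prod_mul_distrib]
    apply prod_congr rfl
    intro p hp
    have h5 : (5 : ℝ) ≤ p := by exact_mod_cast (hP p hp).2
    field_simp
  have hcop6 : Nat.Coprime 6 q := by
    rw [hq, Nat.coprime_prod_right_iff]
    intro p hp
    rw [Nat.coprime_comm, (hP p hp).1.coprime_iff_not_dvd]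
    intro hd
    have h5 := (hP p hp).2
    have h6 := Nat.le_of_dvd (by norm_num) hd
    have hpp := (hP p hp).1
    interval_cases p
    · omega
    · exact absurd hpp (by norm_num)
  have hφQ : ((Nat.totient (6 * q) : ℕ) : ℝ) = 2 * (q * B) := by
    rw [Nat.totient_mul hcop6, Nat.cast_mul, hφq]
    have : Nat.totient 6 = 2 := by decide
    rw [this]
    norm_num
  set W : ℝ := (Vz z)⁻¹ * ∏ p ∈ (pz z).filter (fun p => ¬ p ∣ 6 * q), (1 - gh h p) with hW
  have hWeq : W * (1 / 2 * PI P h) = singZ (sh h) z := by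
    rw [hW, hq, hh]
    exact W_eq P hP z hz3 hPz a
  have hPI := PI_pos P hP h
  set K := KK C P a with hK
  -- the columns
  have hcol : ∀ c ∈ K, |∑ u ∈ (Ioc X (2 * X)).filter (fun u => u ≡ u₀ [MOD q]),
      Λ (6 * (u + c) - 1) * Λ (6 * (u + c) - 1 + h) -
      ((6 * X : ℝ) / (q * B) * (singZ (sh h) z / PI P h))| ≤ 3 * (NN l : ℝ) / ((6 * q : ℕ) * Real.log (NN l) ^ U) := by
    intro c hc
    rw [hK] at hc
    unfold KK at hc
    rw [mem_filter] at hc
    obtain ⟨hcC, hcK⟩ := hc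
    have hc1 := mem_Icc.1 (hC hcC)
    obtain ⟨s, hs⟩ : ∃ s, s = 6 * (u₀ + c) - 1 := ⟨_, rfl⟩
    -- coprimality
    have hsP : ∀ p ∈ P, s ≡ 6 * c [MOD p] := by
      intro p hp
      have hpq : p ∣ q := by rw [hq]; exact dvd_prod_of_mem _ hp
      have k1 : s + 1 ≡ 6 * c + 1 [MOD p] := by
        rw [hs, Nat.sub_add_cancel (by omega), mul_add]
        have k2 := (hu₀.of_dvd hpq).add_right (6 * c)
        rwa [add_comm 1] at k2
      exact Nat.ModEq.add_right_cancel' 1 k1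
    have h6p : ∀ p ∈ P, ¬ p ∣ 6 := by
      intro p hp hd
      have k1 : Nat.Coprime 6 p := hcop6.coprime_dvd_right (by rw [hq]; exact dvd_prod_of_mem _ hp)
      have k2 := Nat.dvd_gcd hd (dvd_refl p)
      rw [k1] at k2
      exact (hP p hp).1.one_lt.ne' (Nat.dvd_one.1 k2)
    have hsc : s.Coprime (6 * q) := by
      rw [Nat.coprime_mul_iff_right]
      constructor
      · rw [hs]
        have k1 : 6 * (u₀ + c) - 1 = 6 * (u₀ + c - 1) + 5 := by omega
        rw [k1, Nat.coprime_comm, Nat.coprime_mul_left_add_right]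
        norm_num
      · rw [hq, Nat.coprime_prod_right_iff]
        intro p hp
        rw [Nat.coprime_comm, (hP p hp).1.coprime_iff_not_dvd]
        intro hd
        have k1 := ((hsP p hp).dvd_iff dvd_rfl).1 hd
        rcases (Nat.Prime.dvd_mul (hP p hp).1).1 k1 with k2 | k2
        · exact h6p p hp k2
        · exact hCP c hcC p hp k2
    have hshc : (s + h).Coprime (6 * q) := by
      rw [Nat.coprime_mul_iff_right]
      constructor
      · rw [hs, hh]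
        have k1 : 6 * (u₀ + c) - 1 + (6 * a + 2) = 6 * (u₀ + c + a) + 1 := by omega
        rw [k1, Nat.coprime_comm, Nat.coprime_mul_left_add_right]
        norm_num
      · rw [hq, Nat.coprime_prod_right_iff]
        intro p hp
        rw [Nat.coprime_comm, (hP p hp).1.coprime_iff_not_dvd]
        intro hd
        have k1 := (((hsP p hp).add_right h).dvd_iff dvd_rfl).1 hd
        rw [hh, ← add_assoc] at k1
        exact hcK p hp k1
    -- splitting
    have e1 := col_sum (fun m => Λ m * Λ (m + h)) (X := X) (u₀ := u₀) (q := q) hc1.1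
    rw [e1, ← hs]
    obtain ⟨M₁, hM₁⟩ : ∃ M₁, M₁ = 6 * X + 6 * c - 1 := ⟨_, rfl⟩
    obtain ⟨M₂, hM₂⟩ : ∃ M₂, M₂ = 12 * X + 6 * c - 1 := ⟨_, rfl⟩
    rw [← hM₁, ← hM₂]
    have e2 : ∀ f : ℕ → ℝ, ∑ m ∈ (Ioc M₁ M₂).filter (fun m => m ≡ s [MOD 6 * q]), f m =
        ∑ m ∈ (Icc 1 M₂).filter (fun m => m ≡ s [MOD 6 * q]), f m -
          ∑ m ∈ (Icc 1 M₁).filter (fun m => m ≡ s [MOD 6 * q]), f m := by
      intro f
      rw [eq_sub_iff_add_eq, add_comm, ← sum_union]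
      · apply sum_congr _ fun _ _ => rfl
        rw [← filter_union]
        congr 1
        ext m
        rw [mem_union, mem_Icc, mem_Ioc, mem_Icc]
        omega
      · apply disjoint_filter_filter
        rw [Finset.disjoint_left]
        intro m k1 k2
        rw [mem_Icc] at k1
        rw [mem_Ioc] at k2
        omega
    have f1 := h1 hAP z (by omega) hzE (6 * q) s h M₁ (by omega) hQE hsc hshc (by omega)
    have f2 := h1 hAP z (by omega) hzE (6 * q) s h M₂ (by omega) hQE hsc hshc (by omega)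
    rw [← hW] at f1 f2
    have f3 : |∑ m ∈ (Ioc M₁ M₂).filter (fun m => m ≡ s [MOD 6 * q]), Λ m * GR z (m + h)| ≤
        (NN l : ℝ) / ((6 * q : ℕ) * Real.log (NN l) ^ U) := by
      by_contra hcon
      rw [not_le] at hcon
      apply hbad
      refine ⟨c, hC hcC, ?_⟩
      rw [← hM₁, ← hM₂, ← hs, ← hh]
      exact hcon
    have f4 : ∑ m ∈ (Ioc M₁ M₂).filter (fun m => m ≡ s [MOD 6 * q]), Λ m * Λ (m + h) =
        ∑ m ∈ (Ioc M₁ M₂).filter (fun m => m ≡ s [MOD 6 * q]), Λ m * GR z (m + h) +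
        (∑ m ∈ (Icc 1 M₂).filter (fun m => m ≡ s [MOD 6 * q]), Λ m * lamz z (m + h) -
          ∑ m ∈ (Icc 1 M₁).filter (fun m => m ≡ s [MOD 6 * q]), Λ m * lamz z (m + h)) := by
      rw [← e2 (fun m => Λ m * lamz z (m + h)), ← sum_add_distrib]
      apply sum_congr rfl
      intro m _
      unfold GR
      ring
    have f5 : (M₂ : ℝ) / (Nat.totient (6 * q) : ℝ) * W - (M₁ : ℝ) / (Nat.totient (6 * q) : ℝ) * W =
        (6 * X : ℝ) / (q * B) * (singZ (sh h) z / PI P h) := by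
      have k1 : (M₂ : ℝ) = M₁ + 6 * X := by
        have : M₂ = M₁ + 6 * X := by omega
        rw [this]
        push_cast
        ring
      rw [k1, hφQ, ← hWeq]
      field_simp
      ring
    rw [f4, ← f5]
    rw [abs_le] at f1 f2 f3 ⊢
    have k3 : 3 * (NN l : ℝ) / ((6 * q : ℕ) * Real.log (NN l) ^ U) =
        3 * ((NN l : ℝ) / ((6 * q : ℕ) * Real.log (NN l) ^ U)) := by ring
    rw [k3]
    constructor
    · linarith [f1.1, f1.2, f2.1, f2.2, f3.1, f3.2]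
    · linarith [f1.1, f1.2, f2.1, f2.2, f3.1, f3.2]
  rw [sum_comm]
  have e1 : ∑ c ∈ K, ∑ u ∈ (Ioc X (2 * X)).filter (fun u => u ≡ u₀ [MOD q]),
      Λ (6 * (u + c) - 1) * Λ (6 * (u + c) - 1 + h) -
      (K.card : ℝ) * ((6 * X : ℝ) / (q * B) * (singZ (sh h) z / PI P h)) =
      ∑ c ∈ K, (∑ u ∈ (Ioc X (2 * X)).filter (fun u => u ≡ u₀ [MOD q]),
        Λ (6 * (u + c) - 1) * Λ (6 * (u + c) - 1 + h) -
          ((6 * X : ℝ) / (q * B) * (singZ (sh h) z / PI P h))) := by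
    rw [sum_sub_distrib, sum_const, nsmul_eq_mul]
  rw [e1]
  refine (abs_sum_le_sum_abs _ _).trans ((sum_le_sum hcol).trans ?_)
  rw [sum_const, nsmul_eq_mul]
  have hKY : (K.card : ℝ) ≤ Y := by
    have k1 : K ⊆ Icc 1 Y := (filter_subset _ _).trans hC
    have k2 := card_le_card k1
    rw [Nat.card_Icc, Nat.add_sub_cancel] at k2
    exact_mod_cast k2
  apply mul_le_mul_of_nonneg_right hKY
  have : 0 ≤ Real.log (NN l) := Real.log_natCast_nonneg _
  positivity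

end Pool.Agent.K9h54.MP
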