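import Pool.Agent.K9h54.MP.Siz
import Pool.Agent.K9h54.MP.Row

set_option autoImplicit false

/-!
# Maier's phenomenon for prime pairs at almost all distances: the exceptional distances
-/

namespace Pool.Agent.K9h54.MP

open Finset Filter Topology

open Classical in
theorem exc1 (w η lam : ℝ) (A : ℕ) (hw : 0 < w) (hη : 0 < η) (hlam : 0 < lam) : ∀ᶠ l : ℝ in atTop,
    ∀ P : Finset ℕ, (∀ p ∈ P, p.Prime ∧ 5 ≤ p) → (∀ p ∈ P, (l / 2) ^ w ≤ (p : ℝ)) → (∀ p ∈ P, (p : ℝ) ≤ yl lam l) →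
      ∑ p ∈ P, 1 / (p : ℝ) ≤ 1 → ∏ p ∈ P, p ≤ XX l → ∀ C ⊆ Icc 1 ⌊yl lam l⌋₊,
        (((Icc 1 (XX l)).filter (fun a => η * yl lam l ≤
          |((KK C P a).card : ℝ) - C.card * ∏ p ∈ P, (1 - 1 / (p : ℝ))|)).card : ℝ) ≤
          XX l / (4 * Real.log (XX l) ^ A) := by
  filter_upwards [size0, size1 lam 1 hlam one_pos, eventually_ge_atTop (100 : ℝ),
    exp_beats (16 * Real.exp 2) η (w / 2) (40 * A) hη (by positivity)] with l h0 h1 h2 h3 P hP hPw hPy hs hPX C hC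
  obtain ⟨a1, a2, a3, a4, a5, a6⟩ := h0
  obtain ⟨-, -, -, -, b1⟩ := h1
  obtain ⟨q, hq⟩ : ∃ q, q = ∏ p ∈ P, p := ⟨_, rfl⟩
  have hq0 : 0 < q := by
    rw [hq]
    exact prod_pos fun p hp => (hP p hp).1.pos
  have hqr : (0 : ℝ) < q := by exact_mod_cast hq0
  have hX0 : (0 : ℝ) < XX l := by exact_mod_cast (by omega : 0 < XX l)
  set y := yl lam l with hy
  set W := (l / 2) ^ w with hW
  have hW0 : 0 < W := by positivity
  have hy0 : 0 < y := by linarith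
  set R : ℕ → Prop := fun a => η * y ≤ |((KK C P a).card : ℝ) - C.card * ∏ p ∈ P, (1 - 1 / (p : ℝ))| with hR
  have hper := periodic_card (X := XX l) hq0 R (by
    intro a
    rw [hR]
    simp only
    rw [KK_mod C P a q (fun p hp => by rw [hq]; exact dvd_prod_of_mem _ hp)])
  have htail := tail C ⌊y⌋₊ hC P hP (√W / y) (η * y) (by positivity)
  rw [← hq] at htail
  have hSg : ∑ p ∈ P, (((⌊y⌋₊ : ℕ) : ℝ) / p + 1) ^ 2 ≤ 4 * y ^ 2 / W := by
    calc ∑ p ∈ P, (((⌊y⌋₊ : ℕ) : ℝ) / p + 1) ^ 2 ≤ ∑ p ∈ P, 4 * y ^ 2 / W * (1 / (p : ℝ)) := by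
          apply sum_le_sum
          intro p hp
          have k0 : (5 : ℝ) ≤ p := by exact_mod_cast (hP p hp).2
          have k1 : ((⌊y⌋₊ : ℕ) : ℝ) ≤ y := Nat.floor_le hy0.le
          have k2 : 1 ≤ y / p := by
            rw [le_div_iff₀ (by linarith), one_mul]
            exact hPy p hp
          have k3 : ((⌊y⌋₊ : ℕ) : ℝ) / p ≤ y / p := by gcongr
          have k4 : (((⌊y⌋₊ : ℕ) : ℝ) / p + 1) ^ 2 ≤ (2 * (y / p)) ^ 2 := by
            gcongr
            linarith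
          refine k4.trans ?_
          have k5 : (2 * (y / (p : ℝ))) ^ 2 = 4 * y ^ 2 / p * (1 / p) := by
            field_simp
            ring
          rw [k5]
          have k6 := hPw p hp
          gcongr
      _ = 4 * y ^ 2 / W * ∑ p ∈ P, 1 / (p : ℝ) := by rw [mul_sum]
      _ ≤ 4 * y ^ 2 / W * 1 := by gcongr
      _ = _ := mul_one _
  have hexp : (√W / y) ^ 2 / 2 * ∑ p ∈ P, (((⌊y⌋₊ : ℕ) : ℝ) / p + 1) ^ 2 - √W / y * (η * y) ≤ 2 - η * √W := by
    have k1 : (√W / y) ^ 2 / 2 * ∑ p ∈ P, (((⌊y⌋₊ : ℕ) : ℝ) / p + 1) ^ 2 ≤ (√W / y) ^ 2 / 2 * (4 * y ^ 2 / W) := by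
      gcongr
    have k2 : (√W / y) ^ 2 / 2 * (4 * y ^ 2 / W) = 2 := by
      rw [div_pow, Real.sq_sqrt hW0.le]
      field_simp
      norm_num
    have k3 : √W / y * (η * y) = η * √W := by
      field_simp
    linarith
  have hcount : (((range q).filter R).card : ℝ) ≤ 2 * q * Real.exp (2 - η * √W) := by
    refine htail.trans ?_
    gcongr
  have hsqrt : √W = (l / 2) ^ (w / 2) := by
    rw [hW, Real.sqrt_eq_rpow, ← Real.rpow_mul (by linarith)]
    congr 1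
    ring
  have hlog : Real.log (XX l) ^ A ≤ l ^ (40 * A) := by
    have : 0 ≤ Real.log (XX l) := Real.log_natCast_nonneg _
    rw [pow_mul]
    gcongr
  have hlog0 : 0 < Real.log (XX l) ^ A := by
    have : 0 < Real.log (XX l) := by
      have : (0 : ℝ) < (l / 2) ^ 40 := by positivity
      linarith
    positivity
  have hq1 : (1 : ℝ) ≤ XX l / q := by
    rw [le_div_iff₀ hqr, one_mul]
    have : q ≤ XX l := by rw [hq]; exact hPX
    exact_mod_cast this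
  calc (((Icc 1 (XX l)).filter R).card : ℝ) ≤ ((XX l : ℝ) / q + 1) * ((range q).filter R).card := hper
    _ ≤ (2 * ((XX l : ℝ) / q)) * (2 * q * Real.exp (2 - η * √W)) := by
        apply mul_le_mul (by linarith) hcount (Nat.cast_nonneg _) (by positivity)
    _ = XX l * (4 * Real.exp (2 - η * √W)) := by
        field_simp
        ring
    _ ≤ XX l * (1 / (4 * Real.log (XX l) ^ A)) := by
        apply mul_le_mul_of_nonneg_left _ hX0.le
        rw [le_div_iff₀ (by positivity)]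
        rw [hsqrt, Real.exp_sub]
        have k1 : 16 * Real.exp 2 * Real.log (XX l) ^ A ≤ Real.exp (η * (l / 2) ^ (w / 2)) := by
          refine le_trans ?_ h3
          gcongr
        have k2 := Real.exp_pos (η * (l / 2) ^ (w / 2))
        calc 4 * (Real.exp 2 / Real.exp (η * (l / 2) ^ (w / 2))) * (4 * Real.log (XX l) ^ A) =
              (16 * Real.exp 2 * Real.log (XX l) ^ A) / Real.exp (η * (l / 2) ^ (w / 2)) := by ring
          _ ≤ 1 := by
              rw [div_le_one k2]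
              exact k1
    _ = _ := by ring

theorem exc2 (w η : ℝ) (A : ℕ) (hw : 0 < w) (hη : 0 < η) : ∀ᶠ l : ℝ in atTop,
    ∀ P : Finset ℕ, (∀ p ∈ P, p.Prime ∧ 5 ≤ p) → ∑ p ∈ P, 1 / (p : ℝ) ≤ 1 → ∏ p ∈ P, p ≤ XX l →
        (((Icc 1 (XX l)).filter (fun a => ⌈η * (l / 2) ^ w⌉₊ ≤ (P.filter (fun p => p ∣ 6 * a + 2)).card)).card : ℝ) ≤
          XX l / (4 * Real.log (XX l) ^ A) := by
  filter_upwards [size0, eventually_ge_atTop (100 : ℝ),
    exp_beats (8 * Real.exp 10) (2 * η) w (40 * A) (by positivity) hw] with l h0 h2 h3 P hP hs hPX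
  obtain ⟨a1, a2, a3, a4, a5, a6⟩ := h0
  have h1 := few_div P hP hs (XX l) hPX ⌈η * (l / 2) ^ w⌉₊
  refine h1.trans ?_
  have hX0 : (0 : ℝ) < XX l := by exact_mod_cast (by omega : 0 < XX l)
  have hlog : Real.log (XX l) ^ A ≤ l ^ (40 * A) := by
    have : 0 ≤ Real.log (XX l) := Real.log_natCast_nonneg _
    rw [pow_mul]
    gcongr
  have hlog0 : 0 < Real.log (XX l) ^ A := by
    have : 0 < Real.log (XX l) := by
      have : (0 : ℝ) < (l / 2) ^ 40 := by positivity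
      linarith
    positivity
  have hf := fact_large ⌈η * (l / 2) ^ w⌉₊
  have hceil : η * (l / 2) ^ w ≤ (⌈η * (l / 2) ^ w⌉₊ : ℝ) := Nat.le_ceil _
  have k1 : Real.exp (2 * η * (l / 2) ^ w) / Real.exp 10 ≤ ((⌈η * (l / 2) ^ w⌉₊).factorial : ℝ) := by
    rw [← Real.exp_sub]
    refine le_trans (Real.exp_le_exp.2 ?_) hf
    linarith
  have k2 : 8 * Real.log (XX l) ^ A ≤ ((⌈η * (l / 2) ^ w⌉₊).factorial : ℝ) := by
    refine le_trans ?_ k1
    rw [le_div_iff₀ (Real.exp_pos _)]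
    calc 8 * Real.log (XX l) ^ A * Real.exp 10 ≤ 8 * l ^ (40 * A) * Real.exp 10 := by gcongr
      _ = 8 * Real.exp 10 * l ^ (40 * A) := by ring
      _ ≤ _ := h3
  have hf0 : (0 : ℝ) < ((⌈η * (l / 2) ^ w⌉₊).factorial : ℝ) := by exact_mod_cast Nat.factorial_pos _
  rw [div_le_div_iff₀ hf0 (by positivity)]
  calc 2 * (XX l : ℝ) * (4 * Real.log (XX l) ^ A) = XX l * (8 * Real.log (XX l) ^ A) := by ring
    _ ≤ _ := mul_le_mul_of_nonneg_left k2 hX0.le

open Classical in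
theorem exc3 (lam : ℝ) (A : ℕ) (hlam : 0 < lam) : ∃ B : ℕ, ∀ E : ℕ, ∀ᶠ l : ℝ in atTop, APl l → ∀ z : ℕ,
    Real.log (NN l) ^ B ≤ z → (z : ℝ) ≤ Real.log (NN l) ^ E → ∀ q : ℕ, 1 ≤ q → ((6 * q : ℕ) : ℝ) ≤ Real.exp (l / 300) →
      (∀ p, p.Prime → p ∣ 6 * q → p ≤ z) → ∀ u₀ : ℕ,
        (((Icc 1 (XX l)).filter (fun a => Bad l z (A + ⌈lam⌉₊ + 3) (XX l) ⌊yl lam l⌋₊ u₀ q a)).card : ℝ) ≤
          XX l / (4 * Real.log (XX l) ^ A) := by
  obtain ⟨B, hB⟩ := exc (A + ⌈lam⌉₊ + 3)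
  refine ⟨B, fun E => ?_⟩
  filter_upwards [size0, size1 lam 1 hlam one_pos, size2 lam hlam, NN_bd, eventually_ge_atTop (100 : ℝ), hB E] with
    l h0 h1 h2 h4 h3 h5 hAP z hz1 hz2 q hq hqE hqz u₀
  obtain ⟨a1, a2, a3, a4, a5, a6⟩ := h0
  obtain ⟨-, -, -, b2, b1⟩ := h1
  obtain ⟨c1, c2, c3, c4⟩ := h4
  haveI : NeZero (6 * q) := ⟨by omega⟩
  set L := Real.log (NN l : ℝ) with hL
  set U := A + ⌈lam⌉₊ + 3 with hU
  have hX0 : (0 : ℝ) < XX l := by exact_mod_cast (by omega : 0 < XX l)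
  have hN0 : (0 : ℝ) < NN l := by linarith [Real.exp_pos (l ^ 40 / 2)]
  have hL100 : 100 ≤ L := by
    have k1 : l ≤ l ^ 39 := le_self_pow₀ (by linarith) (by norm_num)
    have k2 : l ^ 40 = l ^ 39 * l := by ring
    nlinarith
  have hL0 : 0 < L := by linarith
  have hsub : (Icc 1 (XX l)).filter (fun a => Bad l z U (XX l) ⌊yl lam l⌋₊ u₀ q a) ⊆
      (Icc 1 ⌊yl lam l⌋₊).biUnion (fun c => (Icc 1 (XX l)).filter (fun a => (NN l : ℝ) / ((6 * q : ℕ) * L ^ U) <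
          |∑ m ∈ (Ioc (6 * XX l + 6 * c - 1) (12 * XX l + 6 * c - 1)).filter (fun m => m ≡ 6 * (u₀ + c) - 1 [MOD 6 * q]),
            ArithmeticFunction.vonMangoldt m * GR z (m + (6 * a + 2))|)) := by
    intro a ha
    rw [mem_filter] at ha
    obtain ⟨ha1, c, hc, hc2⟩ := ha
    rw [mem_biUnion]
    exact ⟨c, hc, mem_filter.2 ⟨ha1, hc2⟩⟩
  have h6 : (((Icc 1 (XX l)).filter (fun a => Bad l z U (XX l) ⌊yl lam l⌋₊ u₀ q a)).card : ℝ) ≤
      ∑ c ∈ Icc 1 ⌊yl lam l⌋₊, (NN l : ℝ) / L ^ U := by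
    have k1 := (card_le_card hsub).trans card_biUnion_le
    have k2 : (((Icc 1 (XX l)).filter (fun a => Bad l z U (XX l) ⌊yl lam l⌋₊ u₀ q a)).card : ℝ) ≤
      ∑ c ∈ Icc 1 ⌊yl lam l⌋₊, (((Icc 1 (XX l)).filter (fun a => (NN l : ℝ) / ((6 * q : ℕ) * L ^ U) <
          |∑ m ∈ (Ioc (6 * XX l + 6 * c - 1) (12 * XX l + 6 * c - 1)).filter (fun m => m ≡ 6 * (u₀ + c) - 1 [MOD 6 * q]),
            ArithmeticFunction.vonMangoldt m * GR z (m + (6 * a + 2))|)).card : ℝ) := by exact_mod_cast k1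
    refine k2.trans (sum_le_sum fun c hc => ?_)
    rw [mem_Icc] at hc
    exact h5 hAP z hz1 hz2 (6 * q) hqE hqz _ _ _ _ (by omega)
  refine h6.trans ?_
  rw [sum_const, Nat.card_Icc, Nat.add_sub_cancel, nsmul_eq_mul]
  have hfl : ((⌊yl lam l⌋₊ : ℕ) : ℝ) ≤ L ^ ⌈lam⌉₊ := (Nat.floor_le (by linarith)).trans b2
  have hlogX : Real.log (XX l) ^ A ≤ L ^ A := by
    have : 0 ≤ Real.log (XX l) := Real.log_natCast_nonneg _
    gcongr
  have hlog0 : 0 < Real.log (XX l) ^ A := by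
    have : 0 < Real.log (XX l) := by
      have : (0 : ℝ) < (l / 2) ^ 40 := by positivity
      linarith
    positivity
  calc ((⌊yl lam l⌋₊ : ℕ) : ℝ) * ((NN l : ℝ) / L ^ U) ≤ L ^ ⌈lam⌉₊ * ((21 * XX l) / L ^ U) := by gcongr
    _ = XX l * (21 / (L ^ A * L ^ 3)) := by
        rw [hU, pow_add, pow_add]
        field_simp
    _ ≤ XX l * (1 / (4 * L ^ A)) := by
        apply mul_le_mul_of_nonneg_left _ hX0.le
        rw [div_le_div_iff₀ (by positivity) (by positivity), one_mul]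
        have k1 : (84 : ℝ) ≤ L ^ 3 := by
          calc (84 : ℝ) ≤ 100 ^ 3 := by norm_num
            _ ≤ L ^ 3 := by gcongr
        have k2 : 0 < L ^ A := by positivity
        nlinarith
    _ ≤ XX l * (1 / (4 * Real.log (XX l) ^ A)) := by gcongr
    _ = _ := by ring

theorem exc4 (n₀ A : ℕ) : ∀ᶠ l : ℝ in atTop,
    (((Icc 1 (XX l)).filter (fun a => 6 * a + 2 < n₀)).card : ℝ) ≤ XX l / (4 * Real.log (XX l) ^ A) := by
  filter_upwards [size0, NN_bd, eventually_ge_atTop (100 : ℝ), pow_le_exp (4 * n₀ * 42) 1 (40 * A) one_pos] with l h0 h2 h3 h4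
  obtain ⟨a1, a2, a3, a4, a5, a6⟩ := h0
  obtain ⟨c1, c2, c3, c4⟩ := h2
  have h1 : ((Icc 1 (XX l)).filter (fun a => 6 * a + 2 < n₀)).card ≤ n₀ := by
    calc ((Icc 1 (XX l)).filter (fun a => 6 * a + 2 < n₀)).card ≤ (range n₀).card := by
          apply card_le_card
          intro a ha
          rw [mem_filter] at ha
          rw [mem_range]
          omega
      _ = n₀ := card_range _
  have h1r : (((Icc 1 (XX l)).filter (fun a => 6 * a + 2 < n₀)).card : ℝ) ≤ n₀ := by exact_mod_cast h1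
  refine h1r.trans ?_
  have hlog0 : 0 < Real.log (XX l) ^ A := by
    have : 0 < Real.log (XX l) := by
      have : (0 : ℝ) < (l / 2) ^ 40 := by positivity
      linarith
    positivity
  rw [le_div_iff₀ (by positivity)]
  have hlog : Real.log (XX l) ^ A ≤ l ^ (40 * A) := by
    have : 0 ≤ Real.log (XX l) := Real.log_natCast_nonneg _
    rw [pow_mul]
    gcongr
  have k1 : Real.exp (1 * l) ≤ Real.exp (l ^ 40 / 2) := by
    apply Real.exp_le_exp.2
    have d4 : (100 : ℝ) ^ 39 ≤ l ^ 39 := by gcongr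
    have d5 : l ^ 40 = l ^ 39 * l := by ring
    rw [d5]
    have d7 : (8 : ℝ) ≤ 100 ^ 39 := by norm_num
    nlinarith
  have k2 : (n₀ : ℝ) * (4 * Real.log (XX l) ^ A) * 42 ≤ Real.exp (l ^ 40 / 2) := by
    calc (n₀ : ℝ) * (4 * Real.log (XX l) ^ A) * 42 ≤ (n₀ : ℝ) * (4 * l ^ (40 * A)) * 42 := by gcongr
      _ = 4 * n₀ * 42 * l ^ (40 * A) := by ring
      _ ≤ _ := h4.trans k1
  linarith

end Pool.Agent.K9h54.MP
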