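import Pool.Agent.K9h54.MP.Sc
import Pool.Agent.Y883.GJ.Asm
import Pool.Agent.Y614.GJ.Core
import Pool.Agent.H373R2.T7.LamZ2
import Pool.Agent.H373R2.T7.LamMaj
import Pool.Agent.H373R2.T7.Cnt

set_option autoImplicit false

/-!
# Maier's phenomenon for prime pairs at almost all distances: the major arcs
-/

namespace Pool.Agent.K9h54.MP

open Finset Filter Topology
open Pool.Agent.H807R2.Dav (ee norm_ee)
open Pool.Agent.Y883.GJ
open Pool.Agent.H373R2.T7 (lamz Vz pz Vz_pos Vz_inv_small mem_pz count_sys sieve_gen' card_small card_pz_le es es_le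
  es_nonneg sum_pz_le lam_mult_prime natlog_le)

/-- the numbers free of small primes in a progression (after `Pool.Agent.K9h19.CR.rough_win`) -/
theorem rough (z q c Y r : ℕ) (hq : 1 ≤ q) (hc : c.Coprime q)
    (hqz : ∀ p, p.Prime → p ∣ q → p ≤ z) :
    |((((Icc 1 Y).filter (fun n => n ≡ c [MOD q])).filter (fun n => ∀ p ∈ pz z, ¬ p ∣ n)).card : ℝ) -
      (Y : ℝ) / (Nat.totient q : ℝ) * Vz z| ≤
      ((z : ℝ) + 1) ^ r + 2 * Y * Real.exp (3 * (1 + Real.log z) - r) := by
  obtain ⟨T, hT⟩ : ∃ T, T = (pz z).filter (fun p => ¬ p ∣ q) := ⟨_, rfl⟩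
  have hq0 : (0 : ℝ) < q := by exact_mod_cast hq
  have hTz : T ⊆ pz z := by rw [hT]; exact filter_subset _ _
  have hTq : ∀ p ∈ T, ¬ p ∣ q := by
    intro p hp
    rw [hT, mem_filter] at hp
    exact hp.2
  -- only primes not dividing `q` matter
  have e1 : ((Icc 1 Y).filter (fun n => n ≡ c [MOD q])).filter (fun n => ∀ p ∈ pz z, ¬ p ∣ n) =
      ((Icc 1 Y).filter (fun n => n ≡ c [MOD q])).filter (fun n => ∀ p ∈ T, ¬ p ∣ n) := by
    apply filter_congr
    intro n hn
    rw [mem_filter] at hn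
    constructor
    · intro h p hp
      exact h p (hTz hp)
    · intro h p hp hpn
      by_cases hpq : p ∣ q
      · have h1 : p ∣ c := (hn.2.dvd_iff hpq).1 hpn
        have h2 := Nat.dvd_gcd h1 hpq
        rw [hc] at h2
        exact (mem_pz.1 hp).2.one_lt.ne' (Nat.dvd_one.1 h2)
      · exact h p (by rw [hT]; exact mem_filter.2 ⟨hp, hpq⟩) hpn
  rw [e1]
  have key := sieve_gen' ((Icc 1 Y).filter (fun n => n ≡ c [MOD q])) (fun _ => (1 : ℝ))
    (fun _ _ => zero_le_one)
    (fun p n => p ∣ n) T (fun p => 1 / (p : ℝ)) (fun p hp => by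
      have hp2 : (2 : ℝ) ≤ p := by exact_mod_cast (mem_pz.1 (hTz hp)).2.two_le
      constructor
      · positivity
      · rw [div_le_one (by linarith)]; linarith) ((Y : ℝ) / q) (by positivity) (fun _ => 1) r (by
      intro S hS _
      have hSp : ∀ p ∈ S, p.Prime := fun p hp => (mem_pz.1 (hTz (hS hp))).2
      have h := count_sys (fun _ a => a = 0) Y S hSp q hq (fun p hp => hTq p (hS hp)) c
      have h1 : ∀ p ∈ S, (((range p).filter (fun a => a = 0)).card : ℝ) = 1 := by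
        intro p hp
        have : (range p).filter (fun a => a = 0) = {0} := by
          ext a
          rw [mem_filter, mem_range, mem_singleton]
          constructor
          · rintro ⟨_, h⟩; exact h
          · rintro rfl; exact ⟨(hSp p hp).pos, rfl⟩
        rw [this]; simp
      have h2 : ∏ p ∈ S, ((((range p).filter (fun a => a = 0)).card : ℝ) / p) = ∏ p ∈ S, (1 / (p : ℝ)) :=
        prod_congr rfl fun p hp => by rw [h1 p hp]
      simp only [h2, prod_congr rfl h1, prod_const_one] at h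
      have h3 : ∑ i ∈ ((Icc 1 Y).filter (fun n => n ≡ c [MOD q])) with ∀ p ∈ S, p ∣ i, (1 : ℝ) =
          (((Icc 1 Y).filter (fun n => n ≡ c [MOD q] ∧ ∀ p ∈ S, n % p = 0)).card : ℝ) := by
        rw [sum_const, nsmul_eq_mul, mul_one, filter_filter]
        congr 2
        apply filter_congr
        intro n _
        simp only [Nat.dvd_iff_mod_eq_zero]
      rw [h3]
      exact h)
  have e2 : ∑ i ∈ ((Icc 1 Y).filter (fun n => n ≡ c [MOD q])) with ∀ p ∈ T, ¬ p ∣ i, (1 : ℝ) =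
      ((((Icc 1 Y).filter (fun n => n ≡ c [MOD q])).filter (fun n => ∀ p ∈ T, ¬ p ∣ n)).card : ℝ) := by
    rw [sum_const, nsmul_eq_mul, mul_one]
  rw [e2] at key
  have e3 : (Y : ℝ) / q * ∏ p ∈ T, (1 - 1 / (p : ℝ)) = (Y : ℝ) / (Nat.totient q : ℝ) * Vz z := by
    have h1 : ((Nat.totient q : ℕ) : ℝ) = q * ∏ p ∈ q.primeFactors, (1 - 1 / (p : ℝ)) := by
      have := Nat.totient_eq_mul_prod_factors q
      have h2 : (((Nat.totient q : ℕ) : ℚ) : ℝ) = ((q * ∏ p ∈ q.primeFactors, (1 - (p : ℚ)⁻¹) : ℚ) : ℝ) := by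
        rw [this]
      push_cast at h2
      simp only [one_div]
      exact h2
    have h2 : Vz z = (∏ p ∈ q.primeFactors, (1 - 1 / (p : ℝ))) * ∏ p ∈ T, (1 - 1 / (p : ℝ)) := by
      unfold Vz
      have h3 : q.primeFactors = (pz z).filter (fun p => p ∣ q) := by
        ext p
        rw [Nat.mem_primeFactors, mem_filter, mem_pz]
        constructor
        · rintro ⟨h1, h2, h3⟩
          exact ⟨⟨hqz p h1 h2, h1⟩, h2⟩
        · rintro ⟨⟨h1, h2⟩, h3⟩
          exact ⟨h2, h3, by omega⟩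
      rw [h3, hT, prod_filter_mul_prod_filter_not]
    have h3 : (0 : ℝ) < ∏ p ∈ q.primeFactors, (1 - 1 / (p : ℝ)) := by
      apply prod_pos
      intro p hp
      have : (2 : ℝ) ≤ p := by exact_mod_cast (Nat.prime_of_mem_primeFactors hp).two_le
      rw [sub_pos, div_lt_one (by linarith)]
      linarith
    rw [h1, h2]
    field_simp
  rw [e3] at key
  refine key.trans ?_
  have h4 : ∑ j ∈ range (r + 1), ∑ S ∈ T.powersetCard j, (1 : ℝ) ≤ ((z : ℝ) + 1) ^ r := by
    have h5 := card_small T r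
    have h6 : ∑ j ∈ range (r + 1), ∑ S ∈ T.powersetCard j, (1 : ℝ) =
        ((∑ j ∈ range (r + 1), (T.powersetCard j).card : ℕ) : ℝ) := by
      push_cast
      apply sum_congr rfl
      intro j _
      rw [sum_const, nsmul_eq_mul, mul_one]
    rw [h6]
    have h7 : (T.card : ℝ) ≤ z := by exact_mod_cast (card_le_card hTz).trans (card_pz_le z)
    have h8 : ((T.card : ℝ) + 1) ^ r ≤ ((z : ℝ) + 1) ^ r := by gcongr
    linarith
  have h5 : es (fun p => 1 / (p : ℝ)) T r ≤ Real.exp (3 * (1 + Real.log z) - r) := by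
    refine (es_le (fun p _ => by positivity) r).trans ?_
    apply Real.exp_le_exp.2
    have h6 : ∑ p ∈ T, 1 / (p : ℝ) ≤ ∑ p ∈ pz z, 1 / (p : ℝ) :=
      sum_le_sum_of_subset_of_nonneg hTz (fun _ _ _ => by positivity)
    have := sum_pz_le z
    linarith
  have h6 : (Y : ℝ) / q ≤ Y := div_le_self (Nat.cast_nonneg _) (by exact_mod_cast hq)
  have h7 : 2 * ((Y : ℝ) / q) * es (fun p => 1 / (p : ℝ)) T r ≤
      2 * Y * Real.exp (3 * (1 + Real.log z) - r) := by
    have h8 : 0 ≤ es (fun p => 1 / (p : ℝ)) T r := es_nonneg (fun p _ => by positivity) r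
    gcongr
  linarith

/-- sizes -/
theorem z_size (E : ℕ) : ∀ᶠ l : ℝ in atTop, ∀ z : ℕ, (z : ℝ) ≤ Real.log (NN l) ^ E →
    (z : ℝ) + 1 ≤ l ^ (40 * E + 1) ∧ Real.exp (3 * (1 + Real.log z)) ≤ l ^ (120 * E + 6) := by
  filter_upwards [NN_bd, eventually_ge_atTop (10 : ℝ)] with l h1 h2 z hz
  obtain ⟨-, -, h3, h4⟩ := h1
  have hL0 : 0 ≤ Real.log (NN l) := le_trans (by positivity) h3
  have h40 : Real.log (NN l) ≤ l ^ 40 := by
    have : (0 : ℝ) ≤ l ^ 40 := by positivity
    linarith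
  have h5 : (z : ℝ) ≤ l ^ (40 * E) := by
    calc (z : ℝ) ≤ Real.log (NN l) ^ E := hz
      _ ≤ (l ^ 40) ^ E := by gcongr
      _ = l ^ (40 * E) := by rw [← pow_mul]
  have h6 : (1 : ℝ) ≤ l ^ (40 * E) := one_le_pow₀ (by linarith)
  have h7 : (z : ℝ) + 1 ≤ l ^ (40 * E + 1) := by
    rw [pow_succ]
    nlinarith
  refine ⟨h7, ?_⟩
  rcases Nat.eq_zero_or_pos z with h | h
  · rw [h, Nat.cast_zero, Real.log_zero, add_zero, mul_one]
    have e1 : Real.exp 3 ≤ 10 ^ 2 := by
      have e2 := Real.exp_one_lt_d9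
      have e3 : Real.exp 3 = Real.exp 1 ^ 3 := by rw [← Real.exp_nat_mul]; norm_num
      rw [e3]
      calc Real.exp 1 ^ 3 ≤ 3 ^ 3 := by gcongr; linarith
        _ ≤ 10 ^ 2 := by norm_num
    calc Real.exp 3 ≤ 10 ^ 2 := e1
      _ ≤ l ^ 2 := by gcongr
      _ ≤ l ^ (120 * E + 6) := pow_le_pow_right₀ (by linarith) (by omega)
  · have hz0 : (0 : ℝ) < z := by exact_mod_cast h
    have e1 : Real.exp (3 * (1 + Real.log z)) = Real.exp 3 * (z : ℝ) ^ 3 := by
      rw [mul_add, mul_one, Real.exp_add, mul_comm (3 : ℝ) (Real.log z), Real.exp_mul, Real.exp_log hz0]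
      norm_cast
    have e2 : Real.exp 3 ≤ 10 ^ 2 := by
      have e2 := Real.exp_one_lt_d9
      have e3 : Real.exp 3 = Real.exp 1 ^ 3 := by rw [← Real.exp_nat_mul]; norm_num
      rw [e3]
      calc Real.exp 1 ^ 3 ≤ 3 ^ 3 := by gcongr; linarith
        _ ≤ 10 ^ 2 := by norm_num
    rw [e1]
    calc Real.exp 3 * (z : ℝ) ^ 3 ≤ l ^ 2 * (l ^ (40 * E)) ^ 3 := by
          apply mul_le_mul (e2.trans (by gcongr)) (by gcongr) (by positivity) (by positivity)
      _ = l ^ (120 * E + 2) := by rw [← pow_mul, ← pow_add]; congr 1; ring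
      _ ≤ _ := pow_le_pow_right₀ (by linarith) (by omega)

/-- the sieve error -/
theorem sieve_err (E : ℕ) : ∀ᶠ l : ℝ in atTop, ∀ z : ℕ, (z : ℝ) ≤ Real.log (NN l) ^ E → ∀ t : ℕ, t ≤ NN l →
    ((z : ℝ) + 1) ^ ⌈l⌉₊ + 2 * t * Real.exp (3 * (1 + Real.log z) - ⌈l⌉₊) ≤
      Real.exp (l ^ 40 / 2 - l / 2) := by
  filter_upwards [NN_bd, z_size E, eventually_ge_atTop (10 : ℝ), pow_le_exp (40 * E + 1) 1 2 one_pos,
    pow_le_exp 4 (1 / 2) (120 * E + 6) (by norm_num), eventually_ge_atTop (40 * E + 10 : ℝ)] with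
    l h1 h2 h3 h4 h5 h6 z hz t ht
  obtain ⟨a1, a2⟩ := h2 z hz
  obtain ⟨b1, -, -, -⟩ := h1
  have hr1 : l ≤ (⌈l⌉₊ : ℝ) := Nat.le_ceil _
  have hr2 : (⌈l⌉₊ : ℝ) ≤ l + 1 := (Nat.ceil_lt_add_one (by linarith)).le
  have hz1 : (0 : ℝ) < (z : ℝ) + 1 := by positivity
  -- first term
  have c1 : ((z : ℝ) + 1) ^ ⌈l⌉₊ ≤ Real.exp (l ^ 40 / 4) := by
    have d1 : Real.log ((z : ℝ) + 1) ≤ (40 * E + 1) * l := by
      have e1 := Real.log_le_log hz1 a1
      rw [Real.log_pow] at e1
      have e2 : Real.log l ≤ l := by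
        have := Real.log_le_sub_one_of_pos (show 0 < l by linarith)
        linarith
      refine e1.trans ?_
      push_cast
      gcongr
    have d2 : ((z : ℝ) + 1) ^ ⌈l⌉₊ = Real.exp (⌈l⌉₊ * Real.log ((z : ℝ) + 1)) := by
      rw [Real.exp_nat_mul, Real.exp_log hz1]
    rw [d2]
    apply Real.exp_le_exp.2
    have d3 : 0 ≤ Real.log ((z : ℝ) + 1) := Real.log_nonneg (by
      have : (0 : ℝ) ≤ z := Nat.cast_nonneg _
      linarith)
    calc (⌈l⌉₊ : ℝ) * Real.log ((z : ℝ) + 1) ≤ (l + 1) * ((40 * E + 1) * l) := by gcongr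
      _ ≤ (2 * l) * (l * l) := by
          apply mul_le_mul (by linarith) _ (by positivity) (by positivity)
          gcongr
          linarith
      _ ≤ l ^ 40 / 4 := by
          have d4 : (10 : ℝ) ^ 37 ≤ l ^ 37 := by gcongr
          have d5 : l ^ 40 = l ^ 37 * (l * (l * l)) := by ring
          rw [d5]
          have d6 : 0 < l * (l * l) := by positivity
          have d7 : (8 : ℝ) ≤ 10 ^ 37 := by norm_num
          nlinarith
  have c2 : 2 * (t : ℝ) * Real.exp (3 * (1 + Real.log z) - ⌈l⌉₊) ≤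
      Real.exp (l ^ 40 / 2) * (2 * l ^ (120 * E + 6) * Real.exp (-l)) := by
    have d1 : (t : ℝ) ≤ Real.exp (l ^ 40 / 2) := le_trans (by exact_mod_cast ht) b1
    have d2 : Real.exp (3 * (1 + Real.log z) - ⌈l⌉₊) ≤ l ^ (120 * E + 6) * Real.exp (-l) := by
      rw [sub_eq_add_neg, Real.exp_add]
      apply mul_le_mul a2 _ (by positivity) (by positivity)
      apply Real.exp_le_exp.2
      linarith
    calc 2 * (t : ℝ) * Real.exp (3 * (1 + Real.log z) - ⌈l⌉₊) ≤
          2 * Real.exp (l ^ 40 / 2) * (l ^ (120 * E + 6) * Real.exp (-l)) := by gcongr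
      _ = _ := by ring
  have c3 : Real.exp (l ^ 40 / 4) ≤ Real.exp (l ^ 40 / 2 - l / 2) / 2 := by
    have d1 : (2 : ℝ) ≤ Real.exp l := by
      have := Real.add_one_le_exp l
      linarith
    rw [le_div_iff₀ (by norm_num)]
    calc Real.exp (l ^ 40 / 4) * 2 ≤ Real.exp (l ^ 40 / 4) * Real.exp l := by gcongr
      _ = Real.exp (l ^ 40 / 4 + l) := by rw [Real.exp_add]
      _ ≤ _ := by
          apply Real.exp_le_exp.2
          have d4 : (10 : ℝ) ^ 39 ≤ l ^ 39 := by gcongr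
          have d5 : l ^ 40 = l ^ 39 * l := by ring
          rw [d5]
          have d7 : (8 : ℝ) ≤ 10 ^ 39 := by norm_num
          nlinarith
  have c4 : Real.exp (l ^ 40 / 2) * (2 * l ^ (120 * E + 6) * Real.exp (-l)) ≤
      Real.exp (l ^ 40 / 2 - l / 2) / 2 := by
    have d1 : 2 * l ^ (120 * E + 6) ≤ Real.exp (1 / 2 * l) / 2 := by linarith
    calc Real.exp (l ^ 40 / 2) * (2 * l ^ (120 * E + 6) * Real.exp (-l)) ≤
          Real.exp (l ^ 40 / 2) * (Real.exp (1 / 2 * l) / 2 * Real.exp (-l)) := by gcongr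
      _ = (Real.exp (l ^ 40 / 2) * (Real.exp (1 / 2 * l) * Real.exp (-l))) / 2 := by ring
      _ = Real.exp (l ^ 40 / 2 - l / 2) / 2 := by
          rw [← Real.exp_add, ← Real.exp_add]
          congr 2
          ring
  linarith

/-- the difference between the von Mangoldt function and the sieve model -/
noncomputable def GR (z n : ℕ) : ℝ := ArithmeticFunction.vonMangoldt n - lamz z n

/-- the difference in residue classes -/
theorem cls_small (E : ℕ) : ∀ᶠ l : ℝ in atTop, APl l → ∀ z : ℕ, 1 ≤ z → (z : ℝ) ≤ Real.log (NN l) ^ E →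
    ∀ m b : ℕ, 1 ≤ m → (m : ℝ) ≤ Real.exp (l / 100) → (∀ p, p.Prime → p ∣ m → p ≤ z) → ∀ t : ℕ, t ≤ NN l →
      |∑ n ∈ (Icc 1 t).filter (fun n => n ≡ b [MOD m]), GR z n| ≤ Real.exp (l ^ 40 / 2 - l / 6) := by
  filter_upwards [NN_bd, sieve_err E, ev_NN (Vz_inv_small E), eventually_ge_atTop (100 : ℝ),
    pow_le_exp 2 (1 / 6) 40 (by norm_num), pow_le_exp 3 1 80 one_pos] with
    l h1 h2 h3 h4 h5 h6 hAP z hz1 hz m b hm hmE hmz t ht
  obtain ⟨b1, b2, b3, b4⟩ := h1
  have hV := h3 z hz1 hz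
  have htE : (t : ℝ) ≤ Real.exp (l ^ 40 / 2) := le_trans (by exact_mod_cast ht) b1
  have hL40 : Real.log (NN l) ≤ l ^ 40 := by
    have : (0 : ℝ) ≤ l ^ 40 := by positivity
    linarith
  have hhalf : Real.exp (l ^ 40 / 2 - l / 5) ≤ Real.exp (l ^ 40 / 2 - l / 6) / 2 := by
    rw [le_div_iff₀ (by norm_num)]
    have d1 : (2 : ℝ) ≤ Real.exp (l / 30) := by
      have := Real.add_one_le_exp (l / 30)
      linarith
    calc Real.exp (l ^ 40 / 2 - l / 5) * 2 ≤ Real.exp (l ^ 40 / 2 - l / 5) * Real.exp (l / 30) := by gcongr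
      _ = Real.exp (l ^ 40 / 2 - l / 6) := by
          rw [← Real.exp_add]
          congr 1
          ring
  by_cases hbm : b.Coprime m
  · have e1 := hAP m b hm hmE hbm t htE
    have e2 := (rough z m b t ⌈l⌉₊ hm hbm hmz).trans (h2 z hz t ht)
    have e3 : ∑ n ∈ (Icc 1 t).filter (fun n => n ≡ b [MOD m]), GR z n =
        (∑ n ∈ (Icc 1 t).filter (fun n => n ≡ b [MOD m]), ArithmeticFunction.vonMangoldt n -
          t / (Nat.totient m : ℝ)) - (Vz z)⁻¹ * (((((Icc 1 t).filter (fun n => n ≡ b [MOD m])).filter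
            (fun n => ∀ p ∈ pz z, ¬ p ∣ n)).card : ℝ) - (t : ℝ) / (Nat.totient m : ℝ) * Vz z) := by
      have f1 : ∑ n ∈ (Icc 1 t).filter (fun n => n ≡ b [MOD m]), lamz z n =
          (Vz z)⁻¹ * ((((Icc 1 t).filter (fun n => n ≡ b [MOD m])).filter
            (fun n => ∀ p ∈ pz z, ¬ p ∣ n)).card : ℝ) := by
        unfold lamz
        rw [← sum_filter, sum_const, nsmul_eq_mul, mul_comm]
      unfold GR
      rw [sum_sub_distrib, f1, mul_sub]
      have f2 : (Vz z)⁻¹ * ((t : ℝ) / (Nat.totient m : ℝ) * Vz z) = t / (Nat.totient m : ℝ) := by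
        have := (Vz_pos z).ne'
        field_simp
      rw [f2]
      ring
    rw [e3]
    refine (abs_sub _ _).trans ?_
    have e4 : |(Vz z)⁻¹ * (((((Icc 1 t).filter (fun n => n ≡ b [MOD m])).filter
            (fun n => ∀ p ∈ pz z, ¬ p ∣ n)).card : ℝ) - (t : ℝ) / (Nat.totient m : ℝ) * Vz z)| ≤
        Real.exp (l ^ 40 / 2 - l / 6) / 2 := by
      have hV0 : 0 < (Vz z)⁻¹ := inv_pos.2 (Vz_pos z)
      rw [abs_mul, abs_of_pos hV0]
      calc (Vz z)⁻¹ * _ ≤ l ^ 40 * Real.exp (l ^ 40 / 2 - l / 2) := by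
            apply mul_le_mul (hV.trans hL40) e2 (abs_nonneg _) (by positivity)
        _ ≤ (Real.exp (1 / 6 * l) / 2) * Real.exp (l ^ 40 / 2 - l / 2) := by
            apply mul_le_mul_of_nonneg_right _ (Real.exp_pos _).le
            linarith
        _ = Real.exp (l ^ 40 / 2 - l / 3) / 2 := by
            rw [div_mul_eq_mul_div, ← Real.exp_add]
            congr 2
            ring
        _ ≤ _ := by
            apply div_le_div_of_nonneg_right _ (by norm_num)
            apply Real.exp_le_exp.2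
            linarith
    linarith
  · -- a common prime factor
    obtain ⟨p, hp, hpb, hpm⟩ := Nat.Prime.not_coprime_iff_dvd.1 hbm
    have e1 : ∀ n ∈ (Icc 1 t).filter (fun n => n ≡ b [MOD m]), GR z n = ArithmeticFunction.vonMangoldt n := by
      intro n hn
      rw [mem_filter] at hn
      unfold GR lamz
      rw [if_neg, sub_zero]
      intro h
      exact h p (mem_pz.2 ⟨hmz p hp hpm, hp⟩) ((hn.2.dvd_iff hpm).2 hpb)
    rw [sum_congr rfl e1, abs_of_nonneg (sum_nonneg fun _ _ => ArithmeticFunction.vonMangoldt_nonneg)]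
    have e2 : ∑ n ∈ (Icc 1 t).filter (fun n => n ≡ b [MOD m]), ArithmeticFunction.vonMangoldt n ≤
        ∑ n ∈ (Icc 1 t).filter (fun n => p ∣ n), ArithmeticFunction.vonMangoldt n := by
      apply sum_le_sum_of_subset_of_nonneg
      · intro n hn
        rw [mem_filter] at hn ⊢
        exact ⟨hn.1, (hn.2.dvd_iff hpm).2 hpb⟩
      · intro _ _ _
        exact ArithmeticFunction.vonMangoldt_nonneg
    refine e2.trans ((lam_mult_prime t p hp).trans ?_)
    rcases Nat.eq_zero_or_pos t with ht0 | ht0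
    · rw [ht0]
      simp only [Nat.cast_zero, Real.log_zero, mul_zero]
      exact (Real.exp_pos _).le
    · have f0 : Real.log t ≤ l ^ 40 := by
        refine le_trans ?_ hL40
        exact Real.log_le_log (by exact_mod_cast ht0) (by exact_mod_cast ht)
      have f1 : 0 ≤ Real.log (t : ℝ) := Real.log_natCast_nonneg _
      have f2 : (Nat.log 2 t : ℝ) ≤ 2 * Real.log t := natlog_le t ht0
      have f3 : (1 : ℝ) ≤ l ^ 40 := one_le_pow₀ (by linarith)
      calc ((Nat.log 2 t : ℝ) + 1) * Real.log t ≤ (2 * l ^ 40 + l ^ 40) * l ^ 40 := by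
            apply mul_le_mul _ f0 f1 (by positivity)
            linarith
        _ = 3 * l ^ 80 := by ring
        _ ≤ Real.exp (1 * l) := h6
        _ ≤ _ := by
            apply Real.exp_le_exp.2
            have d4 : (100 : ℝ) ^ 39 ≤ l ^ 39 := by gcongr
            have d5 : l ^ 40 = l ^ 39 * l := by ring
            rw [d5]
            have d7 : (8 : ℝ) ≤ 100 ^ 39 := by norm_num
            nlinarith

/-- the difference, as a complex sequence -/
noncomputable def GG (z n : ℕ) : ℂ := ((GR z n : ℝ) : ℂ)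

theorem cl_small (E C : ℕ) : ∀ᶠ l : ℝ in atTop, APl l → ∀ z : ℕ, 1 ≤ z → (z : ℝ) ≤ Real.log (NN l) ^ E →
    ∀ (m : ℕ) [NeZero m], (m : ℝ) ≤ Real.exp (l / 100) → (∀ p, p.Prime → p ∣ m → p ≤ z) →
      ∀ η : ℝ, |η| ≤ Real.log (NN l) ^ C / NN l → ∀ b : ZMod m,
        ‖cl m (NN l) (GG z) η b‖ ≤ Real.exp (l ^ 40 / 2 - l / 7) := by
  filter_upwards [NN_bd, cls_small E, eventually_ge_atTop (100 : ℝ),
    pow_le_exp 8 (1 / 42) (40 * C) (by norm_num)] with
    l h1 h2 h3 h4 hAP z hz1 hz m _ hmE hmz η hη b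
  obtain ⟨b1, b2, b3, b4⟩ := h1
  have hN0 : (0 : ℝ) < NN l := by linarith [Real.exp_pos (l ^ 40 / 2)]
  have hL0 : 0 ≤ Real.log (NN l) := le_trans (by positivity) b3
  have hL40 : Real.log (NN l) ≤ l ^ 40 := by
    have : (0 : ℝ) ≤ l ^ 40 := by positivity
    linarith
  have hcls := h2 hAP z hz1 hz m b.val (NeZero.pos m) hmE hmz
  set E1 := Real.exp (l ^ 40 / 2 - l / 6) with hE1
  set a : ℕ → ℂ := fun i => if i < NN l then (if ((i + 1 : ℕ) : ZMod m) = b then GG z (i + 1) else 0) else 0 with ha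
  have hpart : ∀ n, ‖∑ i ∈ range n, a i‖ ≤ E1 := by
    intro n
    have e1 : ∑ i ∈ range n, a i = ∑ i ∈ range (min n (NN l)), (if ((i + 1 : ℕ) : ZMod m) = b then GG z (i + 1) else 0) := by
      rw [ha, ← sum_filter]
      congr 1
      ext i
      rw [mem_filter, mem_range, mem_range]
      omega
    have e2 : ∑ i ∈ range (min n (NN l)), (if ((i + 1 : ℕ) : ZMod m) = b then GG z (i + 1) else 0) =
        ((∑ k ∈ (Icc 1 (min n (NN l))).filter (fun k => k ≡ b.val [MOD m]), GR z k : ℝ) : ℂ) := by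
      rw [Finset.range_eq_Ico, Finset.sum_Ico_add' (fun k : ℕ => if ((k : ℕ) : ZMod m) = b then GG z k else 0) 0
        (min n (NN l)) 1, Complex.ofReal_sum, ← sum_filter]
      apply sum_congr
      · ext k
        simp only [mem_filter, mem_Icc, mem_Ico]
        have : (k : ZMod m) = b ↔ k ≡ b.val [MOD m] := by
          rw [← ZMod.natCast_eq_natCast_iff, ZMod.natCast_zmod_val]
        rw [this]
        constructor
        · rintro ⟨⟨h5, h6⟩, h7⟩
          exact ⟨⟨by omega, by omega⟩, h7⟩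
        · rintro ⟨⟨h5, h6⟩, h7⟩
          exact ⟨⟨by omega, by omega⟩, h7⟩
      · intro k _
        rfl
    rw [e1, e2, Complex.norm_real, Real.norm_eq_abs]
    exact hcls _ (min_le_right _ _)
  have hcl : cl m (NN l) (GG z) η b = ∑ i ∈ range (NN l), ee (((i + 1 : ℕ) : ℝ) * η) * a i := by
    unfold cl
    rw [sum_filter, Finset.range_eq_Ico]
    have e1 : ∀ i ∈ Ico 0 (NN l), ee (((i + 1 : ℕ) : ℝ) * η) * a i =
        (fun k : ℕ => if (k : ZMod m) = b then GG z k * ee (k * η) else 0) (i + 1) := by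
      intro i hi
      rw [mem_Ico] at hi
      simp only [ha]
      rw [if_pos hi.2]
      split_ifs
      · ring
      · rw [mul_zero]
    rw [sum_congr rfl e1, Finset.sum_Ico_add' (fun k : ℕ => if (k : ZMod m) = b then GG z k * ee (k * η) else 0) 0
      (NN l) 1]
    apply sum_congr _ fun _ _ => rfl
    ext k
    simp only [mem_Icc, mem_Ico]
    omega
  rw [hcl]
  have e1 := Pool.Agent.Y948.GJ.abel (a := a) (w := fun i => ee (((i + 1 : ℕ) : ℝ) * η)) (C := E1) (δ := 7 * |η|)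
    hpart (fun i => (norm_ee _).le) (fun i => by
      have e2 : ee (((i + 1 + 1 : ℕ) : ℝ) * η) - ee (((i + 1 : ℕ) : ℝ) * η) =
          ee (((i + 1 : ℕ) : ℝ) * η) * (ee η - 1) := by
        have e3 : (((i + 1 + 1 : ℕ) : ℝ) * η) = ((i + 1 : ℕ) : ℝ) * η + η := by
          push_cast; ring
        rw [e3, Pool.Agent.H807R2.Dav.ee_add]
        ring
      rw [e2, norm_mul, norm_ee, one_mul]
      exact Pool.Agent.Y948.GJ.ee_sub_one _) (NN l)
  refine e1.trans ?_
  have e2 : 7 * |η| * NN l ≤ 7 * l ^ (40 * C) := by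
    have f1 : |η| * NN l ≤ Real.log (NN l) ^ C := by
      rwa [le_div_iff₀ hN0] at hη
    have f2 : Real.log (NN l) ^ C ≤ l ^ (40 * C) := by
      rw [pow_mul]
      gcongr
    linarith
  have e3 : (1 : ℝ) ≤ l ^ (40 * C) := one_le_pow₀ (by linarith)
  calc E1 * (1 + 7 * |η| * NN l) ≤ E1 * Real.exp (1 / 42 * l) := by
        apply mul_le_mul_of_nonneg_left _ (Real.exp_pos _).le
        linarith
    _ = Real.exp (l ^ 40 / 2 - l / 7) := by
        rw [hE1, ← Real.exp_add]
        congr 1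
        ring

end Pool.Agent.K9h54.MP
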