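import Pool.Agent.N232.SP.AP
import Pool.Agent.N690.SP.SPT
import Pool.Agent.N658.SP.ZP
import Pool.Agent.N457.SP.TEL
import Pool.Agent.N475.SP.SC
import Pool.Agent.N728.SP.GS

set_option autoImplicit false

/-!
# Maier's phenomenon for prime pairs at almost all distances: good scales
-/

namespace Pool.Agent.K9h54.MP

open Finset Filter Topology

/-- the prime number theorem for arithmetic progressions with differences up to `exp (l / 100)`
at the scale `exp (l ^ 40 / 2)` -/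
def APl (l : ℝ) : Prop := ∀ q b : ℕ, 1 ≤ q → (q : ℝ) ≤ Real.exp (l / 100) →
  b.Coprime q → ∀ z : ℕ, (z : ℝ) ≤ Real.exp (l ^ 40 / 2) →
    |∑ n ∈ (Icc 1 z).filter (fun n => n ≡ b [MOD q]), ArithmeticFunction.vonMangoldt n -
      z / (Nat.totient q : ℝ)| ≤ Real.exp (l ^ 40 / 2 - l / 5)

/-- there are arbitrarily large good scales -/
theorem scales (L₀ : ℝ) : ∃ l, L₀ ≤ l ∧ APl l := by
  obtain ⟨d, hd, hd2, hG⟩ := Pool.Agent.N728.SP.GS.t_GS
  obtain ⟨l1, h1⟩ := Pool.Agent.N475.SP.t_SC Pool.Agent.N457.SP.t_TEL d hd hd2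
  obtain ⟨l2, h2⟩ := Pool.Agent.N232.SP.t_AP
    (Pool.Agent.N690.SP.t_SP Pool.Agent.N658.SP.t_ZP Pool.Agent.N457.SP.t_TEL)
  obtain ⟨l, hl, hZ⟩ := hG (max (max l1 l2) (max L₀ 1))
  have b1 : l1 ≤ l := ((le_max_left _ _).trans (le_max_left _ _)).trans hl
  have b2 : l2 ≤ l := ((le_max_right _ _).trans (le_max_left _ _)).trans hl
  have b3 : L₀ ≤ l := ((le_max_left _ _).trans (le_max_right _ _)).trans hl
  have b4 : 1 ≤ l := ((le_max_right _ _).trans (le_max_right _ _)).trans hl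
  refine ⟨l, b3, fun q b hq hqe hb z hz => ?_⟩
  apply h2 l b2 (h1 l b1 hZ) q b hq hqe hb z
  refine hz.trans (Real.exp_le_exp.2 ?_)
  linarith

/-- the scale -/
noncomputable def NN (l : ℝ) : ℕ := ⌊Real.exp (l ^ 40 / 2)⌋₊

theorem pow_le_exp (K b : ℝ) (k : ℕ) (hb : 0 < b) : ∀ᶠ l : ℝ in atTop, K * l ^ k ≤ Real.exp (b * l) := by
  obtain ⟨a, ha⟩ := Pool.Agent.N475.SP.dom K b k hb
  filter_upwards [eventually_ge_atTop a] with l hl using ha l hl

theorem NN_bd : ∀ᶠ l : ℝ in atTop, (NN l : ℝ) ≤ Real.exp (l ^ 40 / 2) ∧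
    Real.exp (l ^ 40 / 2) / 2 ≤ NN l ∧ l ^ 40 / 4 ≤ Real.log (NN l) ∧ Real.log (NN l) ≤ l ^ 40 / 2 := by
  filter_upwards [eventually_ge_atTop (10 : ℝ)] with l hl
  have h40 : l ≤ l ^ 40 := le_self_pow₀ (by linarith) (by norm_num)
  have he : (2 : ℝ) ≤ Real.exp (l ^ 40 / 2) := by
    have := Real.add_one_le_exp (l ^ 40 / 2)
    linarith
  have h1 : (NN l : ℝ) ≤ Real.exp (l ^ 40 / 2) := Nat.floor_le (Real.exp_pos _).le
  have h2 : Real.exp (l ^ 40 / 2) / 2 ≤ NN l := by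
    have := Nat.lt_floor_add_one (Real.exp (l ^ 40 / 2))
    unfold NN
    linarith
  have h0 : (0 : ℝ) < NN l := by linarith [Real.exp_pos (l ^ 40 / 2)]
  refine ⟨h1, h2, ?_, ?_⟩
  · rw [Real.le_log_iff_exp_le h0]
    refine le_trans ?_ h2
    have h3 : Real.exp (l ^ 40 / 2) = Real.exp (l ^ 40 / 4) * Real.exp (l ^ 40 / 4) := by
      rw [← Real.exp_add]
      congr 1
      ring
    have h4 : (2 : ℝ) ≤ Real.exp (l ^ 40 / 4) := by
      have := Real.add_one_le_exp (l ^ 40 / 4)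
      linarith
    have h5 := Real.exp_pos (l ^ 40 / 4)
    rw [h3]
    nlinarith
  · rw [Real.log_le_iff_le_exp h0]
    exact h1

theorem NN_tendsto : Tendsto NN atTop atTop := by
  have h1 : Tendsto (fun l : ℝ => Real.exp (l ^ 40 / 2)) atTop atTop := by
    apply Real.tendsto_exp_atTop.comp
    exact (tendsto_pow_atTop (by norm_num)).atTop_div_const (by norm_num)
  exact tendsto_nat_floor_atTop.comp h1

/-- everything which holds for all large `N` holds at all large scales -/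
theorem ev_NN {p : ℕ → Prop} (h : ∃ N₀ : ℕ, ∀ N : ℕ, N₀ ≤ N → p N) : ∀ᶠ l : ℝ in atTop, p (NN l) := by
  obtain ⟨N₀, h0⟩ := h
  filter_upwards [NN_tendsto.eventually_ge_atTop N₀] with l hl using h0 _ hl

end Pool.Agent.K9h54.MP
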