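import Pool.Agent.K9h54.MP.Maj
import Pool.Agent.W93.GB3

set_option autoImplicit false

/-!
# Maier's phenomenon for prime pairs at almost all distances: the primes and the model in residue classes
-/

namespace Pool.Agent.K9h54.MP

open Finset Filter Topology
open Pool.Agent.H373R2.T7 (lamz Vz pz Vz_pos Vz_inv_small mem_pz sieve_gen' card_small card_pz_le es es_le
  es_nonneg sum_pz_le lam_mult_prime natlog_le)
open Pool.Agent.Y614.GJ.Core (q_le_phi)

/-- the density of the primes `m` with `p ∣ m + h` -/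
noncomputable def gh (h p : ℕ) : ℝ := if p ∣ h then 0 else 1 / ((p : ℝ) - 1)

/-- a modulus made of distinct primes -/
theorem tot_prod (S : Finset ℕ) (hS : ∀ p ∈ S, p.Prime) :
    ((Nat.totient (∏ p ∈ S, p) : ℕ) : ℝ) = ∏ p ∈ S, ((p : ℝ) - 1) := by
  classical
  induction S using Finset.induction_on with
  | empty => simp
  | insert p S hp ih =>
    have hpp := hS p (mem_insert_self _ _)
    have hcop : Nat.Coprime p (∏ p ∈ S, p) := by
      rw [Nat.coprime_prod_right_iff]
      intro p' hp'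
      rw [Nat.coprime_primes hpp (hS p' (mem_insert_of_mem hp'))]
      rintro rfl
      exact hp hp'
    rw [prod_insert hp, prod_insert hp, Nat.totient_mul hcop, Nat.totient_prime hpp, Nat.cast_mul,
      ih (fun p' h => hS p' (mem_insert_of_mem h)), Nat.cast_sub hpp.one_le, Nat.cast_one]

/-- the primes with `d ∣ m + h` -/
theorem cls_count {l : ℝ} (hAP : APl l) {q s h M : ℕ} (hq : 1 ≤ q) (hs : s.Coprime q) (S : Finset ℕ)
    (hS : ∀ p ∈ S, p.Prime ∧ ¬ p ∣ q) (hSq : ((q * ∏ p ∈ S, p : ℕ) : ℝ) ≤ Real.exp (l / 100))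
    (hM : (M : ℝ) ≤ Real.exp (l ^ 40 / 2)) :
    |∑ m ∈ (Icc 1 M).filter (fun m => m ≡ s [MOD q]) with ∀ p ∈ S, p ∣ m + h, ArithmeticFunction.vonMangoldt m -
      (M : ℝ) / (Nat.totient q : ℝ) * ∏ p ∈ S, gh h p| ≤
      Real.exp (l ^ 40 / 2 - l / 5) + (Nat.log 2 M + 1 : ℝ) * Real.log M := by
  classical
  have hpos : 0 ≤ (Nat.log 2 M + 1 : ℝ) * Real.log M := by
    have := Real.log_natCast_nonneg M
    positivity
  by_cases hall : ∀ p ∈ S, ¬ p ∣ h
  · obtain ⟨d, hd⟩ : ∃ d, d = ∏ p ∈ S, p := ⟨_, rfl⟩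
    have hd0 : 0 < d := by
      rw [hd]
      exact prod_pos fun p hp => (hS p hp).1.pos
    have hqd : q.Coprime d := by
      rw [hd, Nat.coprime_prod_right_iff]
      intro p hp
      rw [Nat.coprime_comm]
      exact ((hS p hp).1.coprime_iff_not_dvd).2 (hS p hp).2
    have hdh : Nat.Coprime d h := by
      rw [hd, Nat.coprime_prod_left_iff]
      intro p hp
      exact ((hS p hp).1.coprime_iff_not_dvd).2 (hall p hp)
    obtain ⟨b, hb⟩ : ∃ b : ℕ, b = Nat.chineseRemainder hqd s (h * (d - 1)) := ⟨_, rfl⟩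
    have hb1 : b ≡ s [MOD q] := by rw [hb]; exact (Nat.chineseRemainder hqd s (h * (d - 1))).2.1
    have hb2 : b ≡ h * (d - 1) [MOD d] := by rw [hb]; exact (Nat.chineseRemainder hqd s (h * (d - 1))).2.2
    have hbh : d ∣ b + h := by
      have h1 := hb2.add_right h
      have h2 : h * (d - 1) + h = d * h := by
        obtain ⟨k, hk⟩ : ∃ k, d = k + 1 := ⟨d - 1, by omega⟩
        rw [hk, Nat.add_sub_cancel]
        ring
      rw [h2] at h1
      exact Nat.modEq_zero_iff_dvd.1 (h1.trans (Nat.modEq_zero_iff_dvd.2 (dvd_mul_right d h)))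
    have hbcop : b.Coprime (q * d) := by
      rw [Nat.coprime_mul_iff_right]
      constructor
      · have := hb1.gcd_eq
        rw [Nat.Coprime, this]
        exact hs
      · rw [Nat.Coprime]
        by_contra hne
        obtain ⟨p, hp, hpb, hpd⟩ := Nat.Prime.not_coprime_iff_dvd.1 hne
        have h1 : p ∣ h := (Nat.dvd_add_right hpb).1 (hpd.trans hbh)
        have h2 := Nat.dvd_gcd hpd h1
        rw [hdh] at h2
        exact hp.one_lt.ne' (Nat.dvd_one.1 h2)
    have e1 : (((Icc 1 M).filter (fun m => m ≡ s [MOD q])).filter (fun m => ∀ p ∈ S, p ∣ m + h)) =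
        (Icc 1 M).filter (fun m => m ≡ b [MOD (q * d)]) := by
      rw [filter_filter]
      apply filter_congr
      intro m _
      rw [← Nat.modEq_and_modEq_iff_modEq_mul hqd]
      have k1 : (∀ p ∈ S, p ∣ m + h) ↔ m ≡ b [MOD d] := by
        constructor
        · intro hp
          have k2 : d ∣ m + h := by
            rw [hd]
            exact Finset.prod_primes_dvd _ (fun p hpS => (hS p hpS).1.prime) hp
          have k3 : m + h ≡ b + h [MOD d] :=
            (Nat.modEq_zero_iff_dvd.2 k2).trans (Nat.modEq_zero_iff_dvd.2 hbh).symm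
          exact Nat.ModEq.add_right_cancel' h k3
        · intro k2 p hp
          have k3 : d ∣ m + h := by
            have k4 : m + h ≡ b + h [MOD d] := k2.add_right h
            exact Nat.modEq_zero_iff_dvd.1 (k4.trans (Nat.modEq_zero_iff_dvd.2 hbh))
          refine dvd_trans ?_ k3
          rw [hd]
          exact dvd_prod_of_mem _ hp
      rw [k1]
      constructor
      · rintro ⟨k2, k3⟩
        exact ⟨k2.trans hb1.symm, k3⟩
      · rintro ⟨k2, k3⟩
        exact ⟨k2.trans hb1, k3⟩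
    rw [e1]
    have e2 := hAP (q * d) b (Nat.mul_pos hq hd0) (by rw [hd]; exact hSq) hbcop M hM
    have e3 : (M : ℝ) / (Nat.totient q : ℝ) * ∏ p ∈ S, gh h p = M / (Nat.totient (q * d) : ℝ) := by
      rw [Nat.totient_mul hqd, Nat.cast_mul, hd, tot_prod S fun p hp => (hS p hp).1]
      have k1 : ∏ p ∈ S, gh h p = 1 / ∏ p ∈ S, ((p : ℝ) - 1) := by
        rw [one_div, ← prod_inv_distrib]
        apply prod_congr rfl
        intro p hp
        unfold gh
        rw [if_neg (hall p hp), one_div]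
      rw [k1]
      ring
    rw [e3]
    linarith
  · push Not at hall
    obtain ⟨p, hp, hph⟩ := hall
    have e1 : ∏ p ∈ S, gh h p = 0 := by
      apply prod_eq_zero hp
      unfold gh
      rw [if_pos hph]
    rw [e1, mul_zero, sub_zero, abs_of_nonneg (sum_nonneg fun _ _ => ArithmeticFunction.vonMangoldt_nonneg)]
    have e2 : ∑ m ∈ (Icc 1 M).filter (fun m => m ≡ s [MOD q]) with ∀ p ∈ S, p ∣ m + h, ArithmeticFunction.vonMangoldt m ≤
        ∑ m ∈ (Icc 1 M).filter (fun m => p ∣ m), ArithmeticFunction.vonMangoldt m := by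
      apply sum_le_sum_of_subset_of_nonneg
      · intro m hm
        rw [mem_filter, mem_filter] at hm
        rw [mem_filter]
        exact ⟨hm.1.1, (Nat.dvd_add_left hph).1 (hm.2 p hp)⟩
      · intro _ _ _
        exact ArithmeticFunction.vonMangoldt_nonneg
    have e3 := lam_mult_prime M p (hS p hp).1
    linarith [Real.exp_pos (l ^ 40 / 2 - l / 5)]

/-- the main term -/
theorem sieve_main (E U : ℕ) : ∀ᶠ l : ℝ in atTop, APl l → ∀ z : ℕ, 1 ≤ z → (z : ℝ) ≤ Real.log (NN l) ^ E →
    ∀ q s h M : ℕ, 1 ≤ q → (q : ℝ) ≤ Real.exp (l / 300) → s.Coprime q → (s + h).Coprime q → M ≤ NN l →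
      |∑ m ∈ (Icc 1 M).filter (fun m => m ≡ s [MOD q]), ArithmeticFunction.vonMangoldt m * lamz z (m + h) -
        (M : ℝ) / (Nat.totient q : ℝ) * ((Vz z)⁻¹ * ∏ p ∈ (pz z).filter (fun p => ¬ p ∣ q), (1 - gh h p))| ≤
      (NN l : ℝ) / (q * Real.log (NN l) ^ U) := by
  obtain ⟨K, hK⟩ : ∃ K : ℕ, K = 93 + 240 * E + 40 * U := ⟨_, rfl⟩
  have hlim : Tendsto Real.log atTop atTop := Real.tendsto_log_atTop
  have hlog2 : ∀ᶠ l : ℝ in atTop, Real.log l ^ 2 ≤ 1 / (2 * K * (40 * E + 1) * 200 + 1) * l := by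
    have h3 := (Real.isLittleO_pow_log_id_atTop (n := 2)).bound
      (show (0 : ℝ) < 1 / (2 * K * (40 * E + 1) * 200 + 1) by positivity)
    filter_upwards [h3, eventually_ge_atTop (1 : ℝ)] with l h4 h5
    simp only [id] at h4
    rwa [Real.norm_of_nonneg (by positivity), Real.norm_of_nonneg (by linarith)] at h4
  filter_upwards [NN_bd, z_size E, ev_NN (Vz_inv_small E), eventually_ge_atTop (100 : ℝ),
    pow_le_exp 8 (1 / 10) (40 * U + 40) (by norm_num), pow_le_exp 3 1 80 one_pos, hlog2,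
    hlim.eventually_ge_atTop 1] with
    l h1 h2 h3 h4 h5 h6 h7 h8 hAP z hz1 hz q s h M hq hqE hs hsh hM
  obtain ⟨b1, b2, b3, b4⟩ := h1
  obtain ⟨a1, a2⟩ := h2 z hz
  have hV := h3 z hz1 hz
  have hV0 : 0 < (Vz z)⁻¹ := inv_pos.2 (Vz_pos z)
  set N := NN l with hN
  set L := Real.log (N : ℝ) with hL
  have hN0 : (0 : ℝ) < N := by linarith [Real.exp_pos (l ^ 40 / 2)]
  have hL40 : L ≤ l ^ 40 := by
    have : (0 : ℝ) ≤ l ^ 40 := by positivity
    linarith
  have h40 : (100 : ℝ) ≤ l ^ 39 := by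
    calc (100 : ℝ) ≤ l := h4
      _ ≤ l ^ 39 := le_self_pow₀ (by linarith) (by norm_num)
  have hlL : 25 * l ≤ L := by
    have : l ^ 40 = l ^ 39 * l := by ring
    nlinarith
  have hL0 : 0 < L := by linarith
  have hMN : (M : ℝ) ≤ N := by exact_mod_cast hM
  have hME : (M : ℝ) ≤ Real.exp (l ^ 40 / 2) := hMN.trans b1
  have hq0 : (0 : ℝ) < q := by exact_mod_cast hq
  have hφ0 : (0 : ℝ) < q.totient := by exact_mod_cast Nat.totient_pos.2 hq
  obtain ⟨r, hr⟩ : ∃ r, r = ⌈(K : ℝ) * Real.log l⌉₊ := ⟨_, rfl⟩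
  have hK1 : (1 : ℝ) ≤ K := by
    rw [hK]
    push_cast
    have : (0 : ℝ) ≤ E := Nat.cast_nonneg _
    have : (0 : ℝ) ≤ U := Nat.cast_nonneg _
    linarith
  have hr1 : (K : ℝ) * Real.log l ≤ r := by rw [hr]; exact Nat.le_ceil _
  have hKl : 1 ≤ (K : ℝ) * Real.log l := by nlinarith
  have hr2 : (r : ℝ) ≤ 2 * K * Real.log l := by
    have := (Nat.ceil_lt_add_one (show 0 ≤ (K : ℝ) * Real.log l by linarith)).le
    rw [← hr] at this
    linarith
  -- size of the sieving set
  have hzr : ((z : ℝ) + 1) ^ r ≤ Real.exp (l / 200) := by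
    have hz1' : (0 : ℝ) < (z : ℝ) + 1 := by positivity
    have d1 : Real.log ((z : ℝ) + 1) ≤ (40 * E + 1) * Real.log l := by
      have e1 := Real.log_le_log hz1' a1
      rw [Real.log_pow] at e1
      refine e1.trans ?_
      push_cast
      exact le_rfl
    have d2 : ((z : ℝ) + 1) ^ r = Real.exp (r * Real.log ((z : ℝ) + 1)) := by
      rw [Real.exp_nat_mul, Real.exp_log hz1']
    rw [d2]
    apply Real.exp_le_exp.2
    have d3 : 0 ≤ Real.log ((z : ℝ) + 1) := Real.log_nonneg (by
      have : (0 : ℝ) ≤ z := Nat.cast_nonneg _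
      linarith)
    have d4 : (0 : ℝ) ≤ 40 * E + 1 := by positivity
    calc (r : ℝ) * Real.log ((z : ℝ) + 1) ≤ (2 * K * Real.log l) * ((40 * E + 1) * Real.log l) := by
          apply mul_le_mul hr2 d1 d3
          nlinarith
      _ = (2 * K * (40 * E + 1)) * Real.log l ^ 2 := by ring
      _ ≤ (2 * K * (40 * E + 1)) * (1 / (2 * K * (40 * E + 1) * 200 + 1) * l) := by
          apply mul_le_mul_of_nonneg_left h7
          positivity
      _ ≤ l / 200 := by
          have d5 : (0 : ℝ) < 2 * K * (40 * E + 1) * 200 + 1 := by positivity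
          rw [div_mul_eq_mul_div, one_mul, mul_div_assoc', div_le_div_iff₀ d5 (by norm_num)]
          nlinarith
  -- the sieve
  obtain ⟨T, hT⟩ : ∃ T, T = (pz z).filter (fun p => ¬ p ∣ q) := ⟨_, rfl⟩
  rw [← hT]
  have hTp : ∀ p ∈ T, p.Prime ∧ ¬ p ∣ q ∧ p ≤ z := by
    intro p hp
    rw [hT, mem_filter, mem_pz] at hp
    exact ⟨hp.1.2, hp.2, hp.1.1⟩
  have hsum : ∑ m ∈ (Icc 1 M).filter (fun m => m ≡ s [MOD q]), ArithmeticFunction.vonMangoldt m * lamz z (m + h) =
      (Vz z)⁻¹ * ∑ m ∈ (Icc 1 M).filter (fun m => m ≡ s [MOD q]) with ∀ p ∈ T, ¬ p ∣ m + h,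
        ArithmeticFunction.vonMangoldt m := by
    rw [mul_sum, sum_filter (fun m => ∀ p ∈ T, ¬ p ∣ m + h)]
    apply sum_congr rfl
    intro m hm
    rw [mem_filter] at hm
    unfold lamz
    have k1 : (∀ p ∈ pz z, ¬ p ∣ m + h) ↔ (∀ p ∈ T, ¬ p ∣ m + h) := by
      constructor
      · intro k p hp
        rw [hT] at hp
        exact k p (mem_filter.1 hp).1
      · intro k p hp hd
        by_cases hpq : p ∣ q
        · have k2 : m + h ≡ s + h [MOD q] := hm.2.add_right h
          have k3 : p ∣ s + h := (k2.dvd_iff hpq).1 hd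
          have k4 := Nat.dvd_gcd k3 hpq
          rw [hsh] at k4
          exact (mem_pz.1 hp).2.one_lt.ne' (Nat.dvd_one.1 k4)
        · exact k p (by rw [hT]; exact mem_filter.2 ⟨hp, hpq⟩) hd
    by_cases k : ∀ p ∈ T, ¬ p ∣ m + h
    · rw [if_pos (k1.2 k), if_pos k, mul_comm]
    · rw [if_neg (fun k' => k (k1.1 k')), if_neg k, mul_zero]
  have hg : ∀ p ∈ T, 0 ≤ gh h p ∧ gh h p ≤ 1 := by
    intro p hp
    have hp2 : (2 : ℝ) ≤ p := by exact_mod_cast (hTp p hp).1.two_le
    unfold gh
    split_ifs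
    · exact ⟨le_rfl, zero_le_one⟩
    · constructor
      · apply div_nonneg zero_le_one
        linarith
      · rw [div_le_one (by linarith)]
        linarith
  obtain ⟨R0, hR0⟩ : ∃ R0, R0 = Real.exp (l ^ 40 / 2 - l / 5) + (Nat.log 2 M + 1 : ℝ) * Real.log M := ⟨_, rfl⟩
  have key := sieve_gen' ((Icc 1 M).filter (fun m => m ≡ s [MOD q])) (fun m => ArithmeticFunction.vonMangoldt m)
    (fun _ _ => ArithmeticFunction.vonMangoldt_nonneg) (fun p m => p ∣ m + h) T (gh h) hg
    ((M : ℝ) / (Nat.totient q : ℝ)) (by positivity) (fun _ => R0) r (by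
      intro S hS hSr
      rw [hR0]
      apply cls_count hAP hq hs S (fun p hp => ⟨(hTp p (hS hp)).1, (hTp p (hS hp)).2.1⟩) _ hME
      have k1 : ((∏ p ∈ S, p : ℕ) : ℝ) ≤ ((z : ℝ) + 1) ^ r := by
        push_cast
        calc ∏ p ∈ S, (p : ℝ) ≤ ∏ p ∈ S, ((z : ℝ) + 1) := by
              apply prod_le_prod (fun _ _ => Nat.cast_nonneg _)
              intro p hp
              have : (p : ℝ) ≤ z := by exact_mod_cast (hTp p (hS hp)).2.2
              linarith
          _ = ((z : ℝ) + 1) ^ S.card := by rw [prod_const]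
          _ ≤ ((z : ℝ) + 1) ^ r := by
              apply pow_le_pow_right₀ _ hSr
              have : (0 : ℝ) ≤ z := Nat.cast_nonneg _
              linarith
      rw [Nat.cast_mul]
      calc (q : ℝ) * ((∏ p ∈ S, p : ℕ) : ℝ) ≤ Real.exp (l / 300) * Real.exp (l / 200) := by
            apply mul_le_mul hqE (k1.trans hzr) (Nat.cast_nonneg _) (Real.exp_pos _).le
        _ = Real.exp (l / 300 + l / 200) := by rw [Real.exp_add]
        _ ≤ _ := by
            apply Real.exp_le_exp.2
            linarith)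
  rw [hsum]
  have e1 : (Vz z)⁻¹ * (∑ m ∈ (Icc 1 M).filter (fun m => m ≡ s [MOD q]) with ∀ p ∈ T, ¬ p ∣ m + h,
        ArithmeticFunction.vonMangoldt m) -
      (M : ℝ) / (Nat.totient q : ℝ) * ((Vz z)⁻¹ * ∏ p ∈ T, (1 - gh h p)) =
      (Vz z)⁻¹ * ((∑ m ∈ (Icc 1 M).filter (fun m => m ≡ s [MOD q]) with ∀ p ∈ T, ¬ p ∣ m + h,
        ArithmeticFunction.vonMangoldt m) - (M : ℝ) / (Nat.totient q : ℝ) * ∏ p ∈ T, (1 - gh h p)) := by ring
  rw [e1, abs_mul, abs_of_pos hV0]
  -- the errors
  have hR0b : R0 ≤ 2 * Real.exp (l ^ 40 / 2 - l / 5) := by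
    rw [hR0]
    have : (Nat.log 2 M + 1 : ℝ) * Real.log M ≤ Real.exp (l ^ 40 / 2 - l / 5) := by
      rcases Nat.eq_zero_or_pos M with hM0 | hM0
      · rw [hM0]
        simp only [Nat.cast_zero, Real.log_zero, mul_zero]
        exact (Real.exp_pos _).le
      · have f0 : Real.log M ≤ l ^ 40 := by
          refine le_trans ?_ hL40
          exact Real.log_le_log (by exact_mod_cast hM0) hMN
        have f1 : 0 ≤ Real.log (M : ℝ) := Real.log_natCast_nonneg _
        have f2 : (Nat.log 2 M : ℝ) ≤ 2 * Real.log M := natlog_le M hM0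
        have f3 : (1 : ℝ) ≤ l ^ 40 := one_le_pow₀ (by linarith)
        calc ((Nat.log 2 M : ℝ) + 1) * Real.log M ≤ (2 * l ^ 40 + l ^ 40) * l ^ 40 := by
              apply mul_le_mul _ f0 f1 (by positivity)
              linarith
          _ = 3 * l ^ 80 := by ring
          _ ≤ Real.exp (1 * l) := h6
          _ ≤ _ := by
              apply Real.exp_le_exp.2
              have d5 : l ^ 40 = l ^ 39 * l := by ring
              rw [d5]
              nlinarith
    linarith
  have hR00 : 0 ≤ R0 := by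
    rw [hR0]
    have := Real.log_natCast_nonneg M
    positivity
  have hcard : ∑ j ∈ range (r + 1), ∑ S ∈ T.powersetCard j, R0 ≤ ((z : ℝ) + 1) ^ r * R0 := by
    have h5 := card_small T r
    have h6 : ∑ j ∈ range (r + 1), ∑ S ∈ T.powersetCard j, R0 =
        ((∑ j ∈ range (r + 1), (T.powersetCard j).card : ℕ) : ℝ) * R0 := by
      push_cast
      rw [sum_mul]
      apply sum_congr rfl
      intro j _
      rw [sum_const, nsmul_eq_mul]
    rw [h6]
    apply mul_le_mul_of_nonneg_right _ hR00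
    have h7 : (T.card : ℝ) ≤ z := by
      have : T ⊆ pz z := by rw [hT]; exact filter_subset _ _
      exact_mod_cast (card_le_card this).trans (card_pz_le z)
    have h8 : ((T.card : ℝ) + 1) ^ r ≤ ((z : ℝ) + 1) ^ r := by gcongr
    linarith
  have hes : es (gh h) T r ≤ Real.exp (6 * (1 + Real.log z) - r) := by
    refine (es_le (fun p hp => (hg p hp).1) r).trans ?_
    apply Real.exp_le_exp.2
    have k1 : ∑ p ∈ T, gh h p ≤ 2 * ∑ p ∈ pz z, 1 / (p : ℝ) := by
      rw [mul_sum]
      calc ∑ p ∈ T, gh h p ≤ ∑ p ∈ T, 2 * (1 / (p : ℝ)) := by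
            apply sum_le_sum
            intro p hp
            have hp2 : (2 : ℝ) ≤ p := by exact_mod_cast (hTp p hp).1.two_le
            unfold gh
            split_ifs
            · positivity
            · rw [mul_one_div, div_le_div_iff₀ (by linarith) (by linarith)]
              linarith
        _ ≤ _ := by
            apply sum_le_sum_of_subset_of_nonneg
            · rw [hT]; exact filter_subset _ _
            · intro _ _ _; positivity
    have := sum_pz_le z
    linarith
  have hes2 : es (gh h) T r ≤ l ^ (240 * E + 12) / l ^ K := by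
    refine hes.trans ?_
    have k1 : Real.exp (6 * (1 + Real.log z) - r) = Real.exp (3 * (1 + Real.log z)) ^ 2 * Real.exp (-(r : ℝ)) := by
      rw [← Real.exp_nat_mul, ← Real.exp_add]
      congr 1
      push_cast
      ring
    have k2 : Real.exp (-(r : ℝ)) ≤ 1 / l ^ K := by
      calc Real.exp (-(r : ℝ)) ≤ Real.exp (-((K : ℝ) * Real.log l)) := by
            apply Real.exp_le_exp.2
            linarith
        _ = 1 / l ^ K := by
            rw [Real.exp_neg, Real.exp_nat_mul, Real.exp_log (by linarith), one_div]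
    rw [k1]
    calc Real.exp (3 * (1 + Real.log z)) ^ 2 * Real.exp (-(r : ℝ)) ≤ (l ^ (120 * E + 6)) ^ 2 * (1 / l ^ K) := by
          apply mul_le_mul _ k2 (Real.exp_pos _).le (by positivity)
          gcongr
      _ = l ^ (240 * E + 12) / l ^ K := by
          rw [← pow_mul]
          ring_nf
  have hφq : (M : ℝ) / (Nat.totient q : ℝ) ≤ 3 * L * (N / q) := by
    have k1 := q_le_phi hq
    have k2 : Real.log q ≤ L := by
      have : Real.log q ≤ l / 300 := by
        rw [Real.log_le_iff_le_exp hq0]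
        exact hqE
      linarith
    rw [div_le_iff₀ hφ0]
    have k3 : (q : ℝ) ≤ q.totient * (3 * L) := by
      refine k1.trans ?_
      apply mul_le_mul_of_nonneg_left _ hφ0.le
      linarith
    calc (M : ℝ) ≤ N := hMN
      _ = N / q * q := by field_simp
      _ ≤ N / q * (q.totient * (3 * L)) := by gcongr
      _ = _ := by ring
  have hes0 : 0 ≤ es (gh h) T r := es_nonneg (fun p hp => (hg p hp).1) r
  have hLU : L ^ U ≤ l ^ (40 * U) := by
    rw [pow_mul]
    gcongr
  have hLU0 : 0 < L ^ U := by positivity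
  -- first part
  have p1 : L * (((z : ℝ) + 1) ^ r * R0) ≤ N / (q * L ^ U) / 2 := by
    rw [div_div, le_div_iff₀ (by positivity)]
    have q1 : L * (((z : ℝ) + 1) ^ r * R0) * (q * L ^ U * 2) ≤
        l ^ 40 * (Real.exp (l / 200) * (2 * Real.exp (l ^ 40 / 2 - l / 5))) * (Real.exp (l / 300) * l ^ (40 * U) * 2) := by
      gcongr
    have q2 : l ^ 40 * (Real.exp (l / 200) * (2 * Real.exp (l ^ 40 / 2 - l / 5))) * (Real.exp (l / 300) * l ^ (40 * U) * 2) =
        (8 * l ^ (40 * U + 40)) * (Real.exp (l / 200) * Real.exp (l ^ 40 / 2 - l / 5) * Real.exp (l / 300)) / 2 := by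
      rw [pow_add]
      ring
    have q3 : (8 * l ^ (40 * U + 40)) * (Real.exp (l / 200) * Real.exp (l ^ 40 / 2 - l / 5) * Real.exp (l / 300)) / 2 ≤
        Real.exp (l ^ 40 / 2) / 2 := by
      apply div_le_div_of_nonneg_right _ (by norm_num)
      calc (8 * l ^ (40 * U + 40)) * (Real.exp (l / 200) * Real.exp (l ^ 40 / 2 - l / 5) * Real.exp (l / 300)) ≤
            Real.exp (1 / 10 * l) * (Real.exp (l / 200) * Real.exp (l ^ 40 / 2 - l / 5) * Real.exp (l / 300)) := by
            gcongr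
        _ = Real.exp (1 / 10 * l + (l / 200 + (l ^ 40 / 2 - l / 5) + l / 300)) := by
            rw [Real.exp_add (1 / 10 * l), Real.exp_add (l / 200 + (l ^ 40 / 2 - l / 5)), Real.exp_add (l / 200)]
        _ ≤ _ := by
            apply Real.exp_le_exp.2
            linarith
    linarith
  -- second part
  have p2 : L * (2 * ((M : ℝ) / (Nat.totient q : ℝ)) * es (gh h) T r) ≤ N / (q * L ^ U) / 2 := by
    calc L * (2 * ((M : ℝ) / (Nat.totient q : ℝ)) * es (gh h) T r) ≤
          L * (2 * (3 * L * (N / q)) * (l ^ (240 * E + 12) / l ^ K)) := by gcongr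
      _ = (N / q) * (6 * (L * L) * l ^ (240 * E + 12) / l ^ K) := by ring
      _ ≤ (N / q) * (1 / (2 * L ^ U)) := by
          apply mul_le_mul_of_nonneg_left _ (by positivity)
          rw [div_le_div_iff₀ (by positivity) (by positivity), one_mul]
          calc 6 * (L * L) * l ^ (240 * E + 12) * (2 * L ^ U) ≤
                6 * (l ^ 40 * l ^ 40) * l ^ (240 * E + 12) * (2 * l ^ (40 * U)) := by gcongr
            _ = 12 * l ^ (92 + 240 * E + 40 * U) := by
                rw [show 92 + 240 * E + 40 * U = 40 + 40 + (240 * E + 12) + 40 * U by ring, pow_add, pow_add, pow_add]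
                ring
            _ ≤ l * l ^ (92 + 240 * E + 40 * U) := by
                apply mul_le_mul_of_nonneg_right _ (by positivity)
                linarith
            _ = l ^ K := by
                rw [hK, ← pow_succ']
                congr 1
                ring
      _ = _ := by
          field_simp
  calc (Vz z)⁻¹ * _ ≤ L * (((z : ℝ) + 1) ^ r * R0 + 2 * ((M : ℝ) / (Nat.totient q : ℝ)) * es (gh h) T r) := by
        apply mul_le_mul hV _ (abs_nonneg _) hL0.le
        refine key.trans ?_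
        linarith
    _ = L * (((z : ℝ) + 1) ^ r * R0) + L * (2 * ((M : ℝ) / (Nat.totient q : ℝ)) * es (gh h) T r) := by ring
    _ ≤ N / (q * L ^ U) / 2 + N / (q * L ^ U) / 2 := add_le_add p1 p2
    _ = N / (q * L ^ U) := by ring

end Pool.Agent.K9h54.MP
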