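import Pool.Agent.K9h54.MP.Sc
import Pool.Agent.K9h54.MP.Conc

set_option autoImplicit false

/-!
# Maier's phenomenon for prime pairs at almost all distances: sizes
-/

namespace Pool.Agent.K9h54.MP

open Finset Filter Topology

/-- the bound for the distances -/
noncomputable def XX (l : ℝ) : ℕ := NN l / 20

/-- the length of the windows -/
noncomputable def yl (lam l : ℝ) : ℝ := Real.log (XX l) ^ lam

/-- exponentials of powers beat powers -/
theorem exp_beats (K c v : ℝ) (m : ℕ) (hc : 0 < c) (hv : 0 < v) :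
    ∀ᶠ l : ℝ in atTop, K * l ^ m ≤ Real.exp (c * (l / 2) ^ v) := by
  have h1 := (isLittleO_rpow_exp_pos_mul_atTop ((m : ℝ) / v) hc).bound
    (show (0 : ℝ) < 1 / (|K| * 2 ^ m + 1) by positivity)
  have h2 : Tendsto (fun l : ℝ => (l / 2) ^ v) atTop atTop :=
    (tendsto_rpow_atTop hv).comp (tendsto_id.atTop_div_const (by norm_num))
  filter_upwards [h2.eventually h1, eventually_gt_atTop (0 : ℝ)] with l h3 h4
  have h5 : 0 < l / 2 := by positivity
  have h6 : ((l / 2) ^ v) ^ ((m : ℝ) / v) = (l / 2) ^ m := by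
    rw [← Real.rpow_mul h5.le, mul_div_cancel₀ _ hv.ne', Real.rpow_natCast]
  rw [h6, Real.norm_of_nonneg (by positivity), Real.norm_of_nonneg (Real.exp_pos _).le, one_div,
    inv_mul_eq_div, le_div_iff₀ (by positivity)] at h3
  have h7 : K * l ^ m ≤ (l / 2) ^ m * (|K| * 2 ^ m + 1) := by
    rw [div_pow]
    have h8 : l ^ m / 2 ^ m * (|K| * 2 ^ m + 1) = |K| * l ^ m + l ^ m / 2 ^ m := by
      field_simp
    rw [h8]
    have h9 : K * l ^ m ≤ |K| * l ^ m := mul_le_mul_of_nonneg_right (le_abs_self K) (by positivity)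
    have : 0 ≤ l ^ m / 2 ^ m := by positivity
    linarith
  exact h7.trans h3

/-- basic sizes -/
theorem size0 : ∀ᶠ l : ℝ in atTop, 2 ≤ XX l ∧ (NN l : ℝ) ≤ 21 * XX l ∧ Real.log (NN l) - 4 ≤ Real.log (XX l) ∧
    Real.log (XX l) ≤ Real.log (NN l) ∧ (l / 2) ^ (40 : ℕ) ≤ Real.log (XX l) ∧ Real.log (XX l) ≤ l ^ 40 := by
  filter_upwards [NN_bd, eventually_ge_atTop (100 : ℝ)] with l h1 h2
  obtain ⟨b1, b2, b3, b4⟩ := h1
  have h40 : (100 : ℝ) ^ 40 ≤ l ^ 40 := by gcongr
  have hN : (10000 : ℝ) ≤ NN l := by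
    have := Real.add_one_le_exp (l ^ 40 / 2)
    have k : (40000 : ℝ) ≤ 100 ^ 40 := by norm_num
    linarith
  have hNn : 10000 ≤ NN l := by exact_mod_cast hN
  have e1 : 2 ≤ XX l := by unfold XX; omega
  have e2 : NN l ≤ 21 * XX l := by unfold XX; omega
  have e2r : (NN l : ℝ) ≤ 21 * XX l := by exact_mod_cast e2
  have hX0 : (0 : ℝ) < XX l := by exact_mod_cast (by omega : 0 < XX l)
  have hN0 : (0 : ℝ) < NN l := by linarith
  have e3 : Real.log (NN l) - 4 ≤ Real.log (XX l) := by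
    have k1 := Real.log_le_log hN0 e2r
    rw [Real.log_mul (by norm_num) hX0.ne'] at k1
    have k2 : Real.log 21 ≤ 4 := by
      rw [Real.log_le_iff_le_exp (by norm_num)]
      have k3 : (2.7 : ℝ) ≤ Real.exp 1 := by linarith [Real.exp_one_gt_d9]
      have k4 : Real.exp 4 = Real.exp 1 ^ 4 := by rw [← Real.exp_nat_mul]; norm_num
      rw [k4]
      calc (21 : ℝ) ≤ 2.7 ^ 4 := by norm_num
        _ ≤ _ := by gcongr
    linarith
  have e4 : Real.log (XX l) ≤ Real.log (NN l) := by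
    apply Real.log_le_log hX0
    have : XX l ≤ NN l := by unfold XX; omega
    exact_mod_cast this
  refine ⟨e1, e2r, e3, e4, ?_, ?_⟩
  · refine le_trans ?_ e3
    rw [div_pow]
    have k1 : l ^ 40 / 2 ^ 40 ≤ l ^ 40 / 8 := by
      apply div_le_div_of_nonneg_left (by positivity) (by norm_num) (by norm_num)
    have k2 : (40000 : ℝ) ≤ 100 ^ 40 := by norm_num
    linarith
  · have : (0 : ℝ) ≤ l ^ 40 := by positivity
    linarith

/-- the length of the windows -/
theorem size1 (lam κ : ℝ) (hlam : 0 < lam) (hκ : 0 < κ) : ∀ᶠ l : ℝ in atTop,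
    (l / 2) ^ (40 * lam) ≤ yl lam l ∧ yl lam l ≤ (l / 2) ^ (40 * lam + κ) ∧
      yl lam l ≤ l ^ (40 * ⌈lam⌉₊) ∧ yl lam l ≤ Real.log (NN l) ^ ⌈lam⌉₊ ∧ 1 ≤ yl lam l := by
  have h2 : Tendsto (fun l : ℝ => (l / 2) ^ κ) atTop atTop :=
    (tendsto_rpow_atTop hκ).comp (tendsto_id.atTop_div_const (by norm_num))
  filter_upwards [size0, eventually_ge_atTop (100 : ℝ), h2.eventually_ge_atTop (2 ^ (40 * lam))] with l h1 h3 h4
  obtain ⟨e1, e2, e3, e4, e5, e6⟩ := h1
  have hl0 : 0 < l / 2 := by linarith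
  have h1' : (1 : ℝ) ≤ (l / 2) ^ 40 := one_le_pow₀ (by linarith)
  have hX0 : 0 ≤ Real.log (XX l) := by linarith
  have hX1 : 1 ≤ Real.log (XX l) := by linarith
  unfold yl
  have k1 : (l / 2) ^ (40 * lam) = ((l / 2) ^ (40 : ℕ)) ^ lam := by
    rw [← Real.rpow_natCast, ← Real.rpow_mul hl0.le]
    norm_num
  have hceil : Real.log (XX l) ^ lam ≤ Real.log (XX l) ^ ⌈lam⌉₊ := by
    rw [← Real.rpow_natCast]
    exact Real.rpow_le_rpow_of_exponent_le hX1 (Nat.le_ceil _)
  refine ⟨?_, ?_, ?_, ?_, ?_⟩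
  · rw [k1]
    exact Real.rpow_le_rpow (by positivity) e5 hlam.le
  · calc Real.log (XX l) ^ lam ≤ (l ^ 40) ^ lam := Real.rpow_le_rpow hX0 e6 hlam.le
      _ = (2 ^ 40 * (l / 2) ^ 40) ^ lam := by
          congr 1
          rw [div_pow]
          field_simp
      _ = (2 ^ 40) ^ lam * ((l / 2) ^ 40) ^ lam := Real.mul_rpow (by positivity) (by positivity)
      _ = 2 ^ (40 * lam) * (l / 2) ^ (40 * lam) := by
          rw [k1]
          congr 1
          rw [← Real.rpow_natCast, ← Real.rpow_mul (by norm_num)]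
          norm_num
      _ ≤ (l / 2) ^ κ * (l / 2) ^ (40 * lam) := mul_le_mul_of_nonneg_right h4 (by positivity)
      _ = (l / 2) ^ (40 * lam + κ) := by
          rw [← Real.rpow_add hl0]
          congr 1
          ring
  · refine hceil.trans ?_
    rw [pow_mul]
    gcongr
  · refine hceil.trans ?_
    gcongr
  · exact Real.one_le_rpow hX1 hlam.le

/-- everything is below the scale -/
theorem size2 (lam : ℝ) (hlam : 0 < lam) : ∀ᶠ l : ℝ in atTop, 18 * XX l + 6 * ⌊yl lam l⌋₊ + 2 ≤ NN l := by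
  filter_upwards [size1 lam 1 hlam one_pos, NN_bd, eventually_ge_atTop (100 : ℝ),
    pow_le_exp 8 1 (40 * ⌈lam⌉₊) one_pos] with l h1 h2 h3 h4
  obtain ⟨-, -, e1, -, e2⟩ := h1
  obtain ⟨b1, b2, b3, b4⟩ := h2
  have k1 : 6 * yl lam l + 2 ≤ Real.exp (1 * l) := by linarith
  have k2 : Real.exp (1 * l) * 20 ≤ Real.exp (l ^ 40 / 2) := by
    have k3 : (20 : ℝ) ≤ Real.exp l := by
      have := Real.add_one_le_exp l
      linarith
    calc Real.exp (1 * l) * 20 ≤ Real.exp (1 * l) * Real.exp l := by gcongr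
      _ = Real.exp (1 * l + l) := by rw [Real.exp_add]
      _ ≤ _ := by
          apply Real.exp_le_exp.2
          have d4 : (100 : ℝ) ^ 39 ≤ l ^ 39 := by gcongr
          have d5 : l ^ 40 = l ^ 39 * l := by ring
          rw [d5]
          have d7 : (8 : ℝ) ≤ 100 ^ 39 := by norm_num
          nlinarith
  have k3 : 6 * (⌊yl lam l⌋₊ : ℝ) + 2 ≤ NN l / 10 := by
    have := Nat.floor_le (show 0 ≤ yl lam l by linarith)
    linarith
  have k4 : (XX l : ℝ) ≤ NN l / 20 := by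
    unfold XX
    exact Nat.cast_div_le
  have k5 : (18 * XX l + 6 * ⌊yl lam l⌋₊ + 2 : ℝ) ≤ NN l := by
    have : (0 : ℝ) ≤ NN l := Nat.cast_nonneg _
    linarith
  exact_mod_cast k5

/-- factorials are large -/
theorem fact_large (n : ℕ) : Real.exp (2 * n - 10) ≤ n.factorial := by
  have h1 := Real.pow_div_factorial_le_exp (10 : ℝ) (by norm_num) n
  have h2 : (0 : ℝ) < n.factorial := by exact_mod_cast Nat.factorial_pos n
  rw [div_le_iff₀ h2] at h1
  have h3 : Real.exp (2 * n) ≤ 10 ^ n := by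
    have k1 : Real.exp 2 ≤ 10 := by
      have k2 : Real.exp 2 = Real.exp 1 ^ 2 := by rw [← Real.exp_nat_mul]; norm_num
      rw [k2]
      have := Real.exp_one_lt_d9
      have := Real.exp_pos 1
      nlinarith
    calc Real.exp (2 * n) = Real.exp 2 ^ n := by rw [← Real.exp_nat_mul]; ring_nf
      _ ≤ 10 ^ n := by gcongr
  rw [Real.exp_sub, div_le_iff₀ (Real.exp_pos _)]
  linarith

end Pool.Agent.K9h54.MP
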