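import Pool.Agent.K9h54.MP.Maj

set_option autoImplicit false

/-!
# Maier's phenomenon for prime pairs at almost all distances: mean square over the classes
-/

namespace Pool.Agent.K9h54.MP

open Finset Filter Topology
open Pool.Agent.H807R2.Dav (ee norm_ee)
open Pool.Agent.Y883.GJ
open Pool.Agent.Y883.T3 (lsh)
open Pool.Agent.H373R2.T7 (lamz Vz pz Vz_pos Vz_inv_small mem_pz)
open Pool.Agent.Y614.GJ.Core (P_le dirich q_le_phi FF_le)

/-- the total mass of a sequence with small first moment -/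
theorem sq_small (N : ℕ) (F : ℕ → ℂ) (ℓ T : ℝ) (hℓ : 1 + Real.log N ≤ ℓ)
    (hF : ∀ n ∈ Icc 1 N, ‖F n‖ ≤ ℓ * (n.divisors.card : ℝ)) (hT : ∑ n ∈ Icc 1 N, ‖F n‖ ≤ T) :
    ∑ n ∈ Icc 1 N, ‖F n‖ ^ 2 ≤ Real.sqrt (T * (N * ℓ ^ 11)) := by
  have hlog : 0 ≤ Real.log N := Real.log_natCast_nonneg _
  have hℓ1 : 1 ≤ ℓ := by linarith
  have h3 : ∑ n ∈ Icc 1 N, ‖F n‖ ^ 3 ≤ N * ℓ ^ 11 := by
    calc ∑ n ∈ Icc 1 N, ‖F n‖ ^ 3
        ≤ ∑ n ∈ Icc 1 N, ℓ ^ 3 * (n.divisors.card : ℝ) ^ 3 := by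
          refine sum_le_sum fun n hn => ?_
          rw [← mul_pow]
          gcongr
          exact hF n hn
      _ = ℓ ^ 3 * ∑ n ∈ Icc 1 N, (n.divisors.card : ℝ) ^ 3 := by rw [mul_sum]
      _ ≤ ℓ ^ 3 * (N * (1 + Real.log N) ^ (2 ^ 3)) := by
          gcongr
          exact Pool.Agent.TH935.LD.tau_pow_sum 3 N
      _ ≤ ℓ ^ 3 * (N * ℓ ^ 8) := by
          have : (1 + Real.log N) ^ (2 ^ 3) ≤ ℓ ^ 8 := by
            norm_num
            gcongr
          gcongr
      _ = N * ℓ ^ 11 := by ring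
  have h4 : (∑ n ∈ Icc 1 N, ‖F n‖ ^ 2) ^ 2 ≤ T * (N * ℓ ^ 11) := by
    have h5 := sum_mul_sq_le_sq_mul_sq (Icc 1 N) (fun n => Real.sqrt ‖F n‖)
      (fun n => Real.sqrt ‖F n‖ * ‖F n‖)
    have e1 : ∀ n, Real.sqrt ‖F n‖ * (Real.sqrt ‖F n‖ * ‖F n‖) = ‖F n‖ ^ 2 := by
      intro n
      rw [← mul_assoc, Real.mul_self_sqrt (norm_nonneg _), sq]
    have e2 : ∀ n, Real.sqrt ‖F n‖ ^ 2 = ‖F n‖ := fun n => Real.sq_sqrt (norm_nonneg _)
    have e3 : ∀ n, (Real.sqrt ‖F n‖ * ‖F n‖) ^ 2 = ‖F n‖ ^ 3 := by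
      intro n
      rw [mul_pow, e2]
      ring
    simp only [e1, e2, e3] at h5
    refine h5.trans (mul_le_mul hT h3 (sum_nonneg fun _ _ => by positivity) ?_)
    exact (sum_nonneg fun _ _ => norm_nonneg _).trans hT
  exact Real.le_sqrt_of_sq_le h4

/-- the mean square over the classes -/
theorem star (A : ℕ) : ∃ B : ℕ, ∀ E : ℕ, ∀ᶠ l : ℝ in atTop, APl l → ∀ z : ℕ, Real.log (NN l) ^ B ≤ z →
    (z : ℝ) ≤ Real.log (NN l) ^ E → ∀ (q : ℕ) [NeZero q], (q : ℝ) ≤ Real.exp (l / 300) →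
      (∀ p, p.Prime → p ∣ q → p ≤ z) → ∀ β : ℝ,
        ∑ b : ZMod q, ‖cl q (NN l) (GG z) β b‖ ^ 2 ≤ (NN l : ℝ) ^ 2 / (q * Real.log (NN l) ^ A) := by
  obtain ⟨C, N₁, hM⟩ := minF_all (A + 3) (1 / 4) (by norm_num)
  obtain ⟨c, hc⟩ : NonUStm := Pool.Agent.Y812.GJ.nonU
  obtain ⟨B₁, hB₁⟩ := model_all (c + 2 * (A + 3) + 30)
  refine ⟨max B₁ C, fun E => ?_⟩
  obtain ⟨N₂, hN₂⟩ := hB₁ E
  filter_upwards [NN_bd, cl_small E C, eventually_ge_atTop (100 : ℝ), ev_NN ⟨N₁, hM⟩, ev_NN ⟨N₂, hN₂⟩,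
    pow_le_exp 4 (1 / 20) (40 * A) (by norm_num), pow_le_exp 1 (1 / 200) (40 * C) (by norm_num),
    eventually_ge_atTop (4 * 2 ^ c + 2 ^ 12 : ℝ)] with
    l h1 h2 h3 hMN hmodel h4 h4' h5 hAP z hzB hzE q _ hqE hqz β
  obtain ⟨b1, b2, b3, b4⟩ := h1
  set N := NN l with hN
  set L := Real.log (N : ℝ) with hL
  have hN0 : (0 : ℝ) < N := by linarith [Real.exp_pos (l ^ 40 / 2)]
  have hN1 : 1 ≤ N := by exact_mod_cast hN0
  have h40 : l ≤ l ^ 39 := le_self_pow₀ (by linarith) (by norm_num)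
  have hl40 : l * l ≤ l ^ 40 := by
    have : l ^ 40 = l ^ 39 * l := by ring
    nlinarith
  have h2c : (0 : ℝ) < 2 ^ c := by positivity
  have hLl : l ≤ L := by nlinarith
  have hL100 : 100 ≤ L := by linarith
  have hL0 : 0 < L := by linarith
  have hL1 : 1 ≤ L := by linarith
  have hL40 : L ≤ l ^ 40 := by
    have : (0 : ℝ) ≤ l ^ 40 := by positivity
    linarith
  have hq0 : (0 : ℝ) < q := by exact_mod_cast NeZero.pos q
  have hexpL : Real.exp L = N := Real.exp_log hN0
  have hqN14 : (q : ℝ) ≤ (N : ℝ) ^ (1 / 2 - 1 / 4 : ℝ) := by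
    rw [← hexpL, ← Real.exp_mul]
    refine hqE.trans (Real.exp_le_exp.2 ?_)
    norm_num
    linarith
  have hqN : (q : ℝ) ≤ N := by
    rw [← hexpL]
    refine hqE.trans (Real.exp_le_exp.2 ?_)
    linarith
  have hqNn : q ≤ N := by exact_mod_cast hqN
  have hLC : L ^ C ≤ l ^ (40 * C) := by
    rw [pow_mul]
    gcongr
  have hqLC : (q : ℝ) * L ^ C ≤ N := by
    have e1 : L ^ C ≤ Real.exp (1 / 200 * l) := by linarith
    calc (q : ℝ) * L ^ C ≤ Real.exp (l / 300) * Real.exp (1 / 200 * l) := by gcongr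
      _ = Real.exp (l / 300 + 1 / 200 * l) := by rw [Real.exp_add]
      _ ≤ Real.exp L := by
          apply Real.exp_le_exp.2
          nlinarith
      _ = N := hexpL
  have hz1 : 1 ≤ z := by
    have : (1 : ℝ) ≤ z := (one_le_pow₀ hL1).trans hzB
    exact_mod_cast this
  obtain ⟨r, hPar, hsh⟩ := hmodel z (le_trans (pow_le_pow_right₀ hL1 (le_max_left _ _)) hzB) hzE
  -- Dirichlet
  set n := ⌊(N : ℝ) / (q * L ^ C)⌋₊ with hn
  have hn0 : 0 < n := by
    rw [hn, Nat.floor_pos, le_div_iff₀ (by positivity), one_mul]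
    exact hqLC
  have hn1 : (n : ℝ) ≤ (N : ℝ) / (q * L ^ C) := Nat.floor_le (by positivity)
  have hn2 : (N : ℝ) / (q * L ^ C) < n + 1 := Nat.lt_floor_add_one _
  obtain ⟨j, h, hj, hcop, hx⟩ := dirich ((q : ℝ) * β) hn0
  have hjn : ((j + 1 : ℕ) : ℝ) ≤ n := by exact_mod_cast hj
  have hk0 : (0 : ℝ) < ((j + 1 : ℕ) : ℝ) := by positivity
  have hk1 : (1 : ℝ) ≤ ((j + 1 : ℕ) : ℝ) := by exact_mod_cast Nat.succ_pos j
  by_cases hkC : L ^ C ≤ ((j + 1 : ℕ) : ℝ)
  · -- minor arcs
    have e1 : (q : ℝ) * ((j + 1 : ℕ) : ℝ) * L ^ C ≤ N := by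
      have := (le_div_iff₀ (by positivity)).1 (hjn.trans hn1)
      linarith
    have e2 : |(q : ℝ) * β - h / ((j + 1 : ℕ) : ℝ)| ≤ 1 / ((j + 1 : ℕ) : ℝ) ^ 2 := by
      refine hx.trans ?_
      rw [sq]
      apply one_div_le_one_div_of_le (by positivity)
      apply mul_le_mul_of_nonneg_right _ hk0.le
      linarith
    have e3 := hMN q hqN14 z r hPar.hD hPar.hV (j + 1) h β hkC e1 hcop e2
    -- non-units
    have hsq : ∀ (W : ℕ), (2 * L) ^ 11 ≤ L ^ 12 * (2 ^ 11 / L) := by
      intro _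
      apply le_of_eq
      field_simp
    have hnon : ∑ l ∈ univ.filter (fun l : ZMod q => ¬ IsUnit l),
        ‖cl q N (FF z r) β l‖ ^ 2 ≤ (N : ℝ) ^ 2 / (q * L ^ (A + 1)) / 8 := by
      have f1 := hc q N (FF z r) (2 * L) (N / L ^ (c + 2 * (A + 3) + 30)) β hN1 (by linarith)
        (fun n hn => FF_le hPar hn) (by
          have := hPar.hC q (NeZero.pos q) hqNn
          refine le_trans (le_of_eq (sum_congr rfl fun n _ => ?_)) this
          unfold FF
          rw [Complex.norm_real, Real.norm_eq_abs])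
      refine f1.trans ?_
      have f2 : N / L ^ (c + 2 * (A + 3) + 30) * (N * (2 * L) ^ c) ≤ ((N : ℝ) / L ^ (A + 3)) ^ 2 := by
        calc N / L ^ (c + 2 * (A + 3) + 30) * (N * (2 * L) ^ c)
            = ((N : ℝ) / L ^ (A + 3)) ^ 2 * (2 ^ c / (L ^ 30)) := by
              rw [mul_pow, pow_add, pow_add, pow_mul']
              field_simp
          _ ≤ ((N : ℝ) / L ^ (A + 3)) ^ 2 * 1 := by
              gcongr
              rw [div_le_one (by positivity)]
              calc (2 : ℝ) ^ c ≤ L := by linarith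
                _ ≤ L ^ 30 := le_self_pow₀ hL1 (by norm_num)
          _ = _ := mul_one _
      have f3 : √(N / L ^ (c + 2 * (A + 3) + 30) * (N * (2 * L) ^ c)) ≤
          (N : ℝ) / L ^ (A + 3) := Real.sqrt_le_iff.2 ⟨by positivity, f2⟩
      have f4 : (N : ℝ) / q + 1 ≤ 2 * (N / q) := by
        have : (1 : ℝ) ≤ N / q := by
          rw [le_div_iff₀ hq0, one_mul]
          exact hqN
        linarith
      calc ((N : ℝ) / q + 1) * √(N / L ^ (c + 2 * (A + 3) + 30) * (N * (2 * L) ^ c))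
          ≤ 2 * (N / q) * (N / L ^ (A + 3)) := by
            apply mul_le_mul f4 f3 (Real.sqrt_nonneg _) (by positivity)
        _ = (N : ℝ) ^ 2 / (q * L ^ (A + 1)) * (2 / L ^ 2) := by
            rw [show A + 3 = (A + 1) + 2 by ring, pow_add L (A + 1)]
            field_simp
        _ ≤ (N : ℝ) ^ 2 / (q * L ^ (A + 1)) * (1 / 8) := by
            have : 2 / L ^ 2 ≤ 1 / 8 := by
              rw [div_le_div_iff₀ (by positivity) (by norm_num)]
              nlinarith
            gcongr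
        _ = _ := by ring
    have e4 := P_le Pool.Agent.Y297.GJ.orth e3 hnon
    have hφ0 : (0 : ℝ) < q.totient := by exact_mod_cast Nat.totient_pos.2 (NeZero.pos q)
    have e5 : ((q.totient : ℝ))⁻¹ ≤ 3 * L / q := by
      have h1 := q_le_phi (NeZero.pos q)
      have h2 : Real.log q ≤ L := by
        rw [hL]
        exact Real.log_le_log hq0 hqN
      rw [inv_eq_one_div, div_le_div_iff₀ hφ0 hq0, one_mul]
      refine h1.trans ?_
      rw [mul_comm (3 * L)]
      apply mul_le_mul_of_nonneg_left _ hφ0.le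
      linarith
    have e6 : ((q.totient : ℝ))⁻¹ * ((N : ℝ) ^ 2 / L ^ (A + 3)) ≤
        (N : ℝ) ^ 2 / (q * L ^ (A + 1)) / 8 := by
      calc ((q.totient : ℝ))⁻¹ * ((N : ℝ) ^ 2 / L ^ (A + 3))
          ≤ 3 * L / q * ((N : ℝ) ^ 2 / L ^ (A + 3)) := by gcongr
        _ = (N : ℝ) ^ 2 / (q * L ^ (A + 1)) * (3 / L) := by
            rw [show A + 3 = (A + 1) + 2 by ring, pow_add L (A + 1)]
            field_simp
        _ ≤ (N : ℝ) ^ 2 / (q * L ^ (A + 1)) * (1 / 8) := by
            have : 3 / L ≤ 1 / 8 := by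
              rw [div_le_div_iff₀ hL0 (by norm_num)]
              linarith
            gcongr
        _ = _ := by ring
    have e7 : ∑ b : ZMod q, ‖cl q N (FF z r) β b‖ ^ 2 ≤ (N : ℝ) ^ 2 / (q * L ^ (A + 1)) / 4 := by
      unfold Pool.Agent.Y614.GJ.Core.P at e4
      linarith
    -- the difference of the models
    set D : ℕ → ℂ := fun n => ((lsh z r n - lamz z n : ℝ) : ℂ) with hD
    have g1 : ∑ b : ZMod q, ‖cl q N D β b‖ ^ 2 ≤ (N : ℝ) ^ 2 / (q * L ^ (A + 1)) / 4 := by
      have k1 := (Pool.Agent.Y812.GJ.l2 q N D).2 β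
      have k2 := sq_small N D (4 * L) (N / L ^ (c + 2 * (A + 3) + 30)) (by linarith) (by
        intro n hn
        have m1 := hPar.hT n hn
        have hn' := mem_Icc.1 hn
        have hd : (1 : ℝ) ≤ (n.divisors.card : ℝ) := by
          have : 0 < n.divisors.card := card_pos.2 ⟨1, Nat.mem_divisors.2 ⟨one_dvd _, by omega⟩⟩
          exact_mod_cast this
        have m2 : ArithmeticFunction.vonMangoldt n ≤ L := by
          refine ArithmeticFunction.vonMangoldt_le_log.trans ?_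
          exact Real.log_le_log (by exact_mod_cast hn'.1) (by exact_mod_cast hn'.2)
        have m3 : (0 : ℝ) ≤ ArithmeticFunction.vonMangoldt n := ArithmeticFunction.vonMangoldt_nonneg
        have m4 : |lamz z n| ≤ L := by
          unfold lamz
          split_ifs
          · rw [abs_of_pos (inv_pos.2 (Vz_pos z))]
            exact hPar.hV
          · rw [abs_zero]; exact hL0.le
        rw [hD]
        simp only
        rw [Complex.norm_real, Real.norm_eq_abs]
        have m5 : lsh z r n - lamz z n = -(ArithmeticFunction.vonMangoldt n - lsh z r n) +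
          (ArithmeticFunction.vonMangoldt n - lamz z n) := by ring
        rw [m5]
        refine (abs_add_le _ _).trans ?_
        rw [abs_neg]
        have m6 : |ArithmeticFunction.vonMangoldt n - lamz z n| ≤ 2 * L := by
          refine (abs_sub _ _).trans ?_
          rw [abs_of_nonneg m3]
          linarith
        nlinarith) (by
        refine le_trans (le_of_eq (sum_congr rfl fun n _ => ?_)) hsh
        rw [hD]
        simp only
        rw [Complex.norm_real, Real.norm_eq_abs, abs_sub_comm])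
      have k3 : √(N / L ^ (c + 2 * (A + 3) + 30) * (N * (4 * L) ^ 11)) ≤ (N : ℝ) / L ^ (A + 3) := by
        refine Real.sqrt_le_iff.2 ⟨by positivity, ?_⟩
        calc N / L ^ (c + 2 * (A + 3) + 30) * (N * (4 * L) ^ 11)
            = ((N : ℝ) / L ^ (A + 3)) ^ 2 * (4 ^ 11 / (L ^ c * L ^ 19)) := by
              rw [mul_pow, show c + 2 * (A + 3) + 30 = c + 2 * (A + 3) + 19 + 11 by ring, pow_add, pow_add,
                pow_add, pow_mul']
              field_simp
          _ ≤ ((N : ℝ) / L ^ (A + 3)) ^ 2 * 1 := by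
              gcongr
              rw [div_le_one (by positivity)]
              have n1 : (1 : ℝ) ≤ L ^ c := one_le_pow₀ hL1
              have n2 : (4 : ℝ) ^ 11 ≤ L ^ 19 := by
                calc (4 : ℝ) ^ 11 ≤ 100 ^ 19 := by norm_num
                  _ ≤ L ^ 19 := by gcongr
              nlinarith
          _ = _ := mul_one _
      refine k1.trans ?_
      have f4 : (N : ℝ) / q + 1 ≤ 2 * (N / q) := by
        have : (1 : ℝ) ≤ N / q := by
          rw [le_div_iff₀ hq0, one_mul]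
          exact hqN
        linarith
      calc ((N : ℝ) / q + 1) * ∑ n ∈ Icc 1 N, ‖D n‖ ^ 2 ≤ 2 * (N / q) * (N / L ^ (A + 3)) := by
            apply mul_le_mul f4 (k2.trans k3) (sum_nonneg fun _ _ => by positivity) (by positivity)
        _ = (N : ℝ) ^ 2 / (q * L ^ (A + 1)) * (2 / L ^ 2) := by
            rw [show A + 3 = (A + 1) + 2 by ring, pow_add L (A + 1)]
            field_simp
        _ ≤ (N : ℝ) ^ 2 / (q * L ^ (A + 1)) * (1 / 4) := by
            have : 2 / L ^ 2 ≤ 1 / 4 := by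
              rw [div_le_div_iff₀ (by positivity) (by norm_num)]
              nlinarith
            gcongr
        _ = _ := by ring
    have g2 : ∀ b : ZMod q, ‖cl q N (GG z) β b‖ ^ 2 ≤ 2 * ‖cl q N (FF z r) β b‖ ^ 2 + 2 * ‖cl q N D β b‖ ^ 2 := by
      intro b
      have k1 : cl q N (GG z) β b = cl q N (FF z r) β b + cl q N D β b := by
        unfold cl
        rw [← sum_add_distrib]
        apply sum_congr rfl
        intro n _
        unfold GG GR FF
        rw [hD]
        simp only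
        push_cast
        ring
      rw [k1]
      have k2 := norm_add_le (cl q N (FF z r) β b) (cl q N D β b)
      have k3 : ‖cl q N (FF z r) β b + cl q N D β b‖ ^ 2 ≤ (‖cl q N (FF z r) β b‖ + ‖cl q N D β b‖) ^ 2 := by
        gcongr
      nlinarith [sq_nonneg (‖cl q N (FF z r) β b‖ - ‖cl q N D β b‖)]
    calc ∑ b : ZMod q, ‖cl q N (GG z) β b‖ ^ 2 ≤
          ∑ b : ZMod q, (2 * ‖cl q N (FF z r) β b‖ ^ 2 + 2 * ‖cl q N D β b‖ ^ 2) := sum_le_sum fun b _ => g2 b
      _ = 2 * ∑ b : ZMod q, ‖cl q N (FF z r) β b‖ ^ 2 + 2 * ∑ b : ZMod q, ‖cl q N D β b‖ ^ 2 := by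
          rw [sum_add_distrib, mul_sum, mul_sum]
      _ ≤ (N : ℝ) ^ 2 / (q * L ^ (A + 1)) := by linarith
      _ ≤ (N : ℝ) ^ 2 / (q * L ^ A) := by
          apply div_le_div_of_nonneg_left (by positivity) (by positivity)
          apply mul_le_mul_of_nonneg_left _ hq0.le
          exact pow_le_pow_right₀ hL1 (by omega)
  · -- major arcs
    rw [not_le] at hkC
    set k : ℕ := j + 1 with hk
    have hηle : |β - h / ((k * q : ℕ) : ℝ)| ≤ L ^ C / N := by
      have e1 : β - h / ((k * q : ℕ) : ℝ) = ((q : ℝ) * β - h / (k : ℝ)) / q := by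
        push_cast
        field_simp
      rw [e1, abs_div, abs_of_pos hq0, div_le_div_iff₀ hq0 hN0]
      have e2 : (N : ℝ) ≤ (n + 1) * (q * L ^ C) := by
        have := (div_lt_iff₀ (by positivity)).1 hn2
        linarith
      have hn3 : (0 : ℝ) < n + 1 := by positivity
      calc |(q : ℝ) * β - h / (k : ℝ)| * N ≤ 1 / (((n : ℝ) + 1) * (k : ℝ)) * N := by gcongr
        _ ≤ 1 / ((n : ℝ) + 1) * N := by
            apply mul_le_mul_of_nonneg_right _ hN0.le
            apply one_div_le_one_div_of_le hn3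
            nlinarith
        _ ≤ 1 / ((n : ℝ) + 1) * ((n + 1) * (q * L ^ C)) := by gcongr
        _ = L ^ C * q := by field_simp
    have hkq0 : k * q ≠ 0 := Nat.mul_ne_zero (Nat.succ_ne_zero j) (NeZero.ne q)
    haveI : NeZero (k * q) := ⟨hkq0⟩
    have hkz : ∀ p, p.Prime → p ∣ k * q → p ≤ z := by
      intro p hp hpd
      rcases (Nat.Prime.dvd_mul hp).1 hpd with hd | hd
      · have h6 : p ≤ k := Nat.le_of_dvd (Nat.succ_pos j) hd
        have h7 : (k : ℝ) ≤ z := by
          refine hkC.le.trans (le_trans ?_ hzB)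
          exact pow_le_pow_right₀ hL1 (le_max_right _ _)
        exact_mod_cast (le_trans (by exact_mod_cast h6 : (p : ℝ) ≤ k) h7)
      · exact hqz p hp hd
    have hkqE : ((k * q : ℕ) : ℝ) ≤ Real.exp (l / 100) := by
      have e1 : (k : ℝ) ≤ Real.exp (1 / 200 * l) := by linarith
      push_cast
      calc (k : ℝ) * q ≤ Real.exp (1 / 200 * l) * Real.exp (l / 300) := by gcongr
        _ = Real.exp (1 / 200 * l + l / 300) := by rw [Real.exp_add]
        _ ≤ _ := by
            apply Real.exp_le_exp.2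
            linarith
    have e1 := h2 hAP z hz1 hzE (k * q) hkqE hkz _ hηle
    set E' := Real.exp (l ^ 40 / 2 - l / 7) with hE'
    have e2 : ∀ b : ZMod q, ‖cl q N (GG z) β b‖ ≤ (k * q : ℕ) * E' := by
      intro b
      rw [Pool.Agent.Y708.GJ.cl_reduce q k N (GG z) β b]
      refine (norm_sum_le _ _).trans ?_
      calc ∑ l' : ZMod (k * q), ‖(if ZMod.castHom (Dvd.intro_left k rfl : q ∣ k * q) (ZMod q) l' = b then
            cl (k * q) N (GG z) β l' else 0)‖ ≤ ∑ l' : ZMod (k * q), E' := by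
            apply sum_le_sum
            intro l' _
            split_ifs
            · rw [Pool.Agent.Y708.GJ.cl_phase (k * q) N (GG z) h β (β - h / ((k * q : ℕ) : ℝ)) (by ring) l',
                norm_mul, Pool.Agent.Y708.GJ.norm_ph, one_mul]
              exact e1 l'
            · rw [norm_zero]
              exact (Real.exp_pos _).le
        _ = (k * q : ℕ) * E' := by
            rw [sum_const, card_univ, ZMod.card, nsmul_eq_mul]
    have e3 : ∑ b : ZMod q, ‖cl q N (GG z) β b‖ ^ 2 ≤ q * ((k * q : ℕ) * E') ^ 2 := by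
      calc ∑ b : ZMod q, ‖cl q N (GG z) β b‖ ^ 2 ≤ ∑ b : ZMod q, ((k * q : ℕ) * E') ^ 2 := by
            apply sum_le_sum
            intro b _
            have := e2 b
            gcongr
        _ = _ := by rw [sum_const, card_univ, ZMod.card, nsmul_eq_mul]
    refine e3.trans ?_
    rw [le_div_iff₀ (by positivity)]
    have hLA : L ^ A ≤ l ^ (40 * A) := by
      rw [pow_mul]
      gcongr
    have hE0 : 0 < E' := Real.exp_pos _
    have e4 : q * (((k * q : ℕ) : ℝ) * E') ^ 2 * (q * L ^ A) ≤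
        Real.exp (l / 300) * (Real.exp (l / 100) * E') ^ 2 * (Real.exp (l / 300) * (Real.exp (1 / 20 * l) / 4)) := by
      have : L ^ A ≤ Real.exp (1 / 20 * l) / 4 := by linarith
      gcongr
    refine e4.trans ?_
    have e5 : Real.exp (l / 300) * (Real.exp (l / 100) * E') ^ 2 * (Real.exp (l / 300) * (Real.exp (1 / 20 * l) / 4)) =
        Real.exp (l / 300 + (l / 100 + (l ^ 40 / 2 - l / 7)) + (l / 100 + (l ^ 40 / 2 - l / 7)) + l / 300 + 1 / 20 * l) / 4 := by
      rw [hE']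
      simp only [Real.exp_add]
      ring
    rw [e5]
    have e6 : (Real.exp (l ^ 40 / 2) / 2) ^ 2 ≤ (N : ℝ) ^ 2 := by gcongr
    have e7 : (Real.exp (l ^ 40 / 2) / 2) ^ 2 = Real.exp (l ^ 40) / 4 := by
      rw [div_pow, ← Real.exp_nat_mul]
      norm_num
      ring_nf
    rw [e7] at e6
    refine le_trans ?_ e6
    apply div_le_div_of_nonneg_right _ (by norm_num)
    apply Real.exp_le_exp.2
    linarith

end Pool.Agent.K9h54.MP
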